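import Pool.Agent.Bht.AQ.FIN
import Pool.Agent.H25.BaseChange
import Pool.Agent.H25.Sem

/-! every field -/

namespace Pool.Agent.Bht.BK.AQ

open Pool.Agent.H25 Pool.Agent.Bht.BK.CZ

universe u

/-- base change to rational functions -/
theorem iso_of_X0 (K : Type u) [Field K] {s t : BT} (h : X0 K s = X0 K t) : BT.Iso s t := by
  have h2 : X0 (RatFunc K) s = X0 (RatFunc K) t := base_change (K := K) (L := RatFunc K) s t h
  have : Infinite (RatFunc K) :=
    Infinite.of_injective (algebraMap (Polynomial K) (RatFunc K)) (RatFunc.algebraMap_injective K)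
  exact iso_of_X0_infinite (K := RatFunc K) h2

/-- Bahturin's conjecture over every field -/
theorem full (K : Type u) [Field K] (s t : BT) :
    (∀ (A : Type u) [LieRing A] [LieAlgebra K A], Holds K s A ↔ Holds K t A) ↔ BT.Iso s t := by
  constructor
  · intro h
    exact iso_of_X0 K (semantic s t h).2
  · intro h A _ _
    exact holds_of_iso h A

end Pool.Agent.Bht.BK.AQ
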