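import Pool.Agent.Bht.AQ.Sig
import Pool.Agent.Bht.AC17.Alg

namespace Pool.Agent.Bht.BK.AQ

open Pool.Agent.H25 Pool.Agent.Bht.BK.CZ Pool.Agent.Bht.AC17

universe u

/-! ## Alg the algebra of class 0 -/

attribute [local instance 100] LieRing.ofAssociativeRing

private lemma alg_ev {K : Type u} [Field K] (p : ℕ) (t : LW) :
    t.ev (io p (E p 1 (ff K))) (io p (E p 0 (cc K))) = io p (E p t.fd (t.ev (ff K) (cc K))) := by
  induction t with
  | f => rfl
  | c => rfl
  | br a b iha ihb =>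
    rw [LW.ev, iha, ihb, ← io_lie, E_lie]
    rfl

private lemma alg_adc {K : Type u} [Field K] (d : ℕ) :
    ∃ y, (LW.adc d).ev (ff K) (cc K) = (-1) ^ d * (ff K * cc K ^ d) + cc K * y := by
  induction d with
  | zero => exact ⟨0, by simp [LW.adc, LW.ev]⟩
  | succ n ih =>
    obtain ⟨y, hy⟩ := ih
    refine ⟨(LW.adc n).ev (ff K) (cc K) - y * cc K, ?_⟩
    have e : (-1) ^ n * (ff K * cc K ^ n) * cc K = -((-1) ^ (n + 1) * (ff K * cc K ^ (n + 1))) := by
      rcases neg_one_pow_eq_or (FA K) n with h | h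
      · rw [pow_succ (-1 : FA K), h, pow_succ (cc K)]; noncomm_ring
      · rw [pow_succ (-1 : FA K), h, pow_succ (cc K)]; noncomm_ring
    have e2 : (LW.adc (n + 1)).ev (ff K) (cc K) =
        cc K * (LW.adc n).ev (ff K) (cc K) - (LW.adc n).ev (ff K) (cc K) * cc K := rfl
    rw [e2]
    conv_lhs => rw [hy, add_mul _ _ (cc K), e]
    conv_rhs => rw [hy]
    noncomm_ring

private lemma alg_adc_mul {K : Type u} [Field K] (d : ℕ) (G z : FA K) (hG : G ≠ 0) :
    (LW.adc d).ev (ff K) (cc K) * G ≠ cc K * z := by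
  intro h
  obtain ⟨y, hy⟩ := alg_adc (K := K) d
  rw [hy, add_mul] at h
  have h1 : ff K * ((-1) ^ d * (cc K ^ d * G)) = cc K * (z - y * G) := by
    have e : (-1 : FA K) ^ d * (ff K * cc K ^ d) * G = ff K * ((-1) ^ d * (cc K ^ d * G)) := by
      rcases neg_one_pow_eq_or (FA K) d with h3 | h3
      · rw [h3]; noncomm_ring
      · rw [h3]; noncomm_ring
    rw [← e, mul_sub, ← h]; noncomm_ring
  have h2 := ff_mul_ne_cc_mul _ _ h1
  have h4 : cc K ^ d * G ≠ 0 := mul_ne_zero (pow_ne_zero d cc_ne) hG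
  rcases neg_one_pow_eq_or (FA K) d with h3 | h3
  · rw [h3, one_mul] at h2
    exact h4 h2
  · rw [h3, neg_one_mul, neg_eq_zero] at h2
    exact h4 h2

private lemma alg_adc_ne {K : Type u} [Field K] (d : ℕ) : (LW.adc d).ev (ff K) (cc K) ≠ 0 := by
  intro h
  exact alg_adc_mul (K := K) d 1 0 one_ne_zero (by rw [h]; simp)

private lemma alg_fd (d : ℕ) : (LW.adc d).fd = 1 := by
  induction d with
  | zero => rfl
  | succ n ih => rw [LW.adc, LW.fd, ih]; rfl

theorem exists_alg (K : Type u) [Field K] (p : ℕ) (hp : 2 ≤ p) :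
    ∃ (R : Type u) (_ : Ring R) (_ : Algebra K R) (F C : R), AlgOK K p R F C := by
  refine ⟨UU K p, inferInstance, inferInstance, io p (E p 1 (ff K)), io p (E p 0 (cc K)), ?_⟩
  have hone : (1 : UU K p) ≠ 0 := by
    intro h
    apply io_ne p (E_ne_zero p 0 (by omega) (1 : FA K) one_ne_zero)
    rw [← mul_one (io p (E p 0 (1 : FA K))), h, mul_zero]
  refine ⟨?_, hone, ?_, ?_, ?_, ?_⟩
  · intro x y hxy
    exact mul_eq_zero.1 hxy
  · exact io_ne p (E_ne_zero p 0 (by omega) _ cc_ne)
  · intro t ht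
    rw [alg_ev, E_eq_zero p _ ht]
    simp [io]
  · intro d
    rw [alg_ev, alg_fd]
    exact io_ne p (E_ne_zero p 1 (by omega) _ (alg_adc_ne d))
  · intro d ts hts hsum y heq
    have hx : ∀ t ∈ ts, t.ev (ff K) (cc K) ≠ 0 := by
      intro t ht h0
      apply hts t ht
      rw [alg_ev, h0, E_zero]
      simp [io]
    have h2 := congrArg (ev p) heq
    rw [map_mul, map_mul, alg_ev, ev_io, ev_io, map_list_prod, List.map_map, alg_fd] at h2
    have h3 : (ts.map (ev p ∘ LW.ev (io p (E p 1 (ff K))) (io p (E p 0 (cc K))))) =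
        (ts.map (fun t => ((t.fd, t.ev (ff K) (cc K)) : ℕ × FA K))).map (fun q => E p q.1 q.2) := by
      rw [List.map_map]
      apply List.map_congr_left
      intro t _
      simp only [Function.comp]
      rw [alg_ev, ev_io]
    rw [h3, E_prod, E_mul] at h2
    have hs : (List.map Prod.fst (ts.map (fun t => ((t.fd, t.ev (ff K) (cc K)) : ℕ × FA K)))).sum =
        (ts.map LW.fd).sum := by
      rw [List.map_map]
      rfl
    rw [hs] at h2
    have hF : (List.map Prod.snd (ts.map (fun t => ((t.fd, t.ev (ff K) (cc K)) : ℕ × FA K)))).prod ≠ 0 := by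
      apply List.prod_ne_zero
      intro h
      rw [List.map_map, List.mem_map] at h
      obtain ⟨t, ht, h0⟩ := h
      exact hx t ht h0
    have h4 := congrFun (congrFun h2 (⟨0, by omega⟩ : Fin p)) (⟨1 + (ts.map LW.fd).sum, by omega⟩ : Fin p)
    rw [Matrix.mul_apply, Finset.sum_eq_single (⟨0, by omega⟩ : Fin p)] at h4
    · simp only [E, Matrix.of_apply] at h4
      rw [if_pos (by simp), if_pos (by simp)] at h4
      exact alg_adc_mul d _ _ hF h4
    · intro b _ hb
      simp only [E, Matrix.of_apply]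
      rw [if_neg (fun hh => hb (Fin.ext (by simpa using hh))), zero_mul]
    · intro hh
      exact absurd (Finset.mem_univ _) hh

end Pool.Agent.Bht.BK.AQ
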