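import Pool.Agent.Bht.AQ.W
import Pool.Agent.Bht.CZ.C1

namespace Pool.Agent.Bht.BK.AQ

open Pool.Agent.H25 Pool.Agent.Bht.BK.CZ

universe u

/-! ## B blocks and maximal pure clades -/

private lemma B_mk_zero {L : LT L1} : mk1 L = 0 ↔ ∀ x ∈ L.leaves, x.isLeft = false := by
  unfold mk1
  rw [List.countP_eq_zero]
  constructor
  · intro h x hx
    have := h x hx
    simpa using this
  · intro h x hx
    simp [h x hx]

private lemma B_leaves_ne : ∀ L : LT L1, L.leaves ≠ []
  | LT.leaf x => by simp [LT.leaves]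
  | LT.node a b => by
    have := B_leaves_ne a
    simp [LT.leaves, this]

private lemma B_mpc_spec : ∀ L : LT L1, ∀ C ∈ mpc L, LT.Cl C L ∧ mk1 C = 0
  | LT.leaf x, C, h => by
    rw [mpc] at h
    split_ifs at h with h1
    · rw [List.mem_singleton] at h
      subst h
      exact ⟨LT.Cl.refl _, h1⟩
    · simp at h
  | LT.node a b, C, h => by
    rw [mpc] at h
    split_ifs at h with h1
    · rw [List.mem_singleton] at h
      subst h
      exact ⟨LT.Cl.refl _, h1⟩
    · rw [List.mem_append] at h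
      rcases h with h | h
      · exact ⟨LT.Cl.left b (B_mpc_spec a C h).1, (B_mpc_spec a C h).2⟩
      · exact ⟨LT.Cl.right a (B_mpc_spec b C h).1, (B_mpc_spec b C h).2⟩

private lemma B_mem_mpc : ∀ (L : LT L1) (x : L1), x.isLeft = false → x ∈ L.leaves → ∃ C ∈ mpc L, x ∈ C.leaves
  | LT.leaf y, x, hx, h => by
    simp only [LT.leaves, List.mem_singleton] at h
    subst h
    have h1 : mk1 (LT.leaf x) = 0 := by
      rw [B_mk_zero]
      intro z hz
      simp only [LT.leaves, List.mem_singleton] at hz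
      rw [hz, hx]
    refine ⟨LT.leaf x, ?_, by simp [LT.leaves]⟩
    rw [mpc, if_pos h1]
    simp
  | LT.node a b, x, hx, h => by
    by_cases h1 : mk1 (LT.node a b) = 0
    · exact ⟨LT.node a b, by rw [mpc, if_pos h1]; simp, h⟩
    · rw [LT.leaves, List.mem_append] at h
      rcases h with h | h
      · obtain ⟨C, hC, hx'⟩ := B_mem_mpc a x hx h
        exact ⟨C, by rw [mpc, if_neg h1, List.mem_append]; exact Or.inl hC, hx'⟩
      · obtain ⟨C, hC, hx'⟩ := B_mem_mpc b x hx h
        exact ⟨C, by rw [mpc, if_neg h1, List.mem_append]; exact Or.inr hC, hx'⟩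

private def B_bn : L1 → ℕ
  | Sum.inl _ => 0
  | Sum.inr (a, _) => a

private def B_b (C : LT L1) : ℕ := B_bn (C.leaves.headD (Sum.inl 0))

private lemma B_b_eq {C : LT L1} {j : ℕ} (h : ∀ x ∈ C.leaves, inb j x) : B_b C = j := by
  unfold B_b
  cases hC : C.leaves with
  | nil => exact absurd hC (B_leaves_ne C)
  | cons x l =>
    have h1 := h x (by rw [hC]; simp)
    rcases x with k | ⟨a, k⟩
    · simp [inb] at h1
    · simp only [inb] at h1
      simp only [List.headD_cons, B_bn]
      exact h1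

private lemma B_cl_mem {C L : LT L1} (h : LT.Cl C L) : ∀ x ∈ C.leaves, x ∈ L.leaves := by
  induction h with
  | refl => exact fun x hx => hx
  | left b _ ih => exact fun x hx => by rw [LT.leaves]; exact List.mem_append_left _ (ih x hx)
  | right a _ ih => exact fun x hx => by rw [LT.leaves]; exact List.mem_append_right _ (ih x hx)

theorem blocks {K R : Type*} [Field K] [Ring R] [Algebra K R] (D : Dt K R) (r : ℕ) (al : BT → Prop)
    (hD : D.Ok r al) {Ls : List (LT L1)} (h : pl Ls D.Φ ≠ 0) :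
    D.J ≤ (Ls.flatMap mpc).length ∧ ((Ls.flatMap mpc).length ≤ D.J →
      (∀ C ∈ Ls.flatMap mpc, ∃ j < D.J, (∀ x ∈ C.leaves, inb j x) ∧ Sum.inr (j, 0) ∈ C.leaves) ∧
      (Ls.flatMap mpc).Pairwise (fun C C' => ∀ j, (∃ x ∈ C.leaves, inb j x) → ∀ x ∈ C'.leaves, ¬ inb j x)) := by
  classical
  have hp : (Ls.flatMap LT.leaves).Perm D.all := by
    by_contra hn
    rw [pl_F, if_neg hn] at h
    exact h rfl
  -- clades
  have hcl : ∀ C ∈ Ls.flatMap mpc, ∃ L ∈ Ls, LT.Cl C L ∧ mk1 C = 0 := by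
    intro C hC
    rw [List.mem_flatMap] at hC
    obtain ⟨L, hL, hC⟩ := hC
    exact ⟨L, hL, B_mpc_spec L C hC⟩
  have hsub : ∀ C ∈ Ls.flatMap mpc, ∀ x ∈ C.leaves, x ∈ D.all := by
    intro C hC x hx
    obtain ⟨L, hL, hCL, _⟩ := hcl C hC
    have h1 : x ∈ L.leaves := B_cl_mem hCL x hx
    exact hp.mem_iff.1 (List.mem_flatMap.2 ⟨L, hL, h1⟩)
  have hone : ∀ C ∈ Ls.flatMap mpc, ∀ x ∈ C.leaves, inb (B_b C) x := by
    intro C hC
    obtain ⟨L, hL, hCL, hm⟩ := hcl C hC
    have hm' := B_mk_zero.1 hm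
    obtain ⟨y, l, hy⟩ := List.exists_cons_of_ne_nil (B_leaves_ne C)
    have hy1 : y ∈ C.leaves := by rw [hy]; simp
    rcases y with k | ⟨a, k⟩
    · have := hm' _ hy1
      simp at this
    have hb : B_b C = a := by
      unfold B_b
      rw [hy]
      rfl
    rw [hb]
    by_contra hcon
    push Not at hcon
    obtain ⟨z, hz, hza⟩ := hcon
    apply h
    refine pl_clade_zero hL hCL ?_
    intro u v
    rw [vl_ctx]
    split_ifs
    · rw [zero_pure D _ C hm a ⟨_, hy1, by simp [inb]⟩ ⟨z, hz, hza⟩]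
      simp
    · rfl
  have hlt : ∀ C ∈ Ls.flatMap mpc, B_b C < D.J := by
    intro C hC
    obtain ⟨y, l, hy⟩ := List.exists_cons_of_ne_nil (B_leaves_ne C)
    have hy1 : y ∈ C.leaves := by rw [hy]; simp
    have h1 := hone C hC y hy1
    have h2 := hsub C hC y hy1
    rcases y with k | ⟨a, k⟩
    · simp [inb] at h1
    · simp only [inb] at h1
      rw [← h1]
      simp only [Dt.all, List.mem_append, List.mem_map, List.mem_flatMap, List.mem_range] at h2
      rcases h2 with ⟨_, _, h2⟩ | ⟨j, hj, k', _, h2⟩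
      · simp at h2
      · simp only [Sum.inr.injEq, Prod.mk.injEq] at h2
        rw [← h2.1]
        exact hj
  have hsp : ∀ j < D.J, ∃ C ∈ Ls.flatMap mpc, Sum.inr (j, 0) ∈ C.leaves := by
    intro j hj
    have h1 : (Sum.inr (j, 0) : L1) ∈ D.all := by
      simp only [Dt.all, List.mem_append, List.mem_map, List.mem_flatMap, List.mem_range]
      exact Or.inr ⟨j, hj, 0, (hD j hj).1, rfl⟩
    obtain ⟨L, hL, hx⟩ := List.mem_flatMap.1 (hp.mem_iff.2 h1)
    obtain ⟨C, hC, hx'⟩ := B_mem_mpc L _ (by rfl) hx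
    exact ⟨C, List.mem_flatMap.2 ⟨L, hL, hC⟩, hx'⟩
  have hss : List.range D.J ⊆ (Ls.flatMap mpc).map B_b := by
    intro j hj
    rw [List.mem_range] at hj
    obtain ⟨C, hC, hx⟩ := hsp j hj
    rw [List.mem_map]
    refine ⟨C, hC, ?_⟩
    have := hone C hC _ hx
    simp only [inb] at this
    exact this.symm
  have hsb : (List.range D.J).Subperm ((Ls.flatMap mpc).map B_b) := List.nodup_range.subperm hss
  refine ⟨by simpa using hsb.length_le, fun hlen => ?_⟩
  have hpm : (List.range D.J).Perm ((Ls.flatMap mpc).map B_b) :=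
    hsb.perm_of_length_le (by simpa using hlen)
  have hnd : ((Ls.flatMap mpc).map B_b).Nodup := hpm.nodup_iff.1 List.nodup_range
  refine ⟨?_, ?_⟩
  · intro C hC
    refine ⟨B_b C, hlt C hC, hone C hC, ?_⟩
    obtain ⟨C', hC', hx⟩ := hsp (B_b C) (hlt C hC)
    have h1 : B_b C = B_b C' := by
      have := hone C' hC' _ hx
      simpa [inb] using this
    have h2 : C = C' := List.inj_on_of_nodup_map hnd hC hC' h1
    rw [h2] at hx ⊢
    exact hx
  · have h1 : (Ls.flatMap mpc).Pairwise (fun C C' => B_b C ≠ B_b C') := by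
      rw [List.Nodup, List.pairwise_map] at hnd
      exact hnd
    refine h1.imp_of_mem ?_
    intro C C' hC hC' hne j hj x hx hjx
    obtain ⟨y, hy, hjy⟩ := hj
    apply hne
    have e1 := hone C hC y hy
    have e2 := hone C' hC' x hx
    rcases y with k | ⟨a, k⟩
    · simp [inb] at hjy
    · rcases x with k' | ⟨a', k'⟩
      · simp [inb] at hjx
      · simp only [inb] at e1 e2 hjy hjx
        rw [← e1, ← e2, hjy, hjx]

end Pool.Agent.Bht.BK.AQ
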