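import Pool.Agent.Bht.AQ.Inert
import Pool.Agent.Bht.CZ.A4
import Pool.Agent.Bht.CZ.A2
import Pool.Agent.Bht.CZ.C1

namespace Pool.Agent.Bht.BK.AQ

open Pool.Agent.H25 Pool.Agent.Bht.BK.CZ

universe u

/-! ## T0q products are alive -/

private lemma t0_leaf (L : LT (ℕ × ℕ)) : ∃ x, x ∈ L.leaves := by
  induction L with
  | leaf x => exact ⟨x, by simp [LT.leaves]⟩
  | node a b iha ihb =>
    obtain ⟨x, hx⟩ := iha
    exact ⟨x, by rw [LT.leaves, List.mem_append]; exact Or.inl hx⟩

private lemma t0_uniq {i j : ℕ} {L : LT (ℕ × ℕ)} (hi : InC i L) (hj : InC j L) : i = j := by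
  obtain ⟨x, hx⟩ := t0_leaf L
  exact (hi x hx).symm.trans (hj x hx)

open Classical in
private lemma t0_split (k : ℕ) (f : LT (ℕ × ℕ) → ℕ) (Ls : List (LT (ℕ × ℕ)))
    (h : ∀ L ∈ Ls, ∃ i < k, InC i L) :
    ∑ i ∈ Finset.range k, ((Ls.filter (fun L => InC i L)).map f).sum = (Ls.map f).sum := by
  induction Ls with
  | nil => simp
  | cons L Ms ih =>
    obtain ⟨i0, hi0, hL⟩ := h L (List.mem_cons_self ..)
    have ih' := ih (fun M hM => h M (List.mem_cons_of_mem _ hM))
    rw [List.map_cons, List.sum_cons, ← ih', ← Finset.add_sum_erase _ _ (Finset.mem_range.2 hi0),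
      ← Finset.add_sum_erase (Finset.range k) (fun i => ((Ms.filter (fun L => InC i L)).map f).sum)
        (Finset.mem_range.2 hi0)]
    have h1 : (L :: Ms).filter (fun L => InC i0 L) = L :: Ms.filter (fun L => InC i0 L) := by
      rw [List.filter_cons, if_pos (by simpa using hL)]
    rw [h1, List.map_cons, List.sum_cons, add_assoc]
    congr 2
    refine Finset.sum_congr rfl ?_
    intro i hi
    have hne : i ≠ i0 := (Finset.mem_erase.1 hi).1
    have h2 : (L :: Ms).filter (fun L => InC i L) = Ms.filter (fun L => InC i L) := by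
      rw [List.filter_cons, if_neg]
      intro h3
      have h4 : InC i L := by simpa using h3
      exact hne (t0_uniq h4 hL)
    rw [h2]

private lemma t0_range {β : Type*} (f : β → ℕ) (d : β) (l : List β) :
    ∑ i ∈ Finset.range l.length, f (l.getD i d) = (l.map f).sum := by
  induction l with
  | nil => simp
  | cons a l ih =>
    rw [List.length_cons, Finset.sum_range_succ', List.map_cons, List.sum_cons, add_comm]
    congr 1

private lemma t0_getD_map {β : Type*} (d : β) (l : List β) :
    (List.range l.length).map (fun i => l.getD i d) = l := by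
  refine List.ext_getElem (by simp) ?_
  intro i h1 h2
  simp [h2]

private lemma t0_getD_mem {β : Type*} (d : β) (l : List β) {i : ℕ} (hi : i < l.length) : l.getD i d ∈ l := by
  rw [List.getD_eq_getElem _ _ hi]
  exact List.getElem_mem hi

open Classical in
private lemma t0_filter (k : ℕ) (g : ℕ → LT (ℕ × ℕ)) (hg : ∀ i, InC i (g i)) {i : ℕ} (hi : i < k) :
    ((List.range k).map g).filter (fun L => InC i L) = [g i] := by
  induction k with
  | zero => omega
  | succ k ih =>
    rw [List.range_succ, List.map_append, List.filter_append]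
    by_cases hik : i = k
    · have h1 : ((List.range k).map g).filter (fun L => InC i L) = [] := by
        rw [List.filter_eq_nil_iff]
        intro L hL h
        rw [List.mem_map] at hL
        obtain ⟨j, hj, rfl⟩ := hL
        have h4 : InC i (g j) := by simpa using h
        have := t0_uniq h4 (hg j)
        have := List.mem_range.1 hj
        omega
      rw [h1, List.nil_append, List.map_singleton, List.filter_singleton, hik]
      have h2 : InC k (g k) := hg k
      simp [h2]
    · rw [ih (by omega), List.map_singleton, List.filter_singleton]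
      have h2 : ¬ InC i (g k) := fun h => hik (t0_uniq h (hg k))
      simp [h2]

theorem T0 {K : Type u} [Field K] (r : ℕ) (hr : 1 ≤ r) (P : Submodule K (TT K)) (p : ℕ) (hp : 1 ≤ p) (hs : List BT)
    (hhs : ∀ h ∈ hs, cb r (alN P) h < p) (X : BT) (hX : cb r (alN P) X = p) :
    ∃ Φ : List L2 → K, KI (JL r (alN P) p) Φ ∧
      (∀ l : List BT, p ≤ (l.map (cb r (alN P))).sum → Ann [hs ++ l] Φ) ∧
      ¬ Ann (PP hs (paths X)) Φ := by
  classical
  obtain ⟨Ds, hDs⟩ : ∃ Ds : List BT, Ds = hs ++ bp r (alN P) X := ⟨_, rfl⟩
  have hbs := bp_sum r (alN P) X (by omega)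
  have hD : ∀ D ∈ Ds, cb r (alN P) D < p := by
    intro D hD
    rw [hDs, List.mem_append] at hD
    rcases hD with hD | hD
    · exact hhs D hD
    · have h1 : cb r (alN P) D ≤ ((bp r (alN P) X).map (cb r (alN P))).sum :=
        List.single_le_sum (fun _ _ => Nat.zero_le _) _ (List.mem_map.2 ⟨D, hD, rfl⟩)
      omega
  obtain ⟨k, hk⟩ : ∃ k, k = Ds.length := ⟨_, rfl⟩
  choose φ h1 h2 h3 using fun i : ℕ => inert r hr P (Ds.getD i BT.leaf)
  choose L hLs hLv using h2
  obtain ⟨e, he⟩ : ∃ e : L2 → ℕ × ℕ, e = Sum.elim id id := ⟨_, rfl⟩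
  refine ⟨fun w => shuf k φ (w.map e), ?_, ?_, ?_⟩
  · refine KI_map e (KI_shuf k φ ?_)
    intro i hi U hU u v
    refine h1 i U ?_ u v
    have := hD _ (t0_getD_mem BT.leaf Ds (hk ▸ hi))
    exact lt_of_lt_of_le this hU
  · intro l hl l' hl' Ls hLs'
    rw [List.mem_singleton] at hl'
    by_contra hne
    have hne2 : pv (Ls.map (LT.map e)) (shuf k φ) ≠ 0 := by
      rw [pv_map]; exact hne
    have hpure := pv_shuf_pure k φ _ hne2
    rw [pv_shuf_eq k φ _ hpure, Finset.prod_ne_zero_iff] at hne2
    have h4 : ∀ i ∈ Finset.range k,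
        (((Ls.map (LT.map e)).filter (fun L => InC i L)).map (fun L => cb r (alN P) L.shape)).sum ≤
          cb r (alN P) (Ds.getD i BT.leaf) := by
      intro i hi
      have h5 := (h3 i _ (hne2 i hi)).1
      rw [List.map_map, List.map_map] at h5
      refine le_trans (le_of_eq ?_) h5
      congr 1
      refine List.map_congr_left ?_
      intro M _
      show _ = cb r (alN P) (LT.map Prod.snd M).shape
      rw [shape_map]
    have h6 := Finset.sum_le_sum h4
    rw [t0_split k _ _ hpure, hk, t0_range, hDs, List.map_append, List.sum_append] at h6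
    have h7 : ((Ls.map (LT.map e)).map (fun L => cb r (alN P) L.shape)) = l'.map (cb r (alN P)) := by
      rw [← hLs', List.map_map, List.map_map]
      refine List.map_congr_left ?_
      intro M _
      show cb r (alN P) (LT.map e M).shape = cb r (alN P) M.shape
      rw [shape_map]
    rw [h7, hl', List.map_append, List.sum_append] at h6
    omega
  · intro hann
    have h8 : Ds ∈ PP hs (paths X) := by
      rw [hDs]
      exact List.mem_map.2 ⟨bp r (alN P) X, bp_mem r (alN P) X, rfl⟩
    obtain ⟨g, hg⟩ : ∃ g : ℕ → LT L2, ∀ i, g i = LT.map (fun x => (Sum.inl (i, x) : L2)) (L i) := ⟨_, fun _ => rfl⟩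
    have h9 : ((List.range k).map g).map LT.shape = Ds := by
      rw [List.map_map, hk]
      refine Eq.trans (List.map_congr_left ?_) (t0_getD_map BT.leaf Ds)
      intro i _
      show (g i).shape = Ds.getD i BT.leaf
      rw [hg, shape_map, hLs]
    have h10 := hann Ds h8 _ h9
    have hgc : ∀ i, InC i (LT.map e (g i)) := by
      intro i x hx
      rw [hg, leaves_map, leaves_map, List.map_map, List.mem_map] at hx
      obtain ⟨y, _, rfl⟩ := hx
      rw [he]
      rfl
    have h11 : pv ((List.range k).map (fun i => LT.map e (g i))) (shuf k φ) = 0 := by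
      have h12 : (List.range k).map (fun i => LT.map e (g i)) = ((List.range k).map g).map (LT.map e) := by
        rw [List.map_map]
        rfl
      rw [h12, pv_map]
      exact h10
    rw [pv_shuf_eq k φ _ ?_, Finset.prod_eq_zero_iff] at h11
    · obtain ⟨i, hi, h13⟩ := h11
      rw [t0_filter k _ hgc (Finset.mem_range.1 hi)] at h13
      rw [List.map_singleton, pv] at h13
      apply hLv i
      rw [← h13, val_map, hg, val_map, val_map]
      refine val_congr _ ?_
      intro w _
      rw [pv, List.append_nil, List.map_map, List.map_map]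
      have h14 : (Prod.snd ∘ e ∘ fun x => (Sum.inl (i, x) : L2)) = id := by
        funext x
        rw [he]
        rfl
      rw [Function.comp_assoc, h14, List.map_id]
    · intro M hM
      rw [List.mem_map] at hM
      obtain ⟨i, hi, rfl⟩ := hM
      exact ⟨i, List.mem_range.1 hi, hgc i⟩

end Pool.Agent.Bht.BK.AQ
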