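import Pool.Agent.Bht.CZ.A3
import Pool.Agent.Bht.CZ.A6
import Pool.Agent.Bht.AQ.T0q

namespace Pool.Agent.Bht.BK.AQ

open Pool.Agent.H25 Pool.Agent.Bht.BK.CZ

universe u

variable {K : Type u} [Field K]

/-! ## D1: order -/
theorem ord [Infinite K] {J : BT → Prop} (r : ℕ) (hr : 1 ≤ r) (P : Submodule K (TT K)) (X : BT)
    (hX : 0 < cb r (alN P) X) (hJ : ∀ U, J U → cb r (alN P) X ≤ cb r (alN P) U) (hs : List BT)
    (hhs : ∀ h ∈ hs, NI K J h) (S : List (List BT))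
    (hS : ∀ l ∈ S, cb r (alN P) X ≤ (l.map (cb r (alN P))).sum) :
    ¬ (UA K J (PP hs S) ⊆ UA K J (PP hs (paths X))) := by
  intro hU
  have h1 : UA K (JL r (alN P) (cb r (alN P) X)) (PP (fil K (JL r (alN P) (cb r (alN P) X)) hs) S) ⊆
      UA K (JL r (alN P) (cb r (alN P) X))
        (PP (fil K (JL r (alN P) (cb r (alN P) X)) hs) (paths X)) :=
    pen2 (J := J) (J1 := JL r (alN P) (cb r (alN P) X)) hJ hs hhs (paths X) S hU
  obtain ⟨Φ, hK, hA, hN⟩ := T0 (K := K) r hr P (cb r (alN P) X) hX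
    (fil K (JL r (alN P) (cb r (alN P) X)) hs) (by
      intro h hh
      by_contra hcon
      have hJh : JL r (alN P) (cb r (alN P) X) h := not_lt.mp hcon
      have hNI : NI K (JL r (alN P) (cb r (alN P) X)) h := by
        unfold fil at hh
        simpa using (List.mem_filter.1 hh).2
      exact not_NI_of hJh hNI) X rfl
  apply hN
  refine UA_transfer h1 hK ?_
  intro l hl Ls hLs
  unfold Pool.Agent.Bht.BK.CZ.PP at hl
  obtain ⟨l', hl', rfl⟩ := List.mem_map.1 hl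
  exact hA l' (hS l' hl') _ (List.mem_singleton.2 rfl) Ls hLs

private lemma d1_aux [Infinite K] {s t : BT} (h : X0 K s ≤ X0 K t) (r : ℕ) (P : Submodule K (TT K))
    (hr : 1 ≤ r) (hr' : r < s.lv) : cb r (alN P) t ≤ cb r (alN P) s := by
  by_contra hcon
  have hcon' : cb r (alN P) s < cb r (alN P) t := not_le.mp hcon
  have hpos : 0 < cb r (alN P) s := (cb_pos_iff r (alN P) s).2 (Or.inl hr')
  obtain ⟨Φ, -, hA, hN⟩ := T0 (K := K) r hr P (cb r (alN P) s) hpos [] (by simp) s rfl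
  obtain ⟨e, he⟩ := exists_surjective_nat L2
  apply hN
  rw [← Ann_map he]
  refine root_le h [] _ ?_
  rw [Ann_map he]
  intro l hl Ls hLs
  unfold Pool.Agent.Bht.BK.CZ.PP at hl
  obtain ⟨l', hl', rfl⟩ := List.mem_map.1 hl
  have h1 := paths_sum r (alN P) hl'
  exact hA l' (by omega) _ (List.mem_singleton.2 rfl) Ls hLs

theorem cb_eq_of_X0 [Infinite K] {s t : BT} (h : X0 K s = X0 K t) (r : ℕ) (P : Submodule K (TT K)) (hr : 1 ≤ r)
    (hr' : r < s.lv) : cb r (alN P) s = cb r (alN P) t := by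
  have hlv : s.lv = t.lv := lv_eq_of_X0 h
  exact le_antisymm (d1_aux h.ge r P hr (hlv ▸ hr')) (d1_aux h.le r P hr hr')

end Pool.Agent.Bht.BK.AQ
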