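import Pool.Agent.Bht.AQ.T1q
import Pool.Agent.Bht.CZ.A6

namespace Pool.Agent.Bht.BK.AQ

open Pool.Agent.H25 Pool.Agent.Bht.BK.CZ

universe u

/-! ## D2q the root -/

private lemma D2q_core {K : Type u} [Field K] {J : BT → Prop} {r p : ℕ} (hr : 1 ≤ r) {P : Submodule K (TT K)}
    {A B A' B' : BT} (hJ : ∀ U, J U → p ≤ cb r (alN P) U) (hs : List BT) (hhs : ∀ h ∈ hs, NI K J h)
    (hU : UA K J (PP hs (paths (BT.node A B))) = UA K J (PP hs (paths (BT.node A' B'))))
    (hA : Big r (alN P) A) (hB : Big r (alN P) B)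
    (hBm : ∀ a b, B = BT.node a b → cb r (alN P) a = 0 ∧ cb r (alN P) b = 0)
    (hp : cb r (alN P) (BT.node A B) = p)
    (hA' : Big r (alN P) A') (hp' : cb r (alN P) (BT.node A' B') = p) (hB' : cb r (alN P) B' = 0) : False := by
  have cA := (cb_pos_iff r (alN P) A).2 hA
  have cB := (cb_pos_iff r (alN P) B).2 hB
  have cA' := (cb_pos_iff r (alN P) A').2 hA'
  rw [cb_node r (alN P) (Or.inl cA)] at hp
  rw [cb_node r (alN P) (Or.inl cA'), hB', add_zero] at hp'
  have hJ1 : ∀ U, J U → JL r (alN P) p U := hJ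
  have h2 := pen2 (K := K) hJ1 hs hhs (paths (BT.node A B)) (paths (BT.node A' B')) hU.ge
  have h3 := pen2 (K := K) hJ1 hs hhs (paths (BT.node A' B')) (paths (BT.node A B)) hU.le
  exact T1q (K := K) r hr P p (fil K (JL r (alN P) p) hs)
    (by
      intro h hh
      rw [fil, List.mem_filter] at hh
      have hn : NI K (JL r (alN P) p) h := by simpa using hh.2
      by_contra hc
      exact not_NI_of (K := K) (J := JL r (alN P) p) (h := h) (not_lt.1 hc) hn)
    A B A' B' cA cB hBm hp hp' hB' h2 h3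

private lemma D2q_cb0 {r : ℕ} {al : BT → Prop} {s : BT} (h : s.lv < r ∨ (s.lv = r ∧ al s)) : cb r al s = 0 := by
  by_contra hc
  rcases (cb_pos_iff r al s).1 (by omega) with h2 | h2
  · omega
  · rcases h with h3 | h3
    · omega
    · exact h2.2 h3.2

theorem step1 {K : Type u} [Field K] {A B A' B' : BT} (hBA : B.lv ≤ A.lv) (hBA' : B'.lv ≤ A'.lv)
    (hl : A.lv + B.lv = A'.lv + B'.lv)
    (hc : ∀ r (P : Submodule K (TT K)), 1 ≤ r → r < A.lv + B.lv →
      cb r (alN P) (BT.node A B) = cb r (alN P) (BT.node A' B'))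
    (hs : List BT) (hhs : ∀ h ∈ hs, NI K (JA K (BT.node A B)) h)
    (hU : UA K (JA K (BT.node A B)) (PP hs (paths (BT.node A B))) =
      UA K (JA K (BT.node A B)) (PP hs (paths (BT.node A' B')))) :
    B.lv = B'.lv ∧ (B.lv < A.lv → X0 K B = X0 K B') := by
  have hA1 := A.lv_pos
  have hB1 := B.lv_pos
  have hA1' := A'.lv_pos
  have hB1' := B'.lv_pos
  have hJ : ∀ r (P : Submodule K (TT K)), 1 ≤ r → r < A.lv + B.lv → ∀ U, JA K (BT.node A B) U →
      cb r (alN P) (BT.node A B) ≤ cb r (alN P) U := by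
    intro r P h1 h2 U hJU
    exact hJU.2 r P h1 (by rw [BT.lv]; exact h2)
  have hbot : ∀ s : BT, alN (⊥ : Submodule K (TT K)) s := fun s hs => X0_ne_bot s (le_bot_iff.1 hs)
  have hmin : ∀ (n : ℕ) (P : Submodule K (TT K)) (Y : BT), Y.lv ≤ n + 1 → (∀ s : BT, s.lv = n → alN P s) →
      ∀ a b, Y = BT.node a b → cb n (alN P) a = 0 ∧ cb n (alN P) b = 0 := by
    intro n P Y hY hall a b e
    have ha := a.lv_pos
    have hb := b.lv_pos
    rw [e, BT.lv] at hY
    constructor
    · apply D2q_cb0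
      rcases Nat.lt_or_ge a.lv n with h | h
      · exact Or.inl h
      · exact Or.inr ⟨by omega, hall a (by omega)⟩
    · apply D2q_cb0
      rcases Nat.lt_or_ge b.lv n with h | h
      · exact Or.inl h
      · exact Or.inr ⟨by omega, hall b (by omega)⟩
  have hmin2 : ∀ (P : Submodule K (TT K)) (Y : BT),
      ∀ a b, Y = BT.node a b → cb Y.lv (alN P) a = 0 ∧ cb Y.lv (alN P) b = 0 := by
    intro P Y a b e
    have ha := a.lv_pos
    have hb := b.lv_pos
    have hY : Y.lv = a.lv + b.lv := by rw [e, BT.lv]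
    exact ⟨D2q_cb0 (Or.inl (by omega)), D2q_cb0 (Or.inl (by omega))⟩
  have hsmall : ∀ (n : ℕ) (Y : BT), Y.lv ≤ n → cb n (alN (⊥ : Submodule K (TT K))) Y = 0 := by
    intro n Y hY
    apply D2q_cb0
    rcases Nat.lt_or_ge Y.lv n with h | h
    · exact Or.inl h
    · exact Or.inr ⟨by omega, hbot Y⟩
  have hlv : B.lv = B'.lv := by
    by_contra hne
    rcases lt_or_gt_of_ne hne with h | h
    · -- `B'` is a minimal big clade
      refine D2q_core (K := K) (r := B'.lv - 1) (p := cb (B'.lv - 1) (alN (⊥ : Submodule K (TT K))) (BT.node A B))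
        (by omega) (P := ⊥) (A := A') (B := B') (A' := A) (B' := B) (hJ _ ⊥ (by omega) (by omega)) hs hhs
        hU.symm ?_ ?_ ?_ (hc _ ⊥ (by omega) (by omega)).symm ?_ rfl ?_
      · exact Or.inl (by omega)
      · exact Or.inl (by omega)
      · exact hmin _ ⊥ B' (by omega) (fun s _ => hbot s)
      · exact Or.inl (by omega)
      · exact hsmall _ _ (by omega)
    · refine D2q_core (K := K) (r := B.lv - 1) (p := cb (B.lv - 1) (alN (⊥ : Submodule K (TT K))) (BT.node A B))
        (by omega) (P := ⊥) (A := A) (B := B) (A' := A') (B' := B') (hJ _ ⊥ (by omega) (by omega)) hs hhs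
        hU ?_ ?_ ?_ rfl ?_ (hc _ ⊥ (by omega) (by omega)).symm ?_
      · exact Or.inl (by omega)
      · exact Or.inl (by omega)
      · exact hmin _ ⊥ B (by omega) (fun s _ => hbot s)
      · exact Or.inl (by omega)
      · exact hsmall _ _ (by omega)
  refine ⟨hlv, fun hlt => ?_⟩
  apply le_antisymm
  · by_contra hX
    -- `B'` is a minimal big clade, `B` is alive
    refine D2q_core (K := K) (r := B'.lv) (p := cb B'.lv (alN (X0 K B')) (BT.node A B)) hB1'
      (P := X0 K B') (A := A') (B := B') (A' := A) (B' := B) (hJ _ _ hB1' (by omega)) hs hhs hU.symm ?_ ?_ ?_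
      (hc _ _ hB1' (by omega)).symm ?_ rfl ?_
    · exact Or.inl (by omega)
    · exact Or.inr ⟨rfl, fun h => h le_rfl⟩
    · exact hmin2 _ B'
    · exact Or.inl (by omega)
    · exact D2q_cb0 (Or.inr ⟨hlv, hX⟩)
  · by_contra hX
    refine D2q_core (K := K) (r := B.lv) (p := cb B.lv (alN (X0 K B)) (BT.node A B)) hB1
      (P := X0 K B) (A := A) (B := B) (A' := A') (B' := B') (hJ _ _ hB1 (by omega)) hs hhs hU ?_ ?_ ?_
      rfl ?_ (hc _ _ hB1 (by omega)).symm ?_
    · exact Or.inl (by omega)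
    · exact Or.inr ⟨rfl, fun h => h le_rfl⟩
    · exact hmin2 _ B
    · exact Or.inl (by omega)
    · exact D2q_cb0 (Or.inr ⟨hlv.symm, hX⟩)

end Pool.Agent.Bht.BK.AQ
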