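import Pool.Agent.Bht.CZ.A6
import Pool.Agent.Bht.CZ.C1

namespace Pool.Agent.Bht.BK.AQ

open Pool.Agent.H25 Pool.Agent.Bht.BK.CZ

universe u

variable {K : Type u} [Field K]

/-! ## D3: Step 2 -/

private lemma d3_f2 : ∀ l : List BT, List.Forall₂ BT.Iso l l
  | [] => List.Forall₂.nil
  | t :: l => List.Forall₂.cons (BT.Iso.refl t) (d3_f2 l)

private lemma d3_f2' {B B' : BT} (h : BT.Iso B B') (p : List BT) : ∀ l : List BT,
    List.Forall₂ BT.Iso (l ++ B :: p) (l ++ B' :: p)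
  | [] => List.Forall₂.cons h (d3_f2 p)
  | t :: l => List.Forall₂.cons (BT.Iso.refl t) (d3_f2' h p l)

private lemma d3_ann {J1 : BT → Prop} {φ : List ℕ → K} (hK : KI J1 φ) {A B : BT} (hn : ¬ NI K J1 A)
    (hs1 : List BT) : Ann (PP hs1 (paths (BT.node A B))) φ ↔ Ann (PP (hs1 ++ [B]) (paths A)) φ := by
  constructor
  · intro h l hl Ls hLs
    obtain ⟨p, hp, rfl⟩ := List.mem_map.1 hl
    refine h (hs1 ++ (B :: p)) ?_ Ls (by rw [hLs]; simp)
    refine List.mem_map.2 ⟨B :: p, ?_, rfl⟩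
    rw [paths]
    exact List.mem_append_left _ (List.mem_map.2 ⟨p, hp, rfl⟩)
  · intro h l hl Ls hLs
    obtain ⟨q, hq, rfl⟩ := List.mem_map.1 hl
    rw [paths, List.mem_append] at hq
    rcases hq with hq | hq
    · obtain ⟨p, hp, rfl⟩ := List.mem_map.1 hq
      refine h ((hs1 ++ [B]) ++ p) (List.mem_map.2 ⟨p, hp, rfl⟩) Ls (by rw [hLs]; simp)
    · obtain ⟨p, hp, rfl⟩ := List.mem_map.1 hq
      have h1 : Ann [hs1 ++ A :: p] φ := Ann_of_not_NI hK (h := A) (by simp) hn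
      exact h1 _ (by simp) Ls hLs

private lemma d3_iso {φ : List ℕ → K} {A B B' : BT} (h : BT.Iso B B') (hs1 : List BT)
    (hA : Ann (PP (hs1 ++ [B]) (paths A)) φ) : Ann (PP (hs1 ++ [B']) (paths A)) φ := by
  intro l hl Ls hLs
  obtain ⟨p, hp, rfl⟩ := List.mem_map.1 hl
  have h1 : Ann [hs1 ++ B :: p] φ := by
    intro l' hl' Ms hMs
    rw [List.mem_singleton] at hl'
    subst hl'
    exact hA ((hs1 ++ [B]) ++ p) (List.mem_map.2 ⟨p, hp, rfl⟩) Ms (by rw [hMs]; simp)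
  have h2 : Ann [hs1 ++ B' :: p] φ := Ann_iso (d3_f2' h p hs1) h1
  exact h2 _ (List.mem_singleton.2 rfl) Ls (by rw [hLs]; simp)

theorem step2 [Infinite K] {A B A' B' : BT} (hBA : B.lv < A.lv) (hB : B.lv = B'.lv) (hA : A.lv = A'.lv)
    (hX : X0 K B = X0 K B') (hI : BT.Iso B B')
    (hc : ∀ r (P : Submodule K (TT K)), 1 ≤ r → r < A.lv + B.lv →
      cb r (alN P) (BT.node A B) = cb r (alN P) (BT.node A' B'))
    (hs : List BT) (hhs : ∀ h ∈ hs, NI K (JA K (BT.node A B)) h)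
    (hU : UA K (JA K (BT.node A B)) (PP hs (paths (BT.node A B))) =
      UA K (JA K (BT.node A B)) (PP hs (paths (BT.node A' B'))))
    (ih : EE K A.lv) : BT.Iso (BT.node A B) (BT.node A' B') := by
  have hJ : ∀ U, JA K (BT.node A B) U → JA K A U := by
    rintro U ⟨h1, h2⟩
    have e : (BT.node A B).lv = A.lv + B.lv := rfl
    rw [e] at h1 h2
    refine ⟨by omega, fun r P hr hrA => ?_⟩
    exact le_trans (cb_le_left r (alN P) A B) (h2 r P hr (by omega))
  have hcA : ∀ r (P : Submodule K (TT K)), 1 ≤ r → r < A.lv → cb r (alN P) A = cb r (alN P) A' := by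
    intro r P hr hrA
    have h1 : 0 < cb r (alN P) A := (cb_pos_iff r (alN P) A).2 (Or.inl hrA)
    have h2 : 0 < cb r (alN P) A' := (cb_pos_iff r (alN P) A').2 (Or.inl (by omega))
    have h3 := hc r P hr (by omega)
    rw [cb_node r (alN P) (Or.inl h1), cb_node r (alN P) (Or.inl h2), cb_iso r P hI] at h3
    omega
  have hJA : JA K A A := ⟨le_rfl, fun r P _ _ => le_rfl⟩
  have hJA' : JA K A A' := ⟨le_of_eq hA, fun r P hr hrA => le_of_eq (hcA r P hr hrA)⟩
  have hnA := not_NI_of (K := K) hJA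
  have hnA' := not_NI_of (K := K) hJA'
  have hB1 : NI K (JA K A) B := NI_small (fun U hU => lt_of_lt_of_le hBA hU.1)
  have p1 := pen2 hJ hs hhs (paths (BT.node A' B')) (paths (BT.node A B)) hU.le
  have p2 := pen2 hJ hs hhs (paths (BT.node A B)) (paths (BT.node A' B')) hU.ge
  have hEE := ih A A' rfl hA.symm hcA (fil K (JA K A) hs ++ [B]) (by
    intro h hh
    rw [List.mem_append] at hh
    rcases hh with hh | hh
    · unfold fil at hh
      rw [List.mem_filter] at hh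
      simpa using hh.2
    · rw [List.mem_singleton] at hh
      subst hh
      exact hB1) (by
    apply Set.Subset.antisymm
    · rintro φ ⟨hK, hφ⟩
      refine ⟨hK, ?_⟩
      have h1 := (d3_ann hK hnA (fil K (JA K A) hs)).2 hφ
      have h2 := p1 ⟨hK, h1⟩
      have h3 := (d3_ann hK hnA' (fil K (JA K A) hs)).1 h2.2
      exact d3_iso (BT.Iso.symm hI) _ h3
    · rintro φ ⟨hK, hφ⟩
      refine ⟨hK, ?_⟩
      have h0 := d3_iso hI _ hφ
      have h1 := (d3_ann hK hnA' (fil K (JA K A) hs)).2 h0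
      have h2 := p2 ⟨hK, h1⟩
      exact (d3_ann hK hnA (fil K (JA K A) hs)).1 h2.2)
  exact BT.Iso.node hEE hI

end Pool.Agent.Bht.BK.AQ
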