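import Pool.Agent.Bht.CZ.A7
import Pool.Agent.Bht.CZ.A8
import Pool.Agent.Bht.AQ.D1q
import Pool.Agent.Bht.CZ.D4a
import Pool.Agent.Bht.CZ.D4b

namespace Pool.Agent.Bht.BK.AQ

open Pool.Agent.H25 Pool.Agent.Bht.BK.CZ

universe u

variable {K : Type u} [Field K]

/-- the situation of Step 3 -/
private structure D4C (K : Type*) [Field K] (q : ℕ) (m : ℕ → Submodule K (TT K) → ℕ) (hs : List BT)
    (A B A' B' : BT) : Prop where
  lA : A.lv = q
  lB : B.lv = q
  lA' : A'.lv = q
  lB' : B'.lv = q
  sum : ∀ r (P : Submodule K (TT K)), 1 ≤ r → r < q →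
    cb r (alN P) A + cb r (alN P) B = cb r (alN P) A' + cb r (alN P) B'
  mm : ∀ r (P : Submodule K (TT K)), 1 ≤ r → r < q →
    m r P = min (min (cb r (alN P) A) (cb r (alN P) B)) (min (cb r (alN P) A') (cb r (alN P) B'))
  ni : ∀ h ∈ hs, NI K (JJ K q m) h
  es : ∀ f : List ℕ → K, Sp q f → UA K (JJ K q m) (SF f hs A B) = UA K (JJ K q m) (SF f hs A' B')

private lemma D4_mem_SF {J : BT → Prop} (f : List ℕ → K) (hs : List BT) (A B : BT) (φ : List ℕ → K) :
    φ ∈ UA K J (SF f hs A B) ↔ KI J φ ∧ (¬ kl f B → Ann (PP hs (paths A)) φ) ∧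
      (¬ kl f A → Ann (PP hs (paths B)) φ) := by
  rw [SF, UA_append]
  have h0 : Ann ([] : List (List BT)) φ := fun l hl => absurd hl (by simp)
  constructor
  · rintro ⟨⟨h1, h2⟩, ⟨-, h3⟩⟩
    refine ⟨h1, fun h => ?_, fun h => ?_⟩
    · rwa [if_neg h] at h2
    · rwa [if_neg h] at h3
  · rintro ⟨h1, h2, h3⟩
    refine ⟨⟨h1, ?_⟩, ⟨h1, ?_⟩⟩
    · by_cases h : kl f B
      · rw [if_pos h]; exact h0
      · rw [if_neg h]; exact h2 h
    · by_cases h : kl f A
      · rw [if_pos h]; exact h0
      · rw [if_neg h]; exact h3 h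

private lemma D4_SF_swap {J : BT → Prop} (f : List ℕ → K) (hs : List BT) (A B : BT) :
    UA K J (SF f hs A B) = UA K J (SF f hs B A) := by
  ext φ
  rw [D4_mem_SF, D4_mem_SF]
  tauto

private lemma D4C.symm {q : ℕ} {m : ℕ → Submodule K (TT K) → ℕ} {hs : List BT} {A B A' B' : BT}
    (h : D4C K q m hs A B A' B') : D4C K q m hs A' B' A B where
  lA := h.lA'
  lB := h.lB'
  lA' := h.lA
  lB' := h.lB
  sum r P h1 h2 := (h.sum r P h1 h2).symm
  mm r P h1 h2 := by rw [h.mm r P h1 h2, min_comm]
  ni := h.ni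
  es f hf := (h.es f hf).symm

private lemma D4C.swapL {q : ℕ} {m : ℕ → Submodule K (TT K) → ℕ} {hs : List BT} {A B A' B' : BT}
    (h : D4C K q m hs A B A' B') : D4C K q m hs B A A' B' where
  lA := h.lB
  lB := h.lA
  lA' := h.lA'
  lB' := h.lB'
  sum r P h1 h2 := by rw [add_comm, h.sum r P h1 h2]
  mm r P h1 h2 := by rw [h.mm r P h1 h2, min_comm (cb r (alN P) A)]
  ni := h.ni
  es f hf := by rw [D4_SF_swap, h.es f hf]

private lemma D4C.swapR {q : ℕ} {m : ℕ → Submodule K (TT K) → ℕ} {hs : List BT} {A B A' B' : BT}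
    (h : D4C K q m hs A B A' B') : D4C K q m hs A B B' A' := h.symm.swapL.symm

private lemma D4_pos {q r : ℕ} (hr : r < q) (P : Submodule K (TT K)) {X : BT} (hX : X.lv = q) :
    0 < cb r (alN P) X := (cb_pos_iff r (alN P) X).2 (Or.inl (by omega))

/-- the generic functional -/
private lemma D4_gen (q : ℕ) : ∃ f : List ℕ → K, Sp q f ∧ ∀ X : BT, X.lv = q → ¬ kl f X := by
  classical
  refine ⟨fun w => if w = List.range q then 1 else 0, ?_, ?_⟩
  · intro w hw
    by_cases h : w = List.range q
    · rw [h]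
    · exact absurd (if_neg h) hw
  · intro X hX hk
    obtain ⟨f, hf1, hf2, L, hL1, hL2, hL3⟩ := NI_normal (K := K) (J := fun _ => False) (h := X)
      (NI_small (fun U hU => hU.elim))
    have key : ∀ (L : LT ℕ) (n : ℕ), L.leaves = List.range' n L.leaves.length →
        L.val (fun w => if w = List.range' n L.leaves.length then (1 : K) else 0) = 1 := by
      intro L
      induction L with
      | leaf x =>
        intro n h
        rw [LT.leaves] at h
        rw [LT.val, LT.leaves, if_pos h]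
      | node a b iha ihb =>
        intro n h
        rw [LT.leaves, List.length_append, List.range'_append_1.symm] at h
        obtain ⟨h1, h2⟩ := List.append_inj h (by simp)
        have hla : 1 ≤ a.leaves.length := by rw [length_leaves]; exact BT.lv_pos _
        have hlb : 1 ≤ b.leaves.length := by rw [length_leaves]; exact BT.lv_pos _
        rw [LT.val, LT.leaves, List.length_append, ← List.range'_append_1]
        have e1 : a.val (fun p => b.val (fun q => if p ++ q = List.range' n a.leaves.length ++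
            List.range' (n + a.leaves.length) b.leaves.length then (1 : K) else 0)) = 1 := by
          have e2 : ∀ p : List ℕ, p.Perm a.leaves →
              b.val (fun q => if p ++ q = List.range' n a.leaves.length ++
                List.range' (n + a.leaves.length) b.leaves.length then (1 : K) else 0) =
              (if p = List.range' n a.leaves.length then (1 : K) else 0) *
                b.val (fun q => if q = List.range' (n + a.leaves.length) b.leaves.length then (1 : K) else 0) := by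
            intro p hp
            rw [← val_mul_left]
            refine val_congr b (fun q hq => ?_)
            have hpl : p.length = (List.range' n a.leaves.length).length := by
              rw [List.length_range', hp.length_eq]
            by_cases h3 : p = List.range' n a.leaves.length
            · rw [if_pos h3, h3, one_mul]
              simp only [List.append_cancel_left_eq]
            · rw [if_neg h3, if_neg, zero_mul]
              intro h4
              exact h3 (List.append_inj h4 hpl).1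
          rw [val_congr a e2, ihb (n + a.leaves.length) h2]
          simp only [mul_one]
          exact iha n h1
        have e3 : b.val (fun q => a.val (fun p => if q ++ p = List.range' n a.leaves.length ++
            List.range' (n + a.leaves.length) b.leaves.length then (1 : K) else 0)) = 0 := by
          have : ∀ q : List ℕ, q.Perm b.leaves →
              a.val (fun p => if q ++ p = List.range' n a.leaves.length ++
                List.range' (n + a.leaves.length) b.leaves.length then (1 : K) else 0) = 0 := by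
            intro q hq
            have : ∀ p : List ℕ, p.Perm a.leaves → (if q ++ p = List.range' n a.leaves.length ++
                List.range' (n + a.leaves.length) b.leaves.length then (1 : K) else 0) = 0 := by
              intro p hp
              rw [if_neg]
              intro h4
              -- the first letter
              have hq0 : q ≠ [] := by
                intro h5
                rw [h5] at hq
                have := hq.length_eq
                simp at this
                omega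
              obtain ⟨x, q', rfl⟩ := List.exists_cons_of_ne_nil hq0
              obtain ⟨k, hk⟩ : ∃ k, a.leaves.length = k + 1 := ⟨a.leaves.length - 1, by omega⟩
              rw [hk, List.range'_succ, List.cons_append, List.cons_append, List.cons.injEq] at h4
              have hx : x ∈ b.leaves := hq.mem_iff.1 List.mem_cons_self
              rw [h2, List.mem_range'_1] at hx
              omega
            rw [val_congr a this, val_zero]
          rw [val_congr b this, val_zero]
        rw [e1, e3, sub_zero]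
    have h5 := key L 0 (by rw [hL2, List.length_range, List.range_eq_range'])
    have h6 := hk L hL1
    have h7 : L.leaves.length = q := by rw [hL2, List.length_range, hX]
    rw [h7, ← List.range_eq_range'] at h5
    rw [h5] at h6
    exact one_ne_zero h6

private lemma D4_sumS {r : ℕ} {P : Submodule K (TT K)} {X Y : BT} (h : cb r (alN P) X < cb r (alN P) Y) :
    ∀ l ∈ paths Y, cb r (alN P) X ≤ (l.map (cb r (alN P))).sum := by
  intro l hl
  have := paths_sum r (alN P) hl
  omega

private lemma D4_JJ {q : ℕ} {m : ℕ → Submodule K (TT K) → ℕ} {r : ℕ} {P : Submodule K (TT K)}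
    (h1 : 1 ≤ r) (h2 : r < q) {c : ℕ} (h : c ≤ m r P) : ∀ U, JJ K q m U → c ≤ cb r (alN P) U :=
  fun U hU => h.trans (hU.2 r P h1 h2)

private lemma D4_min_le [Infinite K] {q : ℕ} {m : ℕ → Submodule K (TT K) → ℕ} {hs : List BT} {A B A' B' : BT}
    (h : D4C K q m hs A B A' B') {r : ℕ} (P : Submodule K (TT K)) (h1 : 1 ≤ r) (h2 : r < q) :
    min (cb r (alN P) A') (cb r (alN P) B') ≤ min (cb r (alN P) A) (cb r (alN P) B) := by
  by_contra hc
  rw [not_le] at hc
  obtain ⟨f, hf, hg⟩ := D4_gen (K := K) q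
  -- the smaller of `A`, `B`
  have main : ∀ X Y : BT, D4C K q m hs X Y A' B' → cb r (alN P) X ≤ cb r (alN P) Y →
      cb r (alN P) X < min (cb r (alN P) A') (cb r (alN P) B') → False := by
    intro X Y hD hXY hlt
    rw [lt_min_iff] at hlt
    refine ord (K := K) r h1 P X (D4_pos h2 P hD.lA) (D4_JJ h1 h2 ?_) hs hD.ni (paths A' ++ paths B') ?_ ?_
    · rw [hD.mm r P h1 h2]
      simp only [le_min_iff]
      exact ⟨⟨le_rfl, hXY⟩, hlt.1.le, hlt.2.le⟩
    · intro l hl
      rcases List.mem_append.1 hl with hl | hl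
      · exact D4_sumS hlt.1 l hl
      · exact D4_sumS hlt.2 l hl
    · intro φ hφ
      have e : φ ∈ UA K (JJ K q m) (SF f hs A' B') := by
        rw [D4_mem_SF]
        refine ⟨hφ.1, fun _ l hl => ?_, fun _ l hl => ?_⟩
        · obtain ⟨l0, hl0, rfl⟩ := List.mem_map.1 hl
          exact hφ.2 _ (List.mem_map.2 ⟨l0, List.mem_append_left _ hl0, rfl⟩)
        · obtain ⟨l0, hl0, rfl⟩ := List.mem_map.1 hl
          exact hφ.2 _ (List.mem_map.2 ⟨l0, List.mem_append_right _ hl0, rfl⟩)
      rw [← hD.es f hf, D4_mem_SF] at e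
      exact ⟨hφ.1, e.2.1 (hg Y hD.lB)⟩
  rcases le_total (cb r (alN P) A) (cb r (alN P) B) with h3 | h3
  · rw [min_eq_left h3] at hc
    exact main A B h h3 hc
  · rw [min_eq_right h3] at hc
    exact main B A h.swapL h3 hc

private lemma D4_min [Infinite K] {q : ℕ} {m : ℕ → Submodule K (TT K) → ℕ} {hs : List BT} {A B A' B' : BT}
    (h : D4C K q m hs A B A' B') {r : ℕ} (P : Submodule K (TT K)) (h1 : 1 ≤ r) (h2 : r < q) :
    min (cb r (alN P) A) (cb r (alN P) B) = min (cb r (alN P) A') (cb r (alN P) B') :=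
  le_antisymm (D4_min_le h.symm P h1 h2) (D4_min_le h P h1 h2)

/-- the larger children have the same subspace -/
private lemma D4_big_le [Infinite K] {q : ℕ} {m : ℕ → Submodule K (TT K) → ℕ} {hs : List BT} {A B A' B' : BT}
    (h : D4C K q m hs A B A' B') {r : ℕ} (P : Submodule K (TT K)) (h1 : 1 ≤ r) (h2 : r < q)
    (h3 : cb r (alN P) A < cb r (alN P) B) (h4 : cb r (alN P) A' < cb r (alN P) B') :
    X0 K B ≤ X0 K B' := by
  rw [← kl_iff h.lB h.lB']
  intro f hf hk
  by_contra hB
  have hm := D4_min h P h1 h2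
  rw [min_eq_left h3.le, min_eq_left h4.le] at hm
  refine ord (K := K) r h1 P A (D4_pos h2 P h.lA) (D4_JJ h1 h2 ?_) hs h.ni (paths B')
    (D4_sumS (by omega)) ?_
  · rw [h.mm r P h1 h2, min_eq_left h3.le, min_eq_left h4.le]
    exact le_min le_rfl hm.le
  · intro φ hφ
    have e : φ ∈ UA K (JJ K q m) (SF f hs A' B') := by
      rw [D4_mem_SF]
      exact ⟨hφ.1, fun h => absurd hk h, fun _ => hφ.2⟩
    rw [← h.es f hf, D4_mem_SF] at e
    exact ⟨hφ.1, e.2.1 hB⟩

private lemma D4_big [Infinite K] {q : ℕ} {m : ℕ → Submodule K (TT K) → ℕ} {hs : List BT} {A B A' B' : BT}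
    (h : D4C K q m hs A B A' B') {r : ℕ} (P : Submodule K (TT K)) (h1 : 1 ≤ r) (h2 : r < q)
    (h3 : cb r (alN P) A < cb r (alN P) B) (h4 : cb r (alN P) A' < cb r (alN P) B') :
    X0 K B = X0 K B' :=
  le_antisymm (D4_big_le h P h1 h2 h3 h4) (D4_big_le h.symm P h1 h2 h4 h3)

private lemma D4_JA {q : ℕ} {m : ℕ → Submodule K (TT K) → ℕ} {X : BT} (hX : X.lv = q)
    (h : ∀ r (P : Submodule K (TT K)), 1 ≤ r → r < q → m r P = cb r (alN P) X) : JJ K q m = JA K X := by
  funext U
  apply propext
  rw [JA, JJ, JJ, hX]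
  constructor
  · rintro ⟨a1, a2⟩
    exact ⟨a1, fun r P b1 b2 => by rw [← h r P b1 b2]; exact a2 r P b1 b2⟩
  · rintro ⟨a1, a2⟩
    exact ⟨a1, fun r P b1 b2 => by rw [h r P b1 b2]; exact a2 r P b1 b2⟩

private lemma D4_kl_iso {X Y : BT} (h : BT.Iso X Y) {f : List ℕ → K} (hf : kl f X) : kl f Y := by
  have e : ∀ (L : LT ℕ), pv [L] f = L.val f := by
    intro L
    show L.val (fun w => f (w ++ [])) = _
    simp only [List.append_nil]
  have h1 : Ann [[X]] f := by
    intro l hl Ls hLs
    rw [List.mem_singleton] at hl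
    subst hl
    obtain ⟨L, rfl, hL⟩ : ∃ L, Ls = [L] ∧ L.shape = X := by
      cases Ls with
      | nil => simp at hLs
      | cons L Ls =>
        rw [List.map_cons, List.cons.injEq, List.map_eq_nil_iff] at hLs
        exact ⟨L, by rw [hLs.2], hLs.1⟩
    rw [e]
    exact hf L hL
  have h2 := Ann_iso (K := K) (l := [X]) (l' := [Y]) (List.Forall₂.cons h List.Forall₂.nil) h1
  intro L hL
  rw [← e]
  exact h2 [Y] (by simp) [L] (by simp [hL])

private lemma D4_X0_iff {q : ℕ} {X Y : BT} (hX : X.lv = q) (hY : Y.lv = q) :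
    X0 K X = X0 K Y ↔ ∀ f : List ℕ → K, Sp q f → (kl f X ↔ kl f Y) := by
  constructor
  · intro h f hf
    exact ⟨(kl_iff hY hX).2 h.ge f hf, (kl_iff hX hY).2 h.le f hf⟩
  · intro h
    exact le_antisymm ((kl_iff hX hY).1 (fun f hf => (h f hf).2)) ((kl_iff hY hX).1 (fun f hf => (h f hf).1))

private lemma D4_X0_iso {q : ℕ} {X Y : BT} (hX : X.lv = q) (hY : Y.lv = q) (h : BT.Iso X Y) :
    X0 K X = X0 K Y :=
  (D4_X0_iff hX hY).2 (fun f _ => ⟨D4_kl_iso h, D4_kl_iso h.symm⟩)

private lemma D4_UA_le {J : BT → Prop} {X Y : BT} (hs : List BT) (h : X0 K X ≤ X0 K Y) :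
    UA K J (PP hs (paths Y)) ⊆ UA K J (PP hs (paths X)) :=
  fun φ hφ => ⟨hφ.1, root_le h hs φ hφ.2⟩

private lemma D4_ssub {q : ℕ} {m : ℕ → Submodule K (TT K) → ℕ} {hs : List BT}
    (hni : ∀ h ∈ hs, NI K (JJ K q m) h) {X : BT} (hX : X.lv = q) :
    UA K (JJ K q m) (PP hs (paths X)) ⊂ UA K (JJ K q m) [] := by
  refine ⟨fun φ hφ => ⟨hφ.1, fun l hl => absurd hl (by simp)⟩, ?_⟩
  exact nonzero (K := K) X (fun U hU => by rw [hX]; exact hU.1) hs hni

/-- a common child and equal counts of the others -/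
private lemma D4_common [Infinite K] {q : ℕ} {m : ℕ → Submodule K (TT K) → ℕ} {hs : List BT} {A B A' B' : BT}
    (h : D4C K q m hs A B A' B') (hX : X0 K B = X0 K B')
    (hm : ∀ r (P : Submodule K (TT K)), 1 ≤ r → r < q → m r P = cb r (alN P) A)
    (hm' : ∀ r (P : Submodule K (TT K)), 1 ≤ r → r < q → cb r (alN P) A = cb r (alN P) A')
    (ih : EE K q) (ihM : MM K q) : BT.Iso A A' := by
  have hk := (D4_X0_iff h.lB h.lB').1 hX
  have hBB : UA K (JJ K q m) (PP hs (paths B)) = UA K (JJ K q m) (PP hs (paths B')) :=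
    Set.Subset.antisymm (D4_UA_le hs hX.ge) (D4_UA_le hs hX.le)
  have key := lin1 (F := {f : List ℕ → K // Sp q f}) (UA K (JJ K q m) [])
    (UA K (JJ K q m) (PP hs (paths B))) (UA K (JJ K q m) (PP hs (paths A)))
    (UA K (JJ K q m) (PP hs (paths A'))) {f | kl f.1 B} {f | kl f.1 A} {f | kl f.1 A'}
    (D4_ssub h.ni h.lB) (D4_ssub h.ni h.lA) (D4_ssub h.ni h.lA')
    (fun hs1 => D4_UA_le hs ((kl_iff h.lA h.lB).1 (fun f hf hk => hs1 (a := ⟨f, hf⟩) hk)))
    (fun hs1 => D4_UA_le hs ((kl_iff h.lB h.lA).1 (fun f hf hk => hs1 (a := ⟨f, hf⟩) hk)))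
    (fun hs1 => D4_UA_le hs ((kl_iff h.lA' h.lB).1 (fun f hf hk => hs1 (a := ⟨f, hf⟩) hk)))
    (fun hs1 => D4_UA_le hs ((kl_iff h.lB h.lA').1 (fun f hf hk => hs1 (a := ⟨f, hf⟩) hk)))
    (by
      intro f x hx
      have e := Set.ext_iff.1 (h.es f.1 f.2) x
      rw [D4_mem_SF, D4_mem_SF] at e
      have e2 := Set.ext_iff.1 hBB x
      have hkf := hk f.1 f.2
      have hx1 : KI (JJ K q m) x := hx.1
      simp only [Set.mem_setOf_eq, UA] at e2 ⊢
      constructor
      · rintro ⟨a1, a2⟩
        have e3 := e.1 ⟨hx1, fun hh => (a1 hh).2, fun hh => (a2 hh).2⟩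
        exact ⟨fun hh => ⟨hx1, e3.2.1 (fun h' => hh (hkf.2 h'))⟩,
          fun hh => e2.2 ⟨hx1, e3.2.2 hh⟩⟩
      · rintro ⟨a1, a2⟩
        have e3 := e.2 ⟨hx1, fun hh => (a1 (fun h' => hh (hkf.1 h'))).2, fun hh => (e2.1 (a2 hh)).2⟩
        exact ⟨fun hh => ⟨hx1, e3.2.1 hh⟩, fun hh => ⟨hx1, e3.2.2 hh⟩⟩)
  rcases key with key | key
  · have hJ := D4_JA (K := K) h.lA hm
    refine ih A A' h.lA h.lA' hm' hs (fun x hx => hJ ▸ h.ni x hx) ?_
    rw [← hJ]
    exact key
  · refine ihM A A' h.lA ((D4_X0_iff h.lA h.lA').2 (fun f hf => ?_))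
    have := Set.ext_iff.1 key ⟨f, hf⟩
    exact this

/-- Step 3 when the counts differ at some level -/
private lemma D4_caseII [Infinite K] {q : ℕ} {m : ℕ → Submodule K (TT K) → ℕ} {hs : List BT} {A B A' B' : BT}
    (h : D4C K q m hs A B A' B') {r : ℕ} (P : Submodule K (TT K)) (h1 : 1 ≤ r) (h2 : r < q)
    (h3 : cb r (alN P) A < cb r (alN P) B) (h4 : cb r (alN P) A' < cb r (alN P) B')
    (ih : EE K q) (ihM : MM K q) : BT.Iso A A' ∧ BT.Iso B B' := by
  have hX := D4_big h P h1 h2 h3 h4
  have hIB : BT.Iso B B' := ihM B B' h.lB hX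
  refine ⟨?_, hIB⟩
  have hcB : ∀ r (P : Submodule K (TT K)), cb r (alN P) B = cb r (alN P) B' := fun r P => cb_iso r P hIB
  have hcA : ∀ r (P : Submodule K (TT K)), 1 ≤ r → r < q → cb r (alN P) A = cb r (alN P) A' := by
    intro r P a1 a2
    have := h.sum r P a1 a2
    rw [hcB] at this
    omega
  by_cases hop : ∃ r, ∃ P : Submodule K (TT K), 1 ≤ r ∧ r < q ∧ cb r (alN P) B < cb r (alN P) A
  · obtain ⟨r', P', b1, b2, b3⟩ := hop
    exact ihM A A' h.lA (D4_big h.swapL.swapR P' b1 b2 b3 (by rw [← hcA r' P' b1 b2, ← hcB]; exact b3))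
  · push Not at hop
    refine D4_common h hX ?_ hcA ih ihM
    intro r P a1 a2
    have := hop r P a1 a2
    rw [h.mm r P a1 a2, ← hcA r P a1 a2, ← hcB, min_eq_left this, min_self]

/-- Step 3 when all counts agree -/
private lemma D4_caseI [Infinite K] {q : ℕ} {m : ℕ → Submodule K (TT K) → ℕ} {hs : List BT} {A B A' B' : BT}
    (h : D4C K q m hs A B A' B')
    (hA : ∀ r (P : Submodule K (TT K)), 1 ≤ r → r < q → m r P = cb r (alN P) A)
    (hB : ∀ r (P : Submodule K (TT K)), 1 ≤ r → r < q → m r P = cb r (alN P) B)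
    (hA' : ∀ r (P : Submodule K (TT K)), 1 ≤ r → r < q → m r P = cb r (alN P) A')
    (hB' : ∀ r (P : Submodule K (TT K)), 1 ≤ r → r < q → m r P = cb r (alN P) B')
    (ih : EE K q) (ihM : MM K q) : BT.Iso (BT.node A B) (BT.node A' B') := by
  -- equal annihilators give isomorphic trees
  have eqv : ∀ X Y : BT, X.lv = q → Y.lv = q →
      (∀ r (P : Submodule K (TT K)), 1 ≤ r → r < q → m r P = cb r (alN P) X) →
      (∀ r (P : Submodule K (TT K)), 1 ≤ r → r < q → m r P = cb r (alN P) Y) →
      UA K (JJ K q m) (PP hs (paths X)) = UA K (JJ K q m) (PP hs (paths Y)) → BT.Iso X Y := by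
    intro X Y lX lY mX mY hXY
    have hJ := D4_JA (K := K) lX mX
    refine ih X Y lX lY (fun r P a1 a2 => by rw [← mX r P a1 a2, mY r P a1 a2]) hs
      (fun x hx => hJ ▸ h.ni x hx) ?_
    rw [← hJ]
    exact hXY
  let T : Bool → BT := fun i => if i then B else A
  let T' : Bool → BT := fun i => if i then B' else A'
  have lT : ∀ i, (T i).lv = q := fun i => by cases i; exacts [h.lA, h.lB]
  have lT' : ∀ i, (T' i).lv = q := fun i => by cases i; exacts [h.lA', h.lB']
  have mT : ∀ i, ∀ r (P : Submodule K (TT K)), 1 ≤ r → r < q → m r P = cb r (alN P) (T i) := fun i => by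
    cases i; exacts [hA, hB]
  have mT' : ∀ i, ∀ r (P : Submodule K (TT K)), 1 ≤ r → r < q → m r P = cb r (alN P) (T' i) := fun i => by
    cases i; exacts [hA', hB']
  have mono : ∀ X Y : BT, X.lv = q → Y.lv = q →
      ({f : {f : List ℕ → K // Sp q f} | kl f.1 X} ⊆ {f | kl f.1 Y}) →
      UA K (JJ K q m) (PP hs (paths X)) ⊆ UA K (JJ K q m) (PP hs (paths Y)) := by
    intro X Y lX lY hs1
    exact D4_UA_le hs ((kl_iff lY lX).1 (fun f hf hk => hs1 (a := ⟨f, hf⟩) hk))
  have ekl : ∀ X Y : BT, X.lv = q → Y.lv = q → BT.Iso X Y →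
      ({f : {f : List ℕ → K // Sp q f} | kl f.1 X}) = {f | kl f.1 Y} := by
    intro X Y lX lY hI
    ext f
    exact ⟨D4_kl_iso hI, D4_kl_iso hI.symm⟩
  obtain ⟨i, j, hij⟩ := lin2 (F := {f : List ℕ → K // Sp q f}) (UA K (JJ K q m) [])
    (fun i => UA K (JJ K q m) (PP hs (paths (T i)))) (fun i => UA K (JJ K q m) (PP hs (paths (T' i))))
    (fun i => {f | kl f.1 (T i)}) (fun i => {f | kl f.1 (T' i)})
    (fun i => D4_ssub h.ni (lT i)) (fun i => D4_ssub h.ni (lT' i))
    (fun i j => mono _ _ (lT i) (lT j)) (fun i j => mono _ _ (lT' i) (lT' j))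
    (fun i j => mono _ _ (lT i) (lT' j)) (fun i j => mono _ _ (lT' i) (lT j))
    (fun i j hh => ekl _ _ (lT i) (lT j) (eqv _ _ (lT i) (lT j) (mT i) (mT j) hh))
    (fun i j hh => ekl _ _ (lT' i) (lT' j) (eqv _ _ (lT' i) (lT' j) (mT' i) (mT' j) hh))
    (by
      intro f x hx
      have hx1 : KI (JJ K q m) x := hx.1
      have e := Set.ext_iff.1 (h.es f.1 f.2) x
      rw [D4_mem_SF, D4_mem_SF] at e
      constructor
      · intro a
        have e3 := e.1 ⟨hx1, fun hh => (a false hh).2, fun hh => (a true hh).2⟩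
        intro i
        cases i
        · exact fun hh => ⟨hx1, e3.2.1 hh⟩
        · exact fun hh => ⟨hx1, e3.2.2 hh⟩
      · intro a
        have e3 := e.2 ⟨hx1, fun hh => (a false hh).2, fun hh => (a true hh).2⟩
        intro i
        cases i
        · exact fun hh => ⟨hx1, e3.2.1 hh⟩
        · exact fun hh => ⟨hx1, e3.2.2 hh⟩)
  have hI := eqv _ _ (lT i) (lT' j) (mT i) (mT' j) hij
  -- rename so that the common child is the second one
  have fin : ∀ X Y X' Y' : BT, D4C K q m hs X Y X' Y' → BT.Iso Y Y' →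
      (∀ r (P : Submodule K (TT K)), 1 ≤ r → r < q → m r P = cb r (alN P) X) →
      (∀ r (P : Submodule K (TT K)), 1 ≤ r → r < q → m r P = cb r (alN P) X') → BT.Iso X X' := by
    intro X Y X' Y' hD hIY mX mX'
    exact D4_common hD (D4_X0_iso hD.lB hD.lB' hIY) mX
      (fun r P a1 a2 => by rw [← mX r P a1 a2, mX' r P a1 a2]) ih ihM
  cases i <;> cases j
  · -- A ~ A'
    exact BT.Iso.node hI (fin B A B' A' h.swapL.swapR hI hB hB')
  · -- A ~ B'
    exact BT.Iso.swap hI (fin B A A' B' h.swapL hI hB hA')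
  · -- B ~ A'
    exact BT.Iso.swap (fin A B B' A' h.swapR hI hA hB') hI
  · exact BT.Iso.node (fin A B A' B' h hI hA hA') hI

theorem step3 [Infinite K] {q : ℕ} {A B A' B' : BT} (hA : A.lv = q) (hB : B.lv = q) (hA' : A'.lv = q)
    (hB' : B'.lv = q)
    (hc : ∀ r (P : Submodule K (TT K)), 1 ≤ r → r < q + q →
      cb r (alN P) (BT.node A B) = cb r (alN P) (BT.node A' B'))
    (hs : List BT) (hhs : ∀ h ∈ hs, NI K (JA K (BT.node A B)) h)
    (hU : UA K (JA K (BT.node A B)) (PP hs (paths (BT.node A B))) =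
      UA K (JA K (BT.node A B)) (PP hs (paths (BT.node A' B'))))
    (ih : EE K q) (ihM : MM K q) : BT.Iso (BT.node A B) (BT.node A' B') := by
  have hq1 : 1 ≤ q := hA ▸ A.lv_pos
  let m : ℕ → Submodule K (TT K) → ℕ := fun r P =>
    min (min (cb r (alN P) A) (cb r (alN P) B)) (min (cb r (alN P) A') (cb r (alN P) B'))
  have hnode : ∀ r (P : Submodule K (TT K)), r < q →
      cb r (alN P) (BT.node A B) = cb r (alN P) A + cb r (alN P) B := fun r P hr =>
    cb_node r (alN P) (Or.inl (D4_pos hr P hA))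
  have hnode' : ∀ r (P : Submodule K (TT K)), r < q →
      cb r (alN P) (BT.node A' B') = cb r (alN P) A' + cb r (alN P) B' := fun r P hr =>
    cb_node r (alN P) (Or.inl (D4_pos hr P hA'))
  have hJ : ∀ U, JA K (BT.node A B) U → JJ K q m U := by
    intro U hU1
    have hl := hU1.1
    rw [BT.lv] at hl
    refine ⟨by omega, fun r P a1 a2 => ?_⟩
    have h1 : cb r (alN P) (BT.node A B) ≤ cb r (alN P) U := hU1.2 r P a1 (by rw [BT.lv]; omega)
    have h2 := hnode r P a2
    have h3 : m r P ≤ cb r (alN P) A := (min_le_left _ _).trans (min_le_left _ _)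
    omega
  have hJq : ∀ U, JA K (BT.node A B) U → q < U.lv := by
    intro U hU1
    have hl := hU1.1
    rw [BT.lv] at hl
    omega
  have jA : JJ K q m A := ⟨hA.ge, fun r P _ _ => (min_le_left _ _).trans (min_le_left _ _)⟩
  have jB : JJ K q m B := ⟨hB.ge, fun r P _ _ => (min_le_left _ _).trans (min_le_right _ _)⟩
  have jA' : JJ K q m A' := ⟨hA'.ge, fun r P _ _ => (min_le_right _ _).trans (min_le_left _ _)⟩
  have jB' : JJ K q m B' := ⟨hB'.ge, fun r P _ _ => (min_le_right _ _).trans (min_le_right _ _)⟩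
  have hC : D4C K q m (fil K (JJ K q m) hs) A B A' B' := by
    refine ⟨hA, hB, hA', hB', fun r P a1 a2 => ?_, fun r P _ _ => rfl, fun x hx => ?_, fun f hf => ?_⟩
    · rw [← hnode r P a2, ← hnode' r P a2]
      exact hc r P a1 (by omega)
    · rw [fil, List.mem_filter] at hx
      simpa using hx.2
    · exact Set.Subset.antisymm
        (pen3 (K := K) hJ q hJq hs hhs A' B' A B hA' hB' hA hB jA' jB' jA jB f hf hU.le)
        (pen3 (K := K) hJ q hJq hs hhs A B A' B' hA hB hA' hB' jA jB jA' jB' f hf hU.ge)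
  by_cases hex : ∃ r, ∃ P : Submodule K (TT K), 1 ≤ r ∧ r < q ∧ cb r (alN P) A ≠ cb r (alN P) B
  · obtain ⟨r, P, a1, a2, a3⟩ := hex
    have hs1 := hC.sum r P a1 a2
    have hm1 := D4_min hC P a1 a2
    rcases lt_or_gt_of_ne a3 with h3 | h3
    · rcases lt_trichotomy (cb r (alN P) A') (cb r (alN P) B') with h4 | h4 | h4
      · have := D4_caseII hC P a1 a2 h3 h4 ih ihM
        exact BT.Iso.node this.1 this.2
      · rw [min_eq_left h3.le, min_eq_left h4.le] at hm1
        omega
      · have := D4_caseII hC.swapR P a1 a2 h3 h4 ih ihM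
        exact BT.Iso.swap this.1 this.2
    · rcases lt_trichotomy (cb r (alN P) A') (cb r (alN P) B') with h4 | h4 | h4
      · have := D4_caseII hC.swapL P a1 a2 h3 h4 ih ihM
        exact BT.Iso.swap this.2 this.1
      · rw [min_eq_right h3.le, min_eq_left h4.le] at hm1
        omega
      · have := D4_caseII hC.swapL.swapR P a1 a2 h3 h4 ih ihM
        exact BT.Iso.node this.2 this.1
  · push Not at hex
    have hall : ∀ r (P : Submodule K (TT K)), 1 ≤ r → r < q →
        cb r (alN P) A = cb r (alN P) B ∧ cb r (alN P) A = cb r (alN P) A' ∧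
          cb r (alN P) A = cb r (alN P) B' := by
      intro r P a1 a2
      have h1 := hex r P a1 a2
      have h2 := hC.sum r P a1 a2
      have h3 := D4_min hC P a1 a2
      rw [← h1, min_self] at h3
      rcases le_total (cb r (alN P) A') (cb r (alN P) B') with h4 | h4
      · rw [min_eq_left h4] at h3
        exact ⟨h1, h3, by omega⟩
      · rw [min_eq_right h4] at h3
        exact ⟨h1, by omega, h3⟩
    have hmA : ∀ r (P : Submodule K (TT K)), 1 ≤ r → r < q → m r P = cb r (alN P) A := by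
      intro r P a1 a2
      obtain ⟨b1, b2, b3⟩ := hall r P a1 a2
      show min (min _ _) (min _ _) = _
      rw [← b1, ← b2, ← b3, min_self, min_self]
    exact D4_caseI hC hmA (fun r P a1 a2 => by rw [hmA r P a1 a2, (hall r P a1 a2).1])
      (fun r P a1 a2 => by rw [hmA r P a1 a2, (hall r P a1 a2).2.1])
      (fun r P a1 a2 => by rw [hmA r P a1 a2, (hall r P a1 a2).2.2]) ih ihM

end Pool.Agent.Bht.BK.AQ
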