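import Pool.Agent.Bht.AQ.Sig
import Pool.Agent.Bht.CZ.C1

namespace Pool.Agent.Bht.BK.AQ

open Pool.Agent.H25 Pool.Agent.Bht.BK.CZ

universe u

/-! ## Deep the deepest marking -/
section Deep
variable (r : ℕ) (al : BT → Prop)

private lemma dee_cb_leaf : cb r al BT.leaf = 0 ∨ cb r al BT.leaf = 1 := by
  unfold cb
  split_ifs
  · exact Or.inr rfl
  · exact Or.inl rfl

private lemma dee_cb_node {a b : BT} (ha : cb r al a = 0) (hb : cb r al b = 0) :
    cb r al (BT.node a b) = 0 ∨ cb r al (BT.node a b) = 1 := by
  rw [cb, if_pos (by omega)]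
  split_ifs
  · exact Or.inr rfl
  · exact Or.inl rfl

theorem th_small {D : BT} (h : cb r al D = 0) : th r al D = LW.c := by
  cases D with
  | leaf => rw [th, if_pos h]
  | node a b =>
    have h1 := cb_le_left r al a b
    have h2 := cb_le_right r al a b
    rw [th, if_pos (by omega), if_pos h]

theorem nu_small {D : BT} (h : cb r al D = 0) : nu r al D = 1 := by
  cases D with
  | leaf => rw [nu, if_pos h]
  | node a b =>
    have h1 := cb_le_left r al a b
    have h2 := cb_le_right r al a b
    rw [nu, if_pos (by omega), if_pos h]

private lemma dee_fd_adc (n : ℕ) : (LW.adc n).fd = 1 := by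
  induction n with
  | zero => rfl
  | succ n ih => rw [LW.adc, LW.fd, ih]; rfl

theorem fd_th (D : BT) : (th r al D).fd = cb r al D := by
  induction D with
  | leaf =>
    rw [th]
    rcases dee_cb_leaf r al with h | h
    · rw [if_pos h, h]; rfl
    · rw [if_neg (by omega), h]; rfl
  | node a b iha ihb =>
    rw [th]
    by_cases h : cb r al a = 0 ∧ cb r al b = 0
    · rw [if_pos h]
      rcases dee_cb_node r al h.1 h.2 with h2 | h2
      · rw [if_pos h2, h2]; rfl
      · rw [if_neg (by omega), h2, dee_fd_adc]
    · rw [if_neg h, LW.fd, iha, ihb, cb_node r al (by omega)]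

private lemma dee_dp_shape (D : BT) : (dp D).shape = D := by
  induction D with
  | leaf => rfl
  | node a b iha ihb =>
    rw [dp]
    split_ifs
    · rw [MT2.shape, iha]
    · rw [MT2.shape, ihb]

private lemma dee_dp_marks (D : BT) : (dp D).marks = 1 := by
  induction D with
  | leaf => rfl
  | node a b iha ihb =>
    rw [dp]
    split_ifs
    · rw [MT2.marks, iha]
    · rw [MT2.marks, ihb]

private lemma dee_dp_len (D : BT) : (dp D).hangs.length = ht D := by
  induction D with
  | leaf => rfl
  | node a b iha ihb =>
    rw [dp, ht]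
    split_ifs with h
    · rw [MT2.hangs, List.length_append, iha, max_eq_left h]; rfl
    · rw [MT2.hangs, List.length_cons, ihb, max_eq_right (by omega)]

private lemma dee_dp_hangs {D : BT} (h : cb r al D = 0) : ∀ s ∈ (dp D).hangs, cb r al s = 0 := by
  induction D with
  | leaf => intro s hs; simp [dp, MT2.hangs] at hs
  | node a b iha ihb =>
    have h1 := cb_le_left r al a b
    have h2 := cb_le_right r al a b
    intro s hs
    rw [dp] at hs
    split_ifs at hs
    · rw [MT2.hangs, List.mem_append, List.mem_singleton] at hs
      rcases hs with hs | rfl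
      · exact iha (by omega) s hs
      · omega
    · rw [MT2.hangs, List.mem_cons] at hs
      rcases hs with rfl | hs
      · omega
      · exact ihb (by omega) s hs

private lemma dee_dp_hangs2 {a b : BT} (ha : cb r al a = 0) (hb : cb r al b = 0) :
    ∀ s ∈ (dp (BT.node a b)).hangs, cb r al s = 0 := by
  intro s hs
  rw [dp] at hs
  split_ifs at hs
  · rw [MT2.hangs, List.mem_append, List.mem_singleton] at hs
    rcases hs with hs | rfl
    · exact dee_dp_hangs r al ha s hs
    · exact hb
  · rw [MT2.hangs, List.mem_cons] at hs
    rcases hs with rfl | hs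
    · exact ha
    · exact dee_dp_hangs r al hb s hs

private lemma dee_dm_shape (D : BT) : (dm r al D).shape = D := by
  induction D with
  | leaf => rfl
  | node a b iha ihb =>
    rw [dm]
    split_ifs
    · rw [MT2.shape, iha, ihb]
    · rw [MT2.shape, ihb]
    · rw [MT2.shape, iha]
    · exact dee_dp_shape _

private lemma dee_dm_marks {D : BT} (h : 0 < cb r al D) : (dm r al D).marks = cb r al D := by
  induction D with
  | leaf =>
    rcases dee_cb_leaf r al with h2 | h2
    · omega
    · rw [h2]; rfl
  | node a b iha ihb =>
    rw [dm]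
    split_ifs with h1 h2 h3
    · rw [MT2.marks, iha h1.1, ihb h1.2, cb_node r al (Or.inl h1.1)]
    · rw [MT2.marks, ihb h2, cb_node r al (Or.inr h2)]; omega
    · rw [MT2.marks, iha h3, cb_node r al (Or.inl h3)]; omega
    · rw [dee_dp_marks]
      rcases dee_cb_node r al (a := a) (b := b) (by omega) (by omega) with h4 | h4 <;> omega

private lemma dee_dm_hangs (D : BT) : ∀ s ∈ (dm r al D).hangs, cb r al s = 0 := by
  induction D with
  | leaf => intro s hs; simp [dm, MT2.hangs] at hs
  | node a b iha ihb =>
    intro s hs
    rw [dm] at hs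
    split_ifs at hs with h1 h2 h3
    · rw [MT2.hangs, List.mem_append] at hs
      rcases hs with hs | hs
      · exact iha s hs
      · exact ihb s hs
    · rw [MT2.hangs, List.mem_cons] at hs
      rcases hs with rfl | hs
      · omega
      · exact ihb s hs
    · rw [MT2.hangs, List.mem_append, List.mem_singleton] at hs
      rcases hs with hs | rfl
      · exact iha s hs
      · omega
    · exact dee_dp_hangs2 r al (by omega) (by omega) s hs

private lemma dee_dm_len {D : BT} (h : 0 < cb r al D) : (dm r al D).hangs.length = nu r al D := by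
  induction D with
  | leaf => rw [nu, if_neg (by omega)]; rfl
  | node a b iha ihb =>
    rw [dm]
    split_ifs with h1 h2 h3
    · rw [MT2.hangs, List.length_append, iha h1.1, ihb h1.2, nu, if_neg (by omega)]
    · rw [MT2.hangs, List.length_cons, ihb h2, nu, if_neg (by omega),
        nu_small r al (D := a) (by omega)]
      omega
    · rw [MT2.hangs, List.length_append, iha h3, nu, if_neg (by omega),
        nu_small r al (D := b) (by omega)]
      rfl
    · rw [dee_dp_len, nu, if_pos (by omega), if_neg (by omega)]

theorem it_shape (D : BT) : (itOf r al D).shape = D := by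
  unfold itOf
  split_ifs
  · exact dee_dm_shape r al D
  · rfl

theorem it_marks (D : BT) : (itOf r al D).marks = cb r al D := by
  unfold itOf
  split_ifs with h
  · exact dee_dm_marks r al h
  · have : cb r al D = 0 := by omega
    rw [this]; rfl

theorem it_hangs (D : BT) : ∀ s ∈ (itOf r al D).hangs, cb r al s = 0 := by
  unfold itOf
  split_ifs with h
  · exact dee_dm_hangs r al D
  · intro s hs
    have hs2 : s = D := by simpa [I1.hangs] using hs
    rw [hs2]; omega

theorem it_nu (D : BT) : (itOf r al D).hangs.length = nu r al D := by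
  unfold itOf
  split_ifs with h
  · exact dee_dm_len r al h
  · rw [nu_small r al (by omega)]; rfl

private lemma dee_pm_br {R : Type u} [Ring R] {x x' y y' : R} (h : pm x x') (h' : pm y y') :
    pm (x * y - y * x) (x' * y' - y' * x') := by
  rcases h with rfl | rfl <;> rcases h' with rfl | rfl
  · exact Or.inl rfl
  · right; simp only [mul_neg, neg_mul]; abel
  · right; simp only [mul_neg, neg_mul]; abel
  · left; simp only [mul_neg, neg_mul, neg_neg]

private lemma dee_pm_swap {R : Type u} [Ring R] {x x' y y' : R} (h : pm x x') (h' : pm y y') :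
    pm (x * y - y * x) (y' * x' - x' * y') := by
  rcases dee_pm_br h h' with e | e
  · right; rw [e]; abel
  · left; rw [e]; abel

private lemma dee_pm_mul {R : Type u} [Ring R] {x x' y y' : R} (h : pm x x') (h' : pm y y') :
    pm (x * y) (x' * y') := by
  rcases h with rfl | rfl <;> rcases h' with rfl | rfl
  · exact Or.inl rfl
  · right; simp only [mul_neg]
  · right; simp only [neg_mul]
  · left; simp only [mul_neg, neg_mul, neg_neg]

private lemma dee_lam_dp {R : Type u} [Ring R] (F C : R) (D : BT) (k : ℕ) :
    pm (lam (fun _ => F) C (dp D) k) ((LW.adc (ht D)).ev F C) := by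
  induction D generalizing k with
  | leaf => exact Or.inl rfl
  | node a b iha ihb =>
    rw [dp, ht]
    split_ifs with h
    · rw [lam, max_eq_left h, LW.adc, LW.ev, LW.ev]
      exact dee_pm_swap (iha k) (Or.inl rfl)
    · rw [lam, max_eq_right (by omega), LW.adc, LW.ev, LW.ev]
      exact dee_pm_br (Or.inl rfl) (ihb k)

private lemma dee_lam_dm {R : Type u} [Ring R] (F C : R) {D : BT} (h : 0 < cb r al D) (k : ℕ) :
    pm (lam (fun _ => F) C (dm r al D) k) ((th r al D).ev F C) := by
  induction D generalizing k with
  | leaf => rw [th, if_neg (by omega)]; exact Or.inl rfl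
  | node a b iha ihb =>
    rw [dm]
    split_ifs with h1 h2 h3
    · rw [lam, th, if_neg (by omega), LW.ev]
      exact dee_pm_br (iha h1.1 _) (ihb h1.2 _)
    · rw [lam, th, if_neg (by omega), LW.ev, th_small r al (D := a) (by omega), LW.ev]
      exact dee_pm_br (Or.inl rfl) (ihb h2 _)
    · rw [lam, th, if_neg (by omega), LW.ev, th_small r al (D := b) (by omega), LW.ev]
      exact dee_pm_br (iha h3 _) (Or.inl rfl)
    · rw [th, if_pos (by omega), if_neg (by omega)]
      exact dee_lam_dp F C _ k

theorem it_lam {R : Type u} [Ring R] (F C : R) (Ds : List BT) (k : ℕ) :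
    pm (lamL (fun _ => F) C (Ds.map (itOf r al)) k) ((Ds.map (fun D => (th r al D).ev F C)).prod) := by
  induction Ds generalizing k with
  | nil => exact Or.inl rfl
  | cons D Ds ih =>
    rw [List.map_cons, List.map_cons, List.prod_cons]
    by_cases h : 0 < cb r al D
    · have e : itOf r al D = Sum.inl (dm r al D) := by unfold itOf; rw [if_pos h]
      rw [e, lamL]
      exact dee_pm_mul (dee_lam_dm r al F C h k) (ih _)
    · have e : itOf r al D = Sum.inr D := by unfold itOf; rw [if_neg h]
      rw [e, lamL, th_small r al (D := D) (by omega), LW.ev]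
      exact dee_pm_mul (Or.inl rfl) (ih _)
end Deep

end Pool.Agent.Bht.BK.AQ
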