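import Pool.Agent.Bht.AQ.D2q
import Pool.Agent.Bht.AQ.D3q
import Pool.Agent.Bht.AQ.D4q

namespace Pool.Agent.Bht.BK.AQ

open Pool.Agent.H25 Pool.Agent.Bht.BK.CZ

universe u

variable {K : Type u} [Field K]

/-! ## D5: assembly -/

theorem MM_of_EE [Infinite K] {s : ℕ} (h : EE K s) : MM K s := by
  intro A A' hA hX
  have hinf : Infinite K := inferInstance
  have hlv : A.lv = A'.lv := lv_eq_of_X0 hX
  refine h A A' hA (by omega) (fun r P h1 h2 => cb_eq_of_X0 hX r P h1 (by omega)) [] (by simp) ?_
  ext φ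
  exact ⟨fun hφ => ⟨hφ.1, root_le hX.ge [] φ hφ.2⟩, fun hφ => ⟨hφ.1, root_le hX.le [] φ hφ.2⟩⟩

private lemma D5_Ann_swap {α : Type} (hs : List BT) (a b : BT) (φ : List α → K)
    (h : Ann (PP hs (paths (BT.node a b))) φ) : Ann (PP hs (paths (BT.node b a))) φ := by
  intro l hl
  apply h l
  obtain ⟨l0, hl0, rfl⟩ := List.mem_map.1 hl
  refine List.mem_map.2 ⟨l0, ?_, rfl⟩
  rw [paths, List.mem_append] at hl0 ⊢
  exact hl0.symm

private lemma D5_UA_swap (J : BT → Prop) (hs : List BT) (a b : BT) :
    UA K J (PP hs (paths (BT.node a b))) = UA K J (PP hs (paths (BT.node b a))) := by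
  ext φ
  exact ⟨fun h => ⟨h.1, D5_Ann_swap hs a b φ h.2⟩, fun h => ⟨h.1, D5_Ann_swap hs b a φ h.2⟩⟩

private lemma D5_iso_swap (a b : BT) : BT.Iso (BT.node a b) (BT.node b a) :=
  BT.Iso.swap (BT.Iso.refl a) (BT.Iso.refl b)

private lemma D5_cb_swap (r : ℕ) (P : Submodule K (TT K)) (a b : BT) :
    cb r (alN P) (BT.node a b) = cb r (alN P) (BT.node b a) := cb_iso r P (D5_iso_swap a b)

private lemma D5_JA_swap (a b : BT) : JA K (BT.node a b) = JA K (BT.node b a) := by
  have e : (fun r (P : Submodule K (TT K)) => cb r (alN P) (BT.node a b)) =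
      fun r P => cb r (alN P) (BT.node b a) := by
    funext r P
    exact D5_cb_swap r P a b
  rw [JA, JA, e, BT.lv, BT.lv, add_comm]

private lemma D5_orient (s : ℕ) (h : ∀ a b a' b' : BT, b.lv ≤ a.lv → b'.lv ≤ a'.lv →
    (BT.node a b).lv = s → (BT.node a' b').lv = s →
    (∀ r (P : Submodule K (TT K)), 1 ≤ r → r < s →
      cb r (alN P) (BT.node a b) = cb r (alN P) (BT.node a' b')) →
    ∀ hs : List BT, (∀ h ∈ hs, NI K (JA K (BT.node a b)) h) →
      UA K (JA K (BT.node a b)) (PP hs (paths (BT.node a b))) =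
        UA K (JA K (BT.node a b)) (PP hs (paths (BT.node a' b'))) →
      BT.Iso (BT.node a b) (BT.node a' b')) : EE K s := by
  intro A A' hA hA' hc hs hhs hU
  cases A with
  | leaf =>
    cases A' with
    | leaf => exact BT.Iso.leaf
    | node a' b' =>
      have := a'.lv_pos
      have := b'.lv_pos
      simp only [BT.lv] at hA hA'
      omega
  | node a b =>
    cases A' with
    | leaf =>
      have := a.lv_pos
      have := b.lv_pos
      simp only [BT.lv] at hA hA'
      omega
    | node a' b' =>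
      -- swap on the right
      have key : ∀ a b : BT, b.lv ≤ a.lv → (BT.node a b).lv = s →
          (∀ r (P : Submodule K (TT K)), 1 ≤ r → r < s →
            cb r (alN P) (BT.node a b) = cb r (alN P) (BT.node a' b')) →
          (∀ h ∈ hs, NI K (JA K (BT.node a b)) h) →
          UA K (JA K (BT.node a b)) (PP hs (paths (BT.node a b))) =
            UA K (JA K (BT.node a b)) (PP hs (paths (BT.node a' b'))) →
          BT.Iso (BT.node a b) (BT.node a' b') := by
        intro a b hab hs1 hc1 hhs1 hU1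
        rcases le_total b'.lv a'.lv with h2 | h2
        · exact h a b a' b' hab h2 hs1 hA' hc1 hs hhs1 hU1
        · have h3 := h a b b' a' hab h2 hs1 (by rw [BT.lv] at hA' ⊢; omega)
            (fun r P h4 h5 => by rw [hc1 r P h4 h5, D5_cb_swap]) hs hhs1
            (by rw [hU1, D5_UA_swap])
          cases h3 with
          | node p q => exact BT.Iso.swap p q
          | swap p q => exact BT.Iso.node p q
      rcases le_total b.lv a.lv with h1 | h1
      · exact key a b h1 hA hc hhs hU
      · have h3 := key b a h1 (by rw [BT.lv] at hA ⊢; omega)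
          (fun r P h4 h5 => by rw [D5_cb_swap, hc r P h4 h5])
          (by rw [D5_JA_swap]; exact hhs)
          (by rw [D5_JA_swap b a, D5_UA_swap _ hs b a, hU])
        cases h3 with
        | node p q => exact BT.Iso.swap q p
        | swap p q => exact BT.Iso.node q p

theorem EE_all [Infinite K] (s : ℕ) : EE K s := by
  induction s using Nat.strong_induction_on with
  | _ s ih =>
  refine D5_orient s (fun a b a' b' h1 h2 h3 h4 hc hs hhs hU => ?_)
  have ha := a.lv_pos
  have hb := b.lv_pos
  rw [BT.lv] at h3 h4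
  obtain ⟨e1, e2⟩ := step1 (K := K) h1 h2 (by omega)
    (fun r P h5 h6 => hc r P h5 (by omega)) hs hhs hU
  rcases lt_or_eq_of_le h1 with hlt | heq
  · have hX := e2 hlt
    have hI : BT.Iso b b' := MM_of_EE (ih b.lv (by omega)) b b' rfl hX
    exact step2 hlt e1 (by omega) hX hI (fun r P h5 h6 => hc r P h5 (by omega)) hs hhs hU
      (ih a.lv (by omega))
  · exact step3 (q := a.lv) rfl heq (by omega) (by omega) (fun r P h5 h6 => hc r P h5 (by omega)) hs hhs hU
      (ih a.lv (by omega)) (MM_of_EE (ih a.lv (by omega)))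

theorem iso_of_X0_infinite [Infinite K] {s t : BT} (h : X0 K s = X0 K t) : BT.Iso s t :=
  MM_of_EE (EE_all s.lv) s t rfl h

end Pool.Agent.Bht.BK.AQ
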