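import Pool.Agent.Bht.AQ.Sig
import Pool.Agent.Bht.CZ.C1

namespace Pool.Agent.Bht.BK.AQ

open Pool.Agent.H25 Pool.Agent.Bht.BK.CZ

universe u

private lemma G_mk1_node (a b : LT L1) : mk1 (LT.node a b) = mk1 a + mk1 b := by
  rw [mk1, LT.leaves, List.countP_append]
  rfl

private lemma G_mpc_zero (L : LT L1) (h : mk1 L = 0) : mpc L = [L] := by
  cases L with
  | leaf x => rw [mpc, if_pos h]
  | node a b => rw [mpc, if_pos h]

private lemma G_tw_zero (L : LT L1) (h : mk1 L = 0) : tw L = LW.c := by
  cases L with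
  | leaf x => rw [tw, if_pos h]
  | node a b => rw [tw, if_pos h]

private lemma G_mpc_node (a b : LT L1) (h : mk1 (LT.node a b) ≠ 0) : mpc (LT.node a b) = mpc a ++ mpc b := by
  rw [mpc, if_neg h]

private lemma G_tw_node (a b : LT L1) (h : mk1 (LT.node a b) ≠ 0) : tw (LT.node a b) = LW.br (tw a) (tw b) := by
  rw [tw, if_neg h]

private lemma G_pm_br {R : Type*} [Ring R] {x x' y y' : R} (hx : pm x x') (hy : pm y y') :
    pm (x * y - y * x) (x' * y' - y' * x') := by
  rcases hx with rfl | rfl <;> rcases hy with rfl | rfl <;> unfold pm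
  · left; rfl
  · right; noncomm_ring
  · right; noncomm_ring
  · left; noncomm_ring

private lemma G_one (L : LT L1) (h : mk1 L = 1) : (mpc L).length ≤ ht L.shape ∧
    ((mpc L).length = ht L.shape → ∀ {R : Type u} [Ring R] (F C : R),
      pm ((tw L).ev F C) ((LW.adc (ht L.shape)).ev F C)) := by
  induction L with
  | leaf x =>
    have h0 : ¬ mk1 (LT.leaf x) = 0 := by omega
    rw [mpc, if_neg h0]
    refine ⟨Nat.zero_le _, fun _ R _ F C => ?_⟩
    rw [tw, if_neg h0]
    exact Or.inl rfl
  | node a b iha ihb =>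
    have h0 : ¬ mk1 (LT.node a b) = 0 := by omega
    rw [G_mk1_node] at h
    have hs : ht (LT.node a b).shape = max (ht a.shape) (ht b.shape) + 1 := rfl
    rw [G_mpc_node a b h0, G_tw_node a b h0, List.length_append, hs]
    rcases Nat.eq_zero_or_pos (mk1 b) with hb | hb
    · obtain ⟨i1, i2⟩ := iha (by omega)
      rw [G_mpc_zero b hb, G_tw_zero b hb, List.length_singleton]
      refine ⟨by omega, fun he R _ F C => ?_⟩
      have e1 : max (ht a.shape) (ht b.shape) = ht a.shape := by omega
      rw [e1]
      have := G_pm_br (i2 (by omega) F C) (Or.inl rfl : pm C C)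
      rcases this with h1 | h1
      · right
        show LW.ev F C (tw a) * C - C * LW.ev F C (tw a) = -(C * LW.ev F C (LW.adc (ht a.shape)) -
          LW.ev F C (LW.adc (ht a.shape)) * C)
        rw [h1]; noncomm_ring
      · left
        show LW.ev F C (tw a) * C - C * LW.ev F C (tw a) = (C * LW.ev F C (LW.adc (ht a.shape)) -
          LW.ev F C (LW.adc (ht a.shape)) * C)
        rw [h1]; noncomm_ring
    · have ha : mk1 a = 0 := by omega
      obtain ⟨i1, i2⟩ := ihb (by omega)
      rw [G_mpc_zero a ha, G_tw_zero a ha, List.length_singleton]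
      refine ⟨by omega, fun he R _ F C => ?_⟩
      have e1 : max (ht a.shape) (ht b.shape) = ht b.shape := by omega
      rw [e1]
      exact G_pm_br (Or.inl rfl : pm C C) (i2 (by omega) F C)

section
open Classical

private lemma G_cb_node (r : ℕ) (al : BT → Prop) (a b : BT) : cb r al (BT.node a b) =
    if cb r al a + cb r al b = 0 then (if Big r al (BT.node a b) then 1 else 0)
      else cb r al a + cb r al b := by
  rw [cb]

private lemma G_cb_leaf (r : ℕ) (al : BT → Prop) : cb r al BT.leaf = (if Big r al BT.leaf then 1 else 0) := by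
  rw [cb]

private lemma G_ge (r : ℕ) (al : BT → Prop) (L : LT L1)
    (h : ∀ C : LT L1, LT.Cl C L → 0 < cb r al C.shape → 1 ≤ mk1 C) : cb r al L.shape ≤ mk1 L := by
  induction L with
  | leaf x =>
    by_cases h0 : 0 < cb r al (LT.leaf x).shape
    · have h1 := h _ (LT.Cl.refl _) h0
      have h2 : cb r al (LT.leaf x).shape ≤ 1 := by
        rw [LT.shape, G_cb_leaf]
        split_ifs <;> omega
      omega
    · omega
  | node a b iha ihb =>
    have ha := iha (fun C hC => h C (LT.Cl.left b hC))
    have hb := ihb (fun C hC => h C (LT.Cl.right a hC))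
    rw [G_mk1_node]
    by_cases h0 : cb r al a.shape + cb r al b.shape = 0
    · by_cases h1 : 0 < cb r al (LT.node a b).shape
      · have h2 := h _ (LT.Cl.refl _) h1
        rw [G_mk1_node] at h2
        have h3 : cb r al (LT.node a b).shape ≤ 1 := by
          rw [LT.shape, G_cb_node, if_pos h0]
          split_ifs <;> omega
        omega
      · omega
    · rw [LT.shape, G_cb_node, if_neg h0]
      omega

/-! ## G good labelled trees -/
theorem good_mpc (r : ℕ) (al : BT → Prop) (L : LT L1) (hg : Good r al L) :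
    (mpc L).length ≤ nu r al L.shape ∧ ((mpc L).length = nu r al L.shape →
      ∀ {R : Type u} [Ring R] (F C : R), pm ((tw L).ev F C) ((th r al L.shape).ev F C)) := by
  induction L with
  | leaf x =>
    obtain ⟨h1, -⟩ := hg
    rw [LT.shape] at h1 ⊢
    by_cases h0 : cb r al BT.leaf = 0
    · have h2 : mk1 (LT.leaf x) = 0 := by omega
      rw [G_mpc_zero _ h2, G_tw_zero _ h2, nu, if_pos h0, th, if_pos h0]
      exact ⟨le_refl _, fun _ R _ F C => Or.inl rfl⟩
    · have h2 : ¬ mk1 (LT.leaf x) = 0 := by omega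
      rw [mpc, if_neg h2, tw, if_neg h2, nu, if_neg h0, th, if_neg h0]
      exact ⟨le_refl _, fun _ R _ F C => Or.inl rfl⟩
  | node a b iha ihb =>
    obtain ⟨h1, h2⟩ := hg
    have hcn := G_cb_node r al a.shape b.shape
    by_cases h0 : cb r al a.shape = 0 ∧ cb r al b.shape = 0
    · rw [LT.shape] at h1 ⊢
      rw [nu, if_pos h0, th, if_pos h0]
      by_cases h3 : cb r al (BT.node a.shape b.shape) = 0
      · have h4 : mk1 (LT.node a b) = 0 := by omega
        rw [if_pos h3, if_pos h3, G_mpc_zero _ h4, G_tw_zero _ h4]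
        exact ⟨le_refl _, fun _ R _ F C => Or.inl rfl⟩
      · have h5 : cb r al (BT.node a.shape b.shape) ≤ 1 := by
          rw [hcn, if_pos (by omega)]
          split_ifs <;> omega
        rw [if_neg h3, if_neg h3]
        exact G_one (LT.node a b) (by omega)
    · have h6 : ¬ cb r al a.shape + cb r al b.shape = 0 := by omega
      rw [if_neg h6] at hcn
      have ga := G_ge r al a (fun C hC => h2 C (LT.Cl.left b hC))
      have gb := G_ge r al b (fun C hC => h2 C (LT.Cl.right a hC))
      rw [G_mk1_node, LT.shape, hcn] at h1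
      obtain ⟨a1, a2⟩ := iha ⟨by omega, fun C hC => h2 C (LT.Cl.left b hC)⟩
      obtain ⟨b1, b2⟩ := ihb ⟨by omega, fun C hC => h2 C (LT.Cl.right a hC)⟩
      have h7 : ¬ mk1 (LT.node a b) = 0 := by rw [G_mk1_node]; omega
      rw [LT.shape, G_mpc_node a b h7, G_tw_node a b h7, nu, if_neg h0, th, if_neg h0, List.length_append]
      refine ⟨by omega, fun he R _ F C => ?_⟩
      exact G_pm_br (a2 (by omega) F C) (b2 (by omega) F C)

end

end Pool.Agent.Bht.BK.AQ
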