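import Pool.Agent.Bht.AQ.W

namespace Pool.Agent.Bht.BK.AQ

open Pool.Agent.H25 Pool.Agent.Bht.BK.CZ

universe u

section nat5
variable {K R : Type*} [Field K] [Ring R] [Algebra K R]

/-- block `m` with the tree `S` -/
def nat5_blk (m : ℕ) (S : LT ℕ) : LT L1 := LT.map (fun i => (Sum.inr (m, i) : L1)) S

/-- natural labelling of a marked tree -/
def nat5_lab (S : ℕ → LT ℕ) : MT2 → ℕ → ℕ → LT L1
  | MT2.mark, k, _ => LT.leaf (Sum.inl k)
  | MT2.node a b, k, m => LT.node (nat5_lab S a k m) (nat5_lab S b (k + a.marks) (m + a.hangs.length))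
  | MT2.hr a _, k, m => LT.node (nat5_lab S a k m) (nat5_blk (m + a.hangs.length) (S (m + a.hangs.length)))
  | MT2.hl _ a, k, m => LT.node (nat5_blk m (S m)) (nat5_lab S a k (m + 1))

/-- natural labelling of a list of items -/
def nat5_labL (S : ℕ → LT ℕ) : List I1 → ℕ → ℕ → List (LT L1)
  | [], _, _ => []
  | Sum.inl M :: its, k, m => nat5_lab S M k m :: nat5_labL S its (k + M.marks) (m + M.hangs.length)
  | Sum.inr _ :: its, k, m => nat5_blk m (S m) :: nat5_labL S its k (m + 1)

private lemma nat5_fm {l : List L1} {j : ℕ} (h : ∀ x ∈ l, ¬ inb j x) : l.filterMap (bl j) = [] := by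
  rw [List.filterMap_eq_nil_iff]
  intro x hx
  have := h x hx
  rcases x with k | ⟨a, k⟩
  · rfl
  · simp only [inb] at this
    simp only [bl, if_neg this]

/-- the letters are in the blocks `m, ..., m' - 1` -/
private def nat5_in (m m' : ℕ) (l : List L1) : Prop := ∀ x ∈ l, ∀ j, inb j x → m ≤ j ∧ j < m'

/-- the scalar -/
private def nat5_sc (J : ℕ) (S : ℕ → LT ℕ) (m m' : ℕ) (κ : ℕ → List ℕ → K) : K :=
  ∏ j ∈ Finset.range J, if m ≤ j ∧ j < m' then (S j).val (κ j) else κ j []

private lemma nat5_sc_mul (J : ℕ) (S : ℕ → LT ℕ) (m m1 m2 : ℕ) (h1 : m ≤ m1) (h2 : m1 ≤ m2)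
    (κ : ℕ → List ℕ → K) :
    nat5_sc J S m m1 (fun j => if m ≤ j ∧ j < m1 then κ j else fun _ => 1) *
      nat5_sc J S m1 m2 (fun j => if m ≤ j ∧ j < m1 then fun _ => 1 else κ j) = nat5_sc J S m m2 κ := by
  unfold nat5_sc
  rw [← Finset.prod_mul_distrib]
  refine Finset.prod_congr rfl (fun j _ => ?_)
  by_cases ha : m ≤ j ∧ j < m1
  · have hb : ¬ (m1 ≤ j ∧ j < m2) := by omega
    have hc : m ≤ j ∧ j < m2 := by omega
    simp only [if_pos ha, if_neg hb, if_pos hc, mul_one]
  · by_cases hb : m1 ≤ j ∧ j < m2
    · have hc : m ≤ j ∧ j < m2 := by omega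
      simp only [if_neg ha, if_pos hb, if_pos hc, one_mul]
    · have hc : ¬ (m ≤ j ∧ j < m2) := by omega
      simp only [if_neg ha, if_neg hb, if_neg hc, one_mul]

open Classical in
private lemma nat5_split1 (D : Dt K R) (κ : ℕ → List ℕ → K) (p q : List L1) (m m1 m2 : ℕ)
    (hp : nat5_in m m1 p) (hq : nat5_in m1 m2 q) :
    D.F κ (p ++ q) = D.F (fun j => if m ≤ j ∧ j < m1 then κ j else fun _ => 1) p *
      D.F (fun j => if m ≤ j ∧ j < m1 then fun _ => 1 else κ j) q := by
  have := F_split D κ p q (fun j => m ≤ j ∧ j < m1) ?_ ?_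
  · rw [this]
    congr 2
    · funext j
      congr
    · funext j
      congr
  · intro j _ hj
    exact nat5_fm (fun x hx hb => hj (hp x hx j hb))
  · intro j _ hj
    refine nat5_fm (fun x hx hb => ?_)
    have := hq x hx j hb
    omega

open Classical in
private lemma nat5_split2 (D : Dt K R) (κ : ℕ → List ℕ → K) (p q : List L1) (m m1 m2 : ℕ)
    (hp : nat5_in m m1 p) (hq : nat5_in m1 m2 q) :
    D.F κ (q ++ p) = D.F (fun j => if m ≤ j ∧ j < m1 then fun _ => 1 else κ j) q *
      D.F (fun j => if m ≤ j ∧ j < m1 then κ j else fun _ => 1) p := by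
  have := F_split D κ q p (fun j => ¬ (m ≤ j ∧ j < m1)) ?_ ?_
  · rw [this]
    congr 2
    · funext j
      by_cases h : m ≤ j ∧ j < m1
      · rw [if_neg (not_not.2 h), if_pos h]
      · rw [if_pos h, if_neg h]
    · funext j
      by_cases h : m ≤ j ∧ j < m1
      · rw [if_neg (not_not.2 h), if_pos h]
      · rw [if_pos h, if_neg h]
  · intro j _ hj
    refine nat5_fm (fun x hx hb => ?_)
    have := hq x hx j hb
    omega
  · intro j _ hj
    exact nat5_fm (fun x hx hb => hj (hp x hx j hb))

/-- the value of a tree -/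
private def nat5_P (D : Dt K R) (S : ℕ → LT ℕ) (m m' : ℕ) (L : LT L1) (X : R) : Prop :=
  nat5_in m m' L.leaves ∧ ∀ κ : ℕ → List ℕ → K, vl L (D.F κ) = nat5_sc D.J S m m' κ • X

private lemma nat5_node (D : Dt K R) (S : ℕ → LT ℕ) {m m1 m2 : ℕ} (h1 : m ≤ m1) (h2 : m1 ≤ m2) {a b : LT L1}
    {X Y : R} (ha : nat5_P D S m m1 a X) (hb : nat5_P D S m1 m2 b Y) :
    nat5_P D S m m2 (LT.node a b) (X * Y - Y * X) := by
  constructor
  · intro x hx j hj
    rw [LT.leaves, List.mem_append] at hx
    rcases hx with hx | hx
    · have := ha.1 x hx j hj; omega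
    · have := hb.1 x hx j hj; omega
  · intro κ
    rw [vl]
    have e1 : vl a (fun p => vl b (fun q => D.F κ (p ++ q))) =
        vl a (D.F (fun j => if m ≤ j ∧ j < m1 then κ j else fun _ => 1)) *
          vl b (D.F (fun j => if m ≤ j ∧ j < m1 then fun _ => 1 else κ j)) := by
      rw [← vl_mul_right]
      refine vl_congr _ (fun p hp => ?_)
      rw [← vl_mul_left]
      refine vl_congr _ (fun q hq => ?_)
      exact nat5_split1 D κ p q m m1 m2 (fun x hx => ha.1 x (hp.mem_iff.1 hx)) (fun x hx => hb.1 x (hq.mem_iff.1 hx))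
    have e2 : vl b (fun q => vl a (fun p => D.F κ (q ++ p))) =
        vl b (D.F (fun j => if m ≤ j ∧ j < m1 then fun _ => 1 else κ j)) *
          vl a (D.F (fun j => if m ≤ j ∧ j < m1 then κ j else fun _ => 1)) := by
      rw [← vl_mul_right]
      refine vl_congr _ (fun q hq => ?_)
      rw [← vl_mul_left]
      refine vl_congr _ (fun p hp => ?_)
      exact nat5_split2 D κ p q m m1 m2 (fun x hx => ha.1 x (hp.mem_iff.1 hx)) (fun x hx => hb.1 x (hq.mem_iff.1 hx))
    rw [e1, e2, ha.2, hb.2, smul_mul_smul_comm, smul_mul_smul_comm, nat5_sc_mul D.J S m m1 m2 h1 h2 κ,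
      mul_comm (nat5_sc D.J S m1 m2 _), nat5_sc_mul D.J S m m1 m2 h1 h2 κ, smul_sub]

omit [Field K] [Algebra K R] in
private lemma nat5_vis (D : Dt K R) (w : List ℕ) (n : ℕ) (hn : 1 ≤ n) (h : w.Perm (List.range n)) :
    ((w.map (fun i => if i = 0 then D.c else (1 : R))).prod) = D.c := by
  have key : ∀ l : List ℕ, l.Nodup → ((l.map (fun i => if i = 0 then D.c else (1 : R))).prod) =
      if 0 ∈ l then D.c else 1 := by
    intro l
    induction l with
    | nil => intro _; simp
    | cons a l ih =>
      intro hl
      rw [List.nodup_cons] at hl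
      rw [List.map_cons, List.prod_cons, ih hl.2]
      by_cases ha : a = 0
      · subst ha
        simp [hl.1]
      · have : (0 : ℕ) ≠ a := fun e => ha e.symm
        simp [ha, this]
  rw [key w (h.nodup_iff.2 List.nodup_range), if_pos]
  rw [h.mem_iff, List.mem_range]
  omega

private lemma nat5_blkP (D : Dt K R) (S : ℕ → LT ℕ) {m : ℕ} (hm : m < D.J) {n : ℕ} (hn : 1 ≤ n)
    (hS : (S m).leaves = List.range n) : nat5_P D S m (m + 1) (nat5_blk m (S m)) D.c := by
  constructor
  · intro x hx j hj
    rw [nat5_blk, leaves_map, List.mem_map] at hx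
    obtain ⟨i, _, rfl⟩ := hx
    simp only [inb] at hj
    omega
  · intro κ
    rw [nat5_blk, vl_map]
    have e : vl (S m) (fun w => D.F κ (w.map (fun i => (Sum.inr (m, i) : L1)))) =
        vl (S m) (fun w => (κ m w) • ((∏ j ∈ (Finset.range D.J).erase m, κ j []) • D.c)) := by
      refine vl_congr _ (fun w hw => ?_)
      rw [hS] at hw
      rw [Dt.F]
      have e1 : (w.map (fun i => (Sum.inr (m, i) : L1))).map D.vis =
          w.map (fun i => if i = 0 then D.c else (1 : R)) := by
        rw [List.map_map]
        rfl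
      rw [e1, nat5_vis D w n hn hw, ← Finset.mul_prod_erase _ _ (Finset.mem_range.2 hm), smul_smul]
      congr 2
      · congr 1
        rw [List.filterMap_map]
        have : (bl m ∘ fun i => (Sum.inr (m, i) : L1)) = some := by
          funext i
          simp [bl]
        rw [this, List.filterMap_some]
      · refine Finset.prod_congr rfl (fun j hj => ?_)
        congr 1
        apply nat5_fm
        intro x hx
        rw [List.mem_map] at hx
        obtain ⟨i, _, rfl⟩ := hx
        have := (Finset.mem_erase.1 hj).1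
        simp only [inb]
        omega
    rw [e]
    have e2 := vl_hom (R := K) (S := R)
      ((LinearMap.toSpanSingleton K R ((∏ j ∈ (Finset.range D.J).erase m, κ j []) • D.c)).toAddMonoidHom) (S m)
      (κ m)
    have e3 : vl (S m) (fun w => (κ m w) • ((∏ j ∈ (Finset.range D.J).erase m, κ j []) • D.c)) =
        (vl (S m) (κ m)) • ((∏ j ∈ (Finset.range D.J).erase m, κ j []) • D.c) := e2.symm
    rw [e3, vl_val, smul_smul, nat5_sc, ← Finset.mul_prod_erase _ _ (Finset.mem_range.2 hm)]
    congr 2
    · rw [if_pos (by omega)]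
    · refine Finset.prod_congr rfl (fun j hj => ?_)
      have := (Finset.mem_erase.1 hj).1
      rw [if_neg (by omega)]

private lemma nat5_tree (D : Dt K R) (S : ℕ → LT ℕ) (sz : ℕ → ℕ) (hsz : ∀ j < D.J, 1 ≤ sz j)
    (hS : ∀ j < D.J, (S j).leaves = List.range (sz j)) : ∀ (M : MT2) (k m : ℕ), m + M.hangs.length ≤ D.J →
    nat5_P D S m (m + M.hangs.length) (nat5_lab S M k m) (lam D.ρ D.c M k)
  | MT2.mark, k, m, _ => by
    constructor
    · intro x hx j hj
      simp only [nat5_lab, LT.leaves, List.mem_singleton] at hx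
      subst hx
      exact hj.elim
    · intro κ
      simp only [nat5_lab, vl, Dt.F, nat5_sc, lam]
      congr 1
      · refine Finset.prod_congr rfl (fun j _ => ?_)
        rw [if_neg (by simp only [MT2.hangs, List.length_nil]; omega)]
        rfl
      · simp [Dt.vis]
  | MT2.node a b, k, m, h => by
    simp only [MT2.hangs, List.length_append] at h
    have ha := nat5_tree D S sz hsz hS a k m (by omega)
    have hb := nat5_tree D S sz hsz hS b (k + a.marks) (m + a.hangs.length) (by omega)
    have := nat5_node D S (by omega) (by omega) ha hb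
    simpa only [nat5_lab, lam, MT2.hangs, List.length_append, add_assoc] using this
  | MT2.hr a s, k, m, h => by
    simp only [MT2.hangs, List.length_append, List.length_singleton] at h
    have ha := nat5_tree D S sz hsz hS a k m (by omega)
    have hb := nat5_blkP D S (m := m + a.hangs.length) (by omega) (hsz _ (by omega)) (hS _ (by omega))
    have := nat5_node D S (by omega) (by omega) ha hb
    simpa only [nat5_lab, lam, MT2.hangs, List.length_append, List.length_singleton, add_assoc] using this
  | MT2.hl s a, k, m, h => by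
    simp only [MT2.hangs, List.length_cons] at h
    have ha := nat5_tree D S sz hsz hS a k (m + 1) (by omega)
    have hb := nat5_blkP D S (m := m) (by omega) (hsz _ (by omega)) (hS _ (by omega))
    have := nat5_node D S (by omega) (by omega) hb ha
    have e : m + 1 + a.hangs.length = m + (a.hangs.length + 1) := by omega
    rw [e] at this
    simpa only [nat5_lab, lam, MT2.hangs, List.length_cons] using this

private lemma nat5_cons (D : Dt K R) (S : ℕ → LT ℕ) {m m1 m2 : ℕ} (h1 : m ≤ m1) (h2 : m1 ≤ m2) {a : LT L1}
    {Ls : List (LT L1)} {X Y : R} (ha : nat5_P D S m m1 a X)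
    (hb : nat5_in m1 m2 (Ls.flatMap LT.leaves) ∧ ∀ κ : ℕ → List ℕ → K, pl Ls (D.F κ) = nat5_sc D.J S m1 m2 κ • Y) :
    nat5_in m m2 ((a :: Ls).flatMap LT.leaves) ∧
      ∀ κ : ℕ → List ℕ → K, pl (a :: Ls) (D.F κ) = nat5_sc D.J S m m2 κ • (X * Y) := by
  constructor
  · intro x hx j hj
    rw [List.flatMap_cons, List.mem_append] at hx
    rcases hx with hx | hx
    · have := ha.1 x hx j hj; omega
    · have := hb.1 x hx j hj; omega
  · intro κ
    rw [pl]
    have e1 : vl a (fun p => pl Ls (fun q => D.F κ (p ++ q))) =
        vl a (D.F (fun j => if m ≤ j ∧ j < m1 then κ j else fun _ => 1)) *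
          pl Ls (D.F (fun j => if m ≤ j ∧ j < m1 then fun _ => 1 else κ j)) := by
      rw [← vl_mul_right]
      refine vl_congr _ (fun p hp => ?_)
      rw [← pl_mul_left]
      refine pl_congr _ (fun q hq => ?_)
      exact nat5_split1 D κ p q m m1 m2 (fun x hx => ha.1 x (hp.mem_iff.1 hx)) (fun x hx => hb.1 x (hq.mem_iff.1 hx))
    rw [e1, ha.2, hb.2, smul_mul_smul_comm, nat5_sc_mul D.J S m m1 m2 h1 h2 κ]

private lemma nat5_list (D : Dt K R) (S : ℕ → LT ℕ) (sz : ℕ → ℕ) (hsz : ∀ j < D.J, 1 ≤ sz j)
    (hS : ∀ j < D.J, (S j).leaves = List.range (sz j)) : ∀ (its : List I1) (k m : ℕ),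
    m + (its.flatMap I1.hangs).length ≤ D.J →
    nat5_in m (m + (its.flatMap I1.hangs).length) ((nat5_labL S its k m).flatMap LT.leaves) ∧
      ∀ κ : ℕ → List ℕ → K, pl (nat5_labL S its k m) (D.F κ) =
        nat5_sc D.J S m (m + (its.flatMap I1.hangs).length) κ • lamL D.ρ D.c its k
  | [], k, m, _ => by
    constructor
    · intro x hx
      simp [nat5_labL] at hx
    · intro κ
      simp only [nat5_labL, pl, Dt.F, nat5_sc, lamL]
      congr 1
      refine Finset.prod_congr rfl (fun j _ => ?_)
      rw [if_neg (by simp only [List.flatMap_nil, List.length_nil]; omega)]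
      rfl
  | Sum.inl M :: its, k, m, h => by
    have e : ((Sum.inl M :: its).flatMap I1.hangs).length = M.hangs.length + (its.flatMap I1.hangs).length := by
      rw [List.flatMap_cons, List.length_append]
      rfl
    rw [e] at h ⊢
    have ha := nat5_tree D S sz hsz hS M k m (by omega)
    have hb := nat5_list D S sz hsz hS its (k + M.marks) (m + M.hangs.length) (by omega)
    have := nat5_cons D S (by omega) (by omega) ha hb
    rw [← add_assoc]
    exact this
  | Sum.inr s :: its, k, m, h => by
    have e : ((Sum.inr s :: its).flatMap I1.hangs).length = 1 + (its.flatMap I1.hangs).length := by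
      rw [List.flatMap_cons, List.length_append]
      rfl
    rw [e] at h ⊢
    have ha := nat5_blkP D S (m := m) (by omega) (hsz _ (by omega)) (hS _ (by omega))
    have hb := nat5_list D S sz hsz hS its k (m + 1) (by omega)
    have := nat5_cons D S (by omega) (by omega) ha hb
    rw [← add_assoc]
    exact this

/-! ### letters -/

private def nat5_all (sz : ℕ → ℕ) (k k' m m' : ℕ) : List L1 :=
  (List.range' k k').map Sum.inl ++
    (List.range' m m').flatMap (fun j => (List.range (sz j)).map (fun i => (Sum.inr (j, i) : L1)))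

private lemma nat5_all_add (sz : ℕ → ℕ) (k k1 k2 m m1 m2 : ℕ) :
    (nat5_all sz k k1 m m1 ++ nat5_all sz (k + k1) k2 (m + m1) m2).Perm (nat5_all sz k (k1 + k2) m (m1 + m2)) := by
  unfold nat5_all
  rw [← List.range'_append_1, ← List.range'_append_1, List.map_append, List.flatMap_append]
  simp only [List.append_assoc]
  refine List.Perm.append_left _ ?_
  rw [← List.append_assoc, ← List.append_assoc]
  exact List.Perm.append_right _ List.perm_append_comm

private lemma nat5_tree_leaves (S : ℕ → LT ℕ) (sz : ℕ → ℕ) (J : ℕ)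
    (hS : ∀ j < J, (S j).leaves = List.range (sz j)) : ∀ (M : MT2) (k m : ℕ), m + M.hangs.length ≤ J →
    ((nat5_lab S M k m).leaves).Perm (nat5_all sz k M.marks m M.hangs.length)
  | MT2.mark, k, m, _ => by
    simp [nat5_lab, LT.leaves, nat5_all, MT2.marks, MT2.hangs]
  | MT2.node a b, k, m, h => by
    simp only [MT2.hangs, List.length_append] at h
    have ha := nat5_tree_leaves S sz J hS a k m (by omega)
    have hb := nat5_tree_leaves S sz J hS b (k + a.marks) (m + a.hangs.length) (by omega)
    have := (ha.append hb).trans (nat5_all_add sz k a.marks b.marks m a.hangs.length b.hangs.length)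
    simpa only [nat5_lab, LT.leaves, MT2.marks, MT2.hangs, List.length_append] using this
  | MT2.hr a s, k, m, h => by
    simp only [MT2.hangs, List.length_append, List.length_singleton] at h
    have ha := nat5_tree_leaves S sz J hS a k m (by omega)
    have hb : (nat5_blk (m + a.hangs.length) (S (m + a.hangs.length))).leaves =
        nat5_all sz (k + a.marks) 0 (m + a.hangs.length) 1 := by
      rw [nat5_blk, leaves_map, hS _ (by omega)]
      simp [nat5_all]
    have := (ha.append (List.Perm.of_eq hb)).trans (nat5_all_add sz k a.marks 0 m a.hangs.length 1)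
    simpa only [nat5_lab, LT.leaves, MT2.marks, MT2.hangs, List.length_append, List.length_singleton, add_zero]
      using this
  | MT2.hl s a, k, m, h => by
    simp only [MT2.hangs, List.length_cons] at h
    have ha := nat5_tree_leaves S sz J hS a k (m + 1) (by omega)
    have hb : (nat5_blk m (S m)).leaves = nat5_all sz k 0 m 1 := by
      rw [nat5_blk, leaves_map, hS _ (by omega)]
      simp [nat5_all]
    have := ((List.Perm.of_eq hb).append ha).trans (nat5_all_add sz k 0 a.marks m 1 a.hangs.length)
    simpa only [nat5_lab, LT.leaves, MT2.marks, MT2.hangs, List.length_cons, zero_add, add_comm 1] using this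

private lemma nat5_list_leaves (S : ℕ → LT ℕ) (sz : ℕ → ℕ) (J : ℕ)
    (hS : ∀ j < J, (S j).leaves = List.range (sz j)) : ∀ (its : List I1) (k m : ℕ),
    m + (its.flatMap I1.hangs).length ≤ J →
    ((nat5_labL S its k m).flatMap LT.leaves).Perm
      (nat5_all sz k (its.map I1.marks).sum m (its.flatMap I1.hangs).length)
  | [], k, m, _ => by
    simp [nat5_labL, nat5_all]
  | Sum.inl M :: its, k, m, h => by
    have e : ((Sum.inl M :: its).flatMap I1.hangs).length = M.hangs.length + (its.flatMap I1.hangs).length := by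
      rw [List.flatMap_cons, List.length_append]
      rfl
    rw [e] at h ⊢
    have ha := nat5_tree_leaves S sz J hS M k m (by omega)
    have hb := nat5_list_leaves S sz J hS its (k + M.marks) (m + M.hangs.length) (by omega)
    have := (ha.append hb).trans
      (nat5_all_add sz k M.marks (its.map I1.marks).sum m M.hangs.length (its.flatMap I1.hangs).length)
    rw [nat5_labL, List.flatMap_cons, List.map_cons, List.sum_cons]
    exact this
  | Sum.inr s :: its, k, m, h => by
    have e : ((Sum.inr s :: its).flatMap I1.hangs).length = 1 + (its.flatMap I1.hangs).length := by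
      rw [List.flatMap_cons, List.length_append]
      rfl
    rw [e] at h ⊢
    have ha : (nat5_blk m (S m)).leaves = nat5_all sz k 0 m 1 := by
      rw [nat5_blk, leaves_map, hS _ (by omega)]
      simp [nat5_all]
    have hb := nat5_list_leaves S sz J hS its k (m + 1) (by omega)
    have := ((List.Perm.of_eq ha).append hb).trans
      (nat5_all_add sz k 0 (its.map I1.marks).sum m 1 (its.flatMap I1.hangs).length)
    rw [nat5_labL, List.flatMap_cons, List.map_cons, List.sum_cons]
    exact this

/-! ### shapes -/

private lemma nat5_tree_shape (S : ℕ → LT ℕ) : ∀ (M : MT2) (k m : ℕ),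
    (∀ i (hi : i < M.hangs.length), (S (m + i)).shape = M.hangs[i]) → (nat5_lab S M k m).shape = M.shape
  | MT2.mark, k, m, _ => rfl
  | MT2.node a b, k, m, h => by
    have ha := nat5_tree_shape S a k m (fun i hi => by
      rw [h i (by simp only [MT2.hangs, List.length_append]; omega)]
      exact List.getElem_append_left _)
    have hb := nat5_tree_shape S b (k + a.marks) (m + a.hangs.length) (fun i hi => by
      have := h (a.hangs.length + i) (by simp only [MT2.hangs, List.length_append]; omega)
      rw [add_assoc, this]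
      simp only [MT2.hangs]
      rw [List.getElem_append_right (by omega)]
      congr 1
      omega)
    simp only [nat5_lab, LT.shape, MT2.shape, ha, hb]
  | MT2.hr a s, k, m, h => by
    have ha := nat5_tree_shape S a k m (fun i hi => by
      rw [h i (by simp only [MT2.hangs, List.length_append]; omega)]
      exact List.getElem_append_left _)
    have hb : (S (m + a.hangs.length)).shape = s := by
      rw [h a.hangs.length (by simp [MT2.hangs])]
      simp [MT2.hangs]
    simp only [nat5_lab, LT.shape, MT2.shape, ha, nat5_blk, shape_map, hb]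
  | MT2.hl s a, k, m, h => by
    have ha := nat5_tree_shape S a k (m + 1) (fun i hi => by
      have := h (i + 1) (by simp only [MT2.hangs, List.length_cons]; omega)
      rw [show m + 1 + i = m + (i + 1) by omega, this]
      simp [MT2.hangs])
    have hb : (S m).shape = s := by
      have := h 0 (by simp [MT2.hangs])
      simpa [MT2.hangs] using this
    simp only [nat5_lab, LT.shape, MT2.shape, ha, nat5_blk, shape_map, hb]

private lemma nat5_list_shape (S : ℕ → LT ℕ) : ∀ (its : List I1) (k m : ℕ),
    (∀ i (hi : i < (its.flatMap I1.hangs).length), (S (m + i)).shape = (its.flatMap I1.hangs)[i]) →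
    (nat5_labL S its k m).map LT.shape = its.map I1.shape
  | [], k, m, _ => rfl
  | Sum.inl M :: its, k, m, h => by
    have e : (Sum.inl M :: its).flatMap I1.hangs = M.hangs ++ its.flatMap I1.hangs := rfl
    have ha := nat5_tree_shape S M k m (fun i hi => by
      rw [h i (by rw [e, List.length_append]; omega)]
      simp only [e]
      exact List.getElem_append_left _)
    have hb := nat5_list_shape S its (k + M.marks) (m + M.hangs.length) (fun i hi => by
      have := h (M.hangs.length + i) (by rw [e, List.length_append]; omega)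
      rw [add_assoc, this]
      simp only [e]
      rw [List.getElem_append_right (by omega)]
      congr 1
      omega)
    rw [nat5_labL, List.map_cons, List.map_cons, ha, hb]
    rfl
  | Sum.inr s :: its, k, m, h => by
    have e : (Sum.inr s :: its).flatMap I1.hangs = s :: its.flatMap I1.hangs := rfl
    have ha : (S m).shape = s := by
      have := h 0 (by rw [e]; simp)
      simpa [e] using this
    have hb := nat5_list_shape S its k (m + 1) (fun i hi => by
      have := h (i + 1) (by rw [e, List.length_cons]; omega)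
      rw [show m + 1 + i = m + (i + 1) by omega, this]
      simp [e])
    rw [nat5_labL, List.map_cons, List.map_cons, hb, nat5_blk, shape_map, ha]
    rfl

end nat5

/-! ## Nat the natural labelling -/
theorem nat_value {K R : Type*} [Field K] [Ring R] [Algebra K R] (ρ : ℕ → R) (c : R) (its : List I1)
    (ψ : ℕ → List ℕ → K)
    (H1 : ∀ j (hj : j < (its.flatMap I1.hangs).length), ∃ S : LT ℕ, S.shape = (its.flatMap I1.hangs)[j] ∧
      S.leaves = List.range ((its.flatMap I1.hangs)[j]).lv ∧ S.val (ψ j) ≠ 0) :
    ∃ Ls : List (LT L1), Ls.map LT.shape = its.map I1.shape ∧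
      ∃ s : K, s ≠ 0 ∧ pl Ls (dtOf (K := K) ρ c its ψ).Φ = s • lamL ρ c its 0 := by
  classical
  set hl := its.flatMap I1.hangs with hhl
  choose S0 hS0 using H1
  let S : ℕ → LT ℕ := fun j => if h : j < hl.length then S0 j h else LT.leaf 0
  have eS : ∀ j (h : j < hl.length), S j = S0 j h := fun j h => dif_pos h
  set D := dtOf (K := K) ρ c its ψ with hD
  have hJ : D.J = hl.length := rfl
  have hsz : ∀ j < D.J, D.sz j = (hl.getD j BT.leaf).lv := fun j _ => rfl
  have hsz' : ∀ j (h : j < hl.length), D.sz j = (hl[j]).lv := by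
    intro j h
    rw [hsz j h, List.getD_eq_getElem _ _ h]
  have hS : ∀ j < D.J, (S j).leaves = List.range (D.sz j) := by
    intro j h
    rw [eS j h, (hS0 j h).2.1, hsz' j h]
  have h1 : ∀ j < D.J, 1 ≤ D.sz j := by
    intro j h
    rw [hsz' j h]
    exact BT.lv_pos _
  have hv := nat5_list D S D.sz h1 hS its 0 0 (by rw [zero_add, hJ])
  have hlv := nat5_list_leaves S D.sz D.J hS its 0 0 (by rw [zero_add, hJ])
  refine ⟨nat5_labL S its 0 0, nat5_list_shape S its 0 0 (fun i hi => ?_), nat5_sc D.J S 0 (0 + hl.length) ψ, ?_, ?_⟩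
  · rw [zero_add, eS i hi, (hS0 i hi).1]
  · unfold nat5_sc
    rw [Finset.prod_ne_zero_iff]
    intro j hj
    rw [Finset.mem_range] at hj
    rw [if_pos (by omega), eS j hj]
    exact (hS0 j hj).2.2
  · rw [pl_F, if_pos]
    · exact hv.2 ψ
    · refine hlv.trans (List.Perm.of_eq ?_)
      rw [nat5_all, Dt.all, ← List.range_eq_range', ← List.range_eq_range']
      rfl

end Pool.Agent.Bht.BK.AQ
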