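import Pool.Agent.Bht.AQ.W

namespace Pool.Agent.Bht.BK.AQ

open Pool.Agent.H25 Pool.Agent.Bht.BK.CZ

universe u

/-! ## O one-to-one value -/

private lemma O_mpc_of (L : LT L1) (h : mk1 L = 0) : mpc L = [L] := by
  cases L with
  | leaf x => rw [mpc, if_pos h]
  | node a b => rw [mpc, if_pos h]

private lemma O_tw_of (L : LT L1) (h : mk1 L = 0) : tw L = LW.c := by
  cases L with
  | leaf x => rw [tw, if_pos h]
  | node a b => rw [tw, if_pos h]

private lemma O_mem_mpc (L : LT L1) (j : ℕ) (x : L1) (hx : x ∈ L.leaves) (hj : inb j x) :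
    ∃ C ∈ mpc L, x ∈ C.leaves := by
  induction L with
  | leaf y =>
    simp only [LT.leaves, List.mem_singleton] at hx
    subst hx
    have h0 : mk1 (LT.leaf x) = 0 := by
      cases x with
      | inl k => exact absurd hj (by simp [inb])
      | inr p => simp [mk1, LT.leaves]
    exact ⟨LT.leaf x, by rw [O_mpc_of _ h0]; exact List.mem_singleton.2 rfl, by simp [LT.leaves]⟩
  | node a b iha ihb =>
    by_cases h : mk1 (LT.node a b) = 0
    · exact ⟨LT.node a b, by rw [O_mpc_of _ h]; exact List.mem_singleton.2 rfl, hx⟩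
    · rw [mpc, if_neg h]
      simp only [LT.leaves, List.mem_append] at hx
      rcases hx with hx | hx
      · obtain ⟨C, hC, h1⟩ := iha hx
        exact ⟨C, List.mem_append_left _ hC, h1⟩
      · obtain ⟨C, hC, h1⟩ := ihb hx
        exact ⟨C, List.mem_append_right _ hC, h1⟩

private lemma O_bl_none (j : ℕ) (x : L1) (h : ¬ inb j x) : bl j x = none := by
  cases x with
  | inl k => rfl
  | inr p =>
    obtain ⟨a, k⟩ := p
    simp only [inb] at h
    simp [bl, h]

private lemma O_fm_nil (j : ℕ) (w : List L1) (h : ∀ x ∈ w, ¬ inb j x) : w.filterMap (bl j) = [] := by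
  rw [List.filterMap_eq_nil_iff]
  intro x hx
  exact O_bl_none j x (h x hx)

private def O_A (la : List L1) (j : ℕ) : Prop := ∃ x ∈ la, inb j x

open Classical in
private lemma O_split {K R : Type*} [Field K] [Ring R] [Algebra K R] (D : Dt K R) (la lb : List L1)
    (hd : ∀ j, (∃ x ∈ la, inb j x) → ∀ x ∈ lb, ¬ inb j x) (κ : ℕ → List ℕ → K) :
    ∃ κ1 κ2 : ℕ → List ℕ → K, ∀ p q : List L1, p.Perm la → q.Perm lb →
      D.F κ (p ++ q) = D.F κ1 p * D.F κ2 q ∧ D.F κ (q ++ p) = D.F κ2 q * D.F κ1 p := by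
  refine ⟨fun j => if O_A la j then κ j else fun _ => 1,
    fun j => if O_A la j then fun _ => 1 else κ j, ?_⟩
  intro p q hp hq
  have e1 : ∀ j, ¬ O_A la j → p.filterMap (bl j) = [] := fun j hj =>
    O_fm_nil j p (fun x hx hb => hj ⟨x, hp.mem_iff.1 hx, hb⟩)
  have e2 : ∀ j, O_A la j → q.filterMap (bl j) = [] := fun j hj =>
    O_fm_nil j q (fun x hx => hd j hj x (hq.mem_iff.1 hx))
  constructor
  · exact F_split D κ p q (O_A la) (fun j _ hj => e1 j hj) (fun j _ hj => e2 j hj)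
  · have h := F_split D κ q p (fun j => ¬ O_A la j) (fun j _ hj => e2 j (not_not.1 hj))
      (fun j _ hj => e1 j hj)
    rw [h]
    congr 2
    · funext j
      by_cases hj : O_A la j
      · rw [if_pos hj, if_neg (not_not.2 hj)]
      · rw [if_neg hj, if_pos hj]
    · funext j
      by_cases hj : O_A la j
      · rw [if_pos hj, if_neg (not_not.2 hj)]
      · rw [if_neg hj, if_pos hj]

private lemma O_tree {K R : Type*} [Field K] [Ring R] [Algebra K R] (D : Dt K R) (F : R) (hρ : ∀ k, D.ρ k = F)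
    (L : LT L1) (hn : L.leaves.Nodup)
    (h1 : ∀ C ∈ mpc L, ∃ j < D.J, (∀ x ∈ C.leaves, inb j x) ∧ Sum.inr (j, 0) ∈ C.leaves)
    (h2 : (mpc L).Pairwise (fun C C' => ∀ j, (∃ x ∈ C.leaves, inb j x) → ∀ x ∈ C'.leaves, ¬ inb j x))
    (κ : ℕ → List ℕ → K) : ∃ s : K, vl L (D.F κ) = s • (tw L).ev F D.c := by
  induction L generalizing κ with
  | leaf x =>
    by_cases hm : mk1 (LT.leaf x) = 0
    · obtain ⟨j, _, ha, hb⟩ := h1 (LT.leaf x) (by rw [O_mpc_of _ hm]; exact List.mem_singleton.2 rfl)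
      obtain ⟨s, hs⟩ := pure_one D κ (LT.leaf x) j ha hb hn
      refine ⟨s, ?_⟩
      rw [hs, O_tw_of _ hm]
      rfl
    · cases x with
      | inr p => exact absurd (by simp [mk1, LT.leaves]) hm
      | inl k =>
        refine ⟨∏ j ∈ Finset.range D.J, κ j [], ?_⟩
        have e1 : vl (LT.leaf (Sum.inl k)) (D.F κ) = D.F κ [Sum.inl k] := rfl
        have e2 : tw (LT.leaf (Sum.inl k)) = LW.f := by rw [tw, if_neg hm]
        have e3 : ∀ j, List.filterMap (bl j) [Sum.inl k] = [] := fun j => rfl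
        rw [e1, e2, Dt.F]
        simp only [e3, Dt.vis, hρ, LW.ev, List.map_cons, List.map_nil, List.prod_cons, List.prod_nil, mul_one]
  | node a b iha ihb =>
    by_cases hm : mk1 (LT.node a b) = 0
    · obtain ⟨j, _, ha, hb⟩ := h1 (LT.node a b) (by rw [O_mpc_of _ hm]; exact List.mem_singleton.2 rfl)
      obtain ⟨s, hs⟩ := pure_one D κ (LT.node a b) j ha hb hn
      refine ⟨s, ?_⟩
      rw [hs, O_tw_of _ hm]
      rfl
    · rw [mpc, if_neg hm] at h1 h2
      rw [List.pairwise_append] at h2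
      obtain ⟨h2a, h2b, h2c⟩ := h2
      simp only [LT.leaves] at hn
      have hna : a.leaves.Nodup := (List.nodup_append.1 hn).1
      have hnb : b.leaves.Nodup := (List.nodup_append.1 hn).2.1
      have hd : ∀ j, (∃ x ∈ a.leaves, inb j x) → ∀ x ∈ b.leaves, ¬ inb j x := by
        rintro j ⟨x, hx, hjx⟩ y hy hjy
        obtain ⟨C, hC, hxC⟩ := O_mem_mpc a j x hx hjx
        obtain ⟨C', hC', hyC'⟩ := O_mem_mpc b j y hy hjy
        exact h2c C hC C' hC' j ⟨x, hxC, hjx⟩ y hyC' hjy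
      obtain ⟨κ1, κ2, hk⟩ := O_split D a.leaves b.leaves hd κ
      obtain ⟨s, hs⟩ := iha hna (fun C hC => h1 C (List.mem_append_left _ hC)) h2a κ1
      obtain ⟨t, ht⟩ := ihb hnb (fun C hC => h1 C (List.mem_append_right _ hC)) h2b κ2
      refine ⟨s * t, ?_⟩
      have e1 : vl a (fun p => vl b (fun q => D.F κ (p ++ q))) = vl a (D.F κ1) * vl b (D.F κ2) := by
        rw [← vl_mul_right]
        refine vl_congr a (fun p hp => ?_)
        rw [← vl_mul_left]
        exact vl_congr b (fun q hq => (hk p q hp hq).1)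
      have e2 : vl b (fun q => vl a (fun p => D.F κ (q ++ p))) = vl b (D.F κ2) * vl a (D.F κ1) := by
        rw [← vl_mul_right]
        refine vl_congr b (fun q hq => ?_)
        rw [← vl_mul_left]
        exact vl_congr a (fun p hp => (hk p q hp hq).2)
      have e3 : tw (LT.node a b) = LW.br (tw a) (tw b) := by rw [tw, if_neg hm]
      rw [vl, e1, e2, hs, ht, e3, LW.ev, smul_mul_smul_comm, smul_mul_smul_comm, mul_comm t s, smul_sub]

theorem value_one {K R : Type*} [Field K] [Ring R] [Algebra K R] (D : Dt K R) (F : R) (hρ : ∀ k, D.ρ k = F)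
    (Ls : List (LT L1)) (hn : (Ls.flatMap LT.leaves).Nodup)
    (h1 : ∀ C ∈ Ls.flatMap mpc, ∃ j < D.J, (∀ x ∈ C.leaves, inb j x) ∧ Sum.inr (j, 0) ∈ C.leaves)
    (h2 : (Ls.flatMap mpc).Pairwise (fun C C' => ∀ j, (∃ x ∈ C.leaves, inb j x) → ∀ x ∈ C'.leaves, ¬ inb j x))
    (κ : ℕ → List ℕ → K) : ∃ s : K, pl Ls (D.F κ) = s • (Ls.map (fun L => (tw L).ev F D.c)).prod := by
  induction Ls generalizing κ with
  | nil =>
    refine ⟨∏ j ∈ Finset.range D.J, κ j [], ?_⟩
    have e1 : pl [] (D.F κ) = D.F κ [] := rfl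
    rw [e1, Dt.F]
    simp
  | cons L Ls ih =>
    rw [List.flatMap_cons] at hn h1 h2
    rw [List.pairwise_append] at h2
    obtain ⟨h2a, h2b, h2c⟩ := h2
    have hna : L.leaves.Nodup := (List.nodup_append.1 hn).1
    have hnb : (Ls.flatMap LT.leaves).Nodup := (List.nodup_append.1 hn).2.1
    have hd : ∀ j, (∃ x ∈ L.leaves, inb j x) → ∀ x ∈ Ls.flatMap LT.leaves, ¬ inb j x := by
      rintro j ⟨x, hx, hjx⟩ y hy hjy
      obtain ⟨C, hC, hxC⟩ := O_mem_mpc L j x hx hjx
      obtain ⟨M, hM, hyM⟩ := List.mem_flatMap.1 hy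
      obtain ⟨C', hC', hyC'⟩ := O_mem_mpc M j y hyM hjy
      exact h2c C hC C' (List.mem_flatMap.2 ⟨M, hM, hC'⟩) j ⟨x, hxC, hjx⟩ y hyC' hjy
    obtain ⟨κ1, κ2, hk⟩ := O_split D L.leaves (Ls.flatMap LT.leaves) hd κ
    obtain ⟨s, hs⟩ := O_tree D F hρ L hna (fun C hC => h1 C (List.mem_append_left _ hC)) h2a κ1
    obtain ⟨t, ht⟩ := ih hnb (fun C hC => h1 C (List.mem_append_right _ hC)) h2b κ2
    refine ⟨s * t, ?_⟩
    have e1 : pl (L :: Ls) (D.F κ) = vl L (D.F κ1) * pl Ls (D.F κ2) := by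
      rw [pl, ← vl_mul_right]
      refine vl_congr L (fun p hp => ?_)
      rw [← pl_mul_left]
      exact pl_congr Ls (fun q hq => (hk p q hp hq).1)
    rw [e1, hs, ht, smul_mul_smul_comm, List.map_cons, List.prod_cons]

end Pool.Agent.Bht.BK.AQ
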