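import Pool.Agent.Bht.AQ.Sig
import Pool.Agent.Bht.CZ.C1
import Pool.Agent.Bht.BK.R9

namespace Pool.Agent.Bht.BK.AQ

open Pool.Agent.H25 Pool.Agent.Bht.BK.CZ

universe u

/-! ## Psi block functionals -/
theorem exists_psi' {K : Type*} [Field K] (r : ℕ) (P : Submodule K (TT K)) (s : BT) (h : cb r (alN P) s = 0) :
    s.lv ≤ r ∧ ∃ ψ : List ℕ → K, (∃ S : LT ℕ, S.shape = s ∧ S.leaves = List.range s.lv ∧ S.val ψ ≠ 0) ∧
      (s.lv = r → ∀ S : LT ℕ, S.shape.lv = r → ¬ alN P S.shape → S.val ψ = 0) := by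
  rcases cb_zero r (alN P) s h with h1 | ⟨h1, h2⟩
  · have hb : alN (⊥ : Submodule K (TT K)) s := by
      intro hle
      exact X0_ne_bot (K := K) s (le_bot_iff.1 hle)
    obtain ⟨ψ, hψ, _⟩ := exists_psi (⊥ : Submodule K (TT K)) s hb
    exact ⟨h1.le, ψ, hψ, fun he => absurd he h1.ne⟩
  · obtain ⟨ψ, hψ, hk⟩ := exists_psi P s h2
    exact ⟨h1.le, ψ, hψ, fun _ S _ hS => hk S (not_not.1 hS)⟩

end Pool.Agent.Bht.BK.AQ
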