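import Pool.Agent.Bht.AQ.W

/-! Words of blocks with coefficients in an algebra: normal form of labelled Lie monomials. -/

namespace Pool.Agent.Bht.BK.AQ.S31k

open Pool.Agent.H25 Pool.Agent.Bht.BK

/-- block words with coefficients -/
abbrev BW (R : Type*) [Ring R] := MonoidAlgebra R (ℕ → FreeMonoid ℕ)

/-- commutator evaluation -/
noncomputable def ev {α : Type} {A : Type*} [Ring A] (f : α → A) : BK.LT α → A
  | BK.LT.leaf x => f x
  | BK.LT.node a b => ev f a * ev f b - ev f b * ev f a

lemma val_ev {K : Type*} [Field K] {α : Type} {A : Type*} [Ring A] [Algebra K A] (f : α → A) (L : BK.LT α)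
    (Λ : A →ₗ[K] K) : L.val (fun w => Λ (w.map f).prod) = Λ (ev f L) := by
  induction L generalizing Λ with
  | leaf x => simp [BK.LT.val, ev]
  | node a b iha ihb =>
    simp only [BK.LT.val, ev, map_sub]
    congr 1
    · have h1 : ∀ p : List α, b.val (fun q => Λ ((p ++ q).map f).prod) = Λ ((p.map f).prod * ev f b) := by
        intro p
        have := ihb (Λ ∘ₗ LinearMap.mulLeft K (p.map f).prod)
        simpa [List.map_append, List.prod_append] using this
      simp only [h1]
      have := iha (Λ ∘ₗ LinearMap.mulRight K (ev f b))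
      simpa using this
    · have h1 : ∀ q : List α, a.val (fun p => Λ ((q ++ p).map f).prod) = Λ ((q.map f).prod * ev f a) := by
        intro p
        have := iha (Λ ∘ₗ LinearMap.mulLeft K (p.map f).prod)
        simpa [List.map_append, List.prod_append] using this
      simp only [h1]
      have := ihb (Λ ∘ₗ LinearMap.mulRight K (ev f a))
      simpa using this

section
variable {K : Type*} [Field K] {R : Type*} [Ring R] [Algebra K R]

/-- letter of a block -/
noncomputable def bb (R : Type*) [Ring R] (j i : ℕ) : BW R :=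
  MonoidAlgebra.single (Pi.mulSingle j (FreeMonoid.of i)) 1

/-- coefficient -/
noncomputable def co (u : R) : BW R := MonoidAlgebra.single 1 u

lemma co_mul (u v : R) : co (u * v) = co u * co v := by
  simp [co, MonoidAlgebra.single_mul_single]

lemma co_sub (u v : R) : co (u - v) = co u - co v := by
  simp [co]

lemma co_neg (u : R) : co (-u) = -co u := by
  simp [co]

lemma bb_co (j i : ℕ) (u : R) : bb R j i * co u = co u * bb R j i := by
  simp [co, bb, MonoidAlgebra.single_mul_single]

lemma bb_comm {j k : ℕ} (h : j ≠ k) (i l : ℕ) : Commute (bb R j i) (bb R k l) := by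
  have : Commute (Pi.mulSingle j (FreeMonoid.of i) : ℕ → FreeMonoid ℕ) (Pi.mulSingle k (FreeMonoid.of l)) :=
    Pi.mulSingle_commute h _ _
  show bb R j i * bb R k l = bb R k l * bb R j i
  simp [bb, MonoidAlgebra.single_mul_single, this.eq]

variable (K R) in
/-- subalgebra of a set of blocks -/
noncomputable def adj (S : Set ℕ) : Subalgebra K (BW R) :=
  Algebra.adjoin K {z | ∃ j ∈ S, ∃ i, z = bb R j i}

lemma bb_mem {S : Set ℕ} {j : ℕ} (h : j ∈ S) (i : ℕ) : bb R j i ∈ adj K R S :=
  Algebra.subset_adjoin ⟨j, h, i, rfl⟩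

lemma adj_mono {S T : Set ℕ} (h : S ⊆ T) : adj K R S ≤ adj K R T :=
  Algebra.adjoin_mono (by rintro z ⟨j, hj, i, rfl⟩; exact ⟨j, h hj, i, rfl⟩)

lemma adj_comm {S T : Set ℕ} (h : Disjoint S T) {y z : BW R} (hy : y ∈ adj K R S) (hz : z ∈ adj K R T) :
    y * z = z * y := by
  have h1 : ∀ j ∈ T, ∀ i, Commute (bb R j i) y := by
    intro j hj i
    refine Algebra.adjoin_induction (p := fun y _ => Commute (bb R j i) y) ?_ ?_ ?_ ?_ hy
    · rintro x ⟨k, hk, l, rfl⟩
      exact bb_comm (by rintro rfl; exact Set.disjoint_left.1 h hk hj) _ _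
    · intro r; exact (Algebra.commutes r (bb R j i)).symm
    · intro a b _ _ ha hb; exact ha.add_right hb
    · intro a b _ _ ha hb; exact ha.mul_right hb
  refine Algebra.adjoin_induction (p := fun z _ => y * z = z * y) ?_ ?_ ?_ ?_ hz
  · rintro x ⟨k, hk, l, rfl⟩
    exact (h1 k hk l).symm
  · intro r; exact (Algebra.commutes r y).symm
  · intro a b _ _ ha hb; rw [mul_add, add_mul, ha, hb]
  · intro a b _ _ ha hb; rw [← mul_assoc, ha, mul_assoc, hb, mul_assoc]

lemma adj_co {S : Set ℕ} {y : BW R} (hy : y ∈ adj K R S) (u : R) : y * co u = co u * y := by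
  refine Algebra.adjoin_induction (p := fun y _ => y * co u = co u * y) ?_ ?_ ?_ ?_ hy
  · rintro x ⟨k, hk, l, rfl⟩
    exact bb_co _ _ _
  · intro r; exact Algebra.commutes r (co u)
  · intro a b _ _ ha hb; rw [mul_add, add_mul, ha, hb]
  · intro a b _ _ ha hb; rw [mul_assoc, hb, ← mul_assoc, ha, mul_assoc]

/-- letters: `inl k` is mark `k`, `inr (j, i)` letter `i` of block `j` -/
abbrev Lc := ℕ ⊕ (ℕ × ℕ)

/-- the special letter of a block -/
def spc (j : ℕ) : Lc := Sum.inr (j, 0)

/-- image of a letter -/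
noncomputable def el (m : ℕ → R) (c : R) : Lc → BW R
  | Sum.inl k => co (m k)
  | Sum.inr (j, i) => bb R j i * (if i = 0 then co c else 1)

/-- closed under commutators, `n` counts the marks -/
structure Cl (m : ℕ → R) (c : R) (P : ℕ → R → Prop) : Prop where
  mark : ∀ k, P 1 (m k)
  neg : ∀ n u, P n u → P n (-u)
  cc : ∀ n u, P n u → P n (u * c - c * u)
  br : ∀ n n' u u', P n u → P n' u' → P (n + n') (u * u' - u' * u)

/-- number of marks -/
def mks (l : List Lc) : ℕ := l.countP (fun x => x.isLeft)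

open Classical in
/-- special factor -/
noncomputable def sf (c : R) (j : ℕ) (l : List Lc) : BW R := if spc j ∈ l then co c else 1

lemma sf_pos {c : R} {j : ℕ} {l : List Lc} (h : spc j ∈ l) : sf c j l = co c := if_pos h

lemma sf_neg {c : R} {j : ℕ} {l : List Lc} (h : spc j ∉ l) : sf c j l = 1 := if_neg h

lemma sf_or (c : R) (j : ℕ) (l : List Lc) : sf c j l = co c ∨ sf c j l = 1 := by
  unfold sf; split_ifs <;> simp

/-- normal form -/
def Form (K : Type*) [Field K] [Algebra K R] (c : R) (P : ℕ → R → Prop) (l : List Lc) (T : BW R) : Prop :=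
  T = 0 ∨
  (∃ j y, (∀ x ∈ l, ∃ i, x = Sum.inr (j, i)) ∧ y ∈ adj K R {j} ∧ T = y * sf c j l) ∨
  (∃ y u, 0 < mks l ∧ y ∈ adj K R {j | spc j ∈ l} ∧ P (mks l) u ∧ T = y * co u)

variable {m : ℕ → R} {c : R} {P : ℕ → R → Prop}

lemma mks_append (l l' : List Lc) : mks (l ++ l') = mks l + mks l' := by
  simp [mks]

lemma mks_perm {l l' : List Lc} (h : l.Perm l') : mks l = mks l' := h.countP_eq _

lemma mks_zero {l : List Lc} {j : ℕ} (h : ∀ x ∈ l, ∃ i, x = Sum.inr (j, i)) : mks l = 0 := by
  rw [mks, List.countP_eq_zero]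
  intro x hx
  obtain ⟨i, rfl⟩ := h x hx
  simp

lemma Form.neg (hP : Cl m c P) {l : List Lc} {T : BW R} (h : Form K c P l T) : Form K c P l (-T) := by
  rcases h with h | ⟨j, y, h1, h2, h3⟩ | ⟨y, u, h0, h1, h2, h3⟩
  · left; rw [h, neg_zero]
  · exact Or.inr (Or.inl ⟨j, -y, h1, neg_mem h2, by rw [h3, neg_mul]⟩)
  · exact Or.inr (Or.inr ⟨-y, u, h0, neg_mem h1, h2, by rw [h3, neg_mul]⟩)

lemma Form.perm {l l' : List Lc} (hp : l.Perm l') {T : BW R} (h : Form K c P l T) : Form K c P l' T := by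
  rcases h with h | ⟨j, y, h1, h2, h3⟩ | ⟨y, u, h0, h1, h2, h3⟩
  · exact Or.inl h
  · refine Or.inr (Or.inl ⟨j, y, fun x hx => h1 x (hp.mem_iff.2 hx), h2, ?_⟩)
    have e : sf c j l = sf c j l' := by
      by_cases h : spc j ∈ l
      · rw [sf_pos h, sf_pos (hp.mem_iff.1 h)]
      · rw [sf_neg h, sf_neg (fun h' => h (hp.mem_iff.2 h'))]
    rw [h3, e]
  · refine Or.inr (Or.inr ⟨y, u, by rw [← mks_perm hp]; exact h0, ?_, by rw [← mks_perm hp]; exact h2, h3⟩)
    simpa only [hp.mem_iff] using h1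

lemma Form.pp {l l' : List Lc} (hn : (l ++ l').Nodup) {T T' : BW R}
    {j j' : ℕ} {y y' : BW R}
    (h1 : ∀ x ∈ l, ∃ i, x = Sum.inr (j, i)) (h2 : y ∈ adj K R {j})
    (h3 : T = y * sf c j l)
    (h1' : ∀ x ∈ l', ∃ i, x = Sum.inr (j', i)) (h2' : y' ∈ adj K R {j'})
    (h3' : T' = y' * sf c j' l') :
    Form K c P (l ++ l') (T * T' - T' * T) := by
  by_cases hj : j = j'
  · subst hj
    refine Or.inr (Or.inl ⟨j, y * y' - y' * y, ?_, sub_mem (mul_mem h2 h2') (mul_mem h2' h2), ?_⟩)
    · intro x hx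
      rcases List.mem_append.1 hx with hx | hx
      · exact h1 x hx
      · exact h1' x hx
    · have hd : ¬ (spc j ∈ l ∧ spc j ∈ l') := fun h =>
        List.disjoint_of_nodup_append hn h.1 h.2
      rw [h3, h3']
      by_cases ha : spc j ∈ l <;> by_cases hb : spc j ∈ l'
      · exact absurd ⟨ha, hb⟩ hd
      · rw [sf_pos ha, sf_neg hb, sf_pos (List.mem_append_left _ ha), mul_one, sub_mul,
          mul_assoc y (co c) y', ← adj_co h2' c, ← mul_assoc, ← mul_assoc]
      · rw [sf_neg ha, sf_pos hb, sf_pos (List.mem_append_right _ hb), mul_one, sub_mul,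
          mul_assoc y' (co c) y, ← adj_co h2 c, ← mul_assoc, ← mul_assoc]
      · rw [sf_neg ha, sf_neg hb, sf_neg (by simp [ha, hb]), mul_one, mul_one, mul_one]
  · left
    have hc : y * y' = y' * y := adj_comm (by simpa using hj) h2 h2'
    have e : ∀ (a b : BW R), (a = co c ∨ a = 1) → (b = co c ∨ b = 1) → y * a * (y' * b) = y' * b * (y * a) := by
      intro a b ha hb
      have ha' : a * y' = y' * a := by
        rcases ha with rfl | rfl
        · exact (adj_co h2' c).symm
        · simp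
      have hb' : b * y = y * b := by
        rcases hb with rfl | rfl
        · exact (adj_co h2 c).symm
        · simp
      have hab : a * b = b * a := by
        rcases ha with rfl | rfl <;> rcases hb with rfl | rfl <;> simp
      calc y * a * (y' * b) = y * (a * y') * b := by noncomm_ring
        _ = (y * y') * (a * b) := by rw [ha']; noncomm_ring
        _ = y' * (y * b) * a := by rw [hc, hab]; noncomm_ring
        _ = y' * b * (y * a) := by rw [← hb']; noncomm_ring
    rw [h3, h3', e _ _ (sf_or _ _ _) (sf_or _ _ _), sub_self]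

lemma Form.mp (hP : Cl m c P) {l l' : List Lc} (hn : (l ++ l').Nodup) {T T' : BW R}
    {y : BW R} {u : R} {j' : ℕ} {y' : BW R} (h0 : 0 < mks l)
    (h1 : y ∈ adj K R {j | spc j ∈ l}) (h2 : P (mks l) u) (h3 : T = y * co u)
    (h1' : ∀ x ∈ l', ∃ i, x = Sum.inr (j', i)) (h2' : y' ∈ adj K R {j'})
    (h3' : T' = y' * sf c j' l') :
    Form K c P (l ++ l') (T * T' - T' * T) := by
  have hm1 : adj K R {j | spc j ∈ l} ≤ adj K R {j | spc j ∈ l ++ l'} :=
    adj_mono (fun j hj => List.mem_append_left _ hj)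
  have hk : mks (l ++ l') = mks l := by rw [mks_append, mks_zero h1', add_zero]
  by_cases hs : spc j' ∈ l'
  · have hj : j' ∉ {j | spc j ∈ l} := fun h => List.disjoint_of_nodup_append hn h hs
    have hc : y * y' = y' * y := adj_comm (by simpa using hj) h1 h2'
    refine Or.inr (Or.inr ⟨y * y', u * c - c * u, by rw [hk]; exact h0,
      mul_mem (hm1 h1) (adj_mono (by simpa using Or.inr hs) h2'), by rw [hk]; exact hP.cc _ _ h2, ?_⟩)
    rw [h3, h3', sf_pos hs, co_sub, co_mul, co_mul, mul_sub]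
    congr 1
    · rw [mul_assoc y (co u), ← mul_assoc (co u) y', ← adj_co h2' u]; noncomm_ring
    · rw [mul_assoc y' (co c), ← mul_assoc (co c) y, ← adj_co h1 c, hc]; noncomm_ring
  · by_cases hj : spc j' ∈ l
    · refine Or.inr (Or.inr ⟨y * y' - y' * y, u, by rw [hk]; exact h0, 
        sub_mem (mul_mem (hm1 h1) (adj_mono (by simpa using Or.inl hj) h2'))
          (mul_mem (adj_mono (by simpa using Or.inl hj) h2') (hm1 h1)), by rw [hk]; exact h2, ?_⟩)
      rw [h3, h3', sf_neg hs, mul_one, sub_mul, mul_assoc y (co u), ← adj_co h2' u]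
      noncomm_ring
    · have hc : y * y' = y' * y := adj_comm (by simpa using hj) h1 h2'
      left
      rw [h3, h3', sf_neg hs, mul_one, mul_assoc y (co u), ← adj_co h2' u, ← mul_assoc, hc, mul_assoc, sub_self]

lemma Form.mm (hP : Cl m c P) {l l' : List Lc} (hn : (l ++ l').Nodup) {T T' : BW R}
    {y y' : BW R} {u u' : R} (h0 : 0 < mks l)
    (h1 : y ∈ adj K R {j | spc j ∈ l}) (h2 : P (mks l) u) (h3 : T = y * co u)
    (h1' : y' ∈ adj K R {j | spc j ∈ l'}) (h2' : P (mks l') u') (h3' : T' = y' * co u') :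
    Form K c P (l ++ l') (T * T' - T' * T) := by
  have hdis : Disjoint {j | spc j ∈ l} {j | spc j ∈ l'} :=
    Set.disjoint_left.2 (fun j hj hj' => List.disjoint_of_nodup_append hn hj hj')
  have hc : y * y' = y' * y := adj_comm hdis h1 h1'
  have hm1 : adj K R {j | spc j ∈ l} ≤ adj K R {j | spc j ∈ l ++ l'} :=
    adj_mono (fun j hj => List.mem_append_left _ hj)
  have hm2 : adj K R {j | spc j ∈ l'} ≤ adj K R {j | spc j ∈ l ++ l'} :=
    adj_mono (fun j hj => List.mem_append_right _ hj)
  refine Or.inr (Or.inr ⟨y * y', u * u' - u' * u, by rw [mks_append]; omega,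
    mul_mem (hm1 h1) (hm2 h1'), by rw [mks_append]; exact hP.br _ _ _ _ h2 h2', ?_⟩)
  rw [h3, h3', co_sub, co_mul, co_mul, mul_sub]
  congr 1
  · rw [mul_assoc y (co u), ← mul_assoc (co u) y', ← adj_co h1' u]; noncomm_ring
  · rw [mul_assoc y' (co u'), ← mul_assoc (co u') y, ← adj_co h1 u', hc]; noncomm_ring

/-- KEY -/
theorem key (hP : Cl m c P) (L : BK.LT Lc) (hn : L.leaves.Nodup) : Form K c P L.leaves (ev (el m c) L) := by
  induction L with
  | leaf x =>
    rcases x with k | ⟨j, i⟩
    · exact Or.inr (Or.inr ⟨1, m k, by simp [BK.LT.leaves, mks], one_mem _, by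
        simpa [BK.LT.leaves, mks] using hP.mark k, by simp [ev, el]⟩)
    · refine Or.inr (Or.inl ⟨j, bb R j i, ?_, bb_mem (Set.mem_singleton j) i, ?_⟩)
      · intro x hx; simp [BK.LT.leaves] at hx; exact ⟨i, hx⟩
      · have e : (spc j ∈ (BK.LT.leaf (Sum.inr (j, i) : Lc)).leaves) ↔ i = 0 := by
          simp only [BK.LT.leaves, List.mem_singleton, spc, Sum.inr.injEq, Prod.mk.injEq, true_and]
          exact eq_comm
        unfold sf
        simp only [e]
        rfl
  | node a b iha ihb =>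
    have hn' : (a.leaves ++ b.leaves).Nodup := hn
    have ha := iha hn'.of_append_left
    have hb := ihb hn'.of_append_right
    have hn2 : (b.leaves ++ a.leaves).Nodup := (List.perm_append_comm.nodup_iff).1 hn'
    show Form K c P (a.leaves ++ b.leaves) (ev (el m c) a * ev (el m c) b - ev (el m c) b * ev (el m c) a)
    rcases ha with ha | ⟨j, y, h1, h2, h3⟩ | ⟨y, u, h0, h1, h2, h3⟩
    · left; rw [ha]; simp
    · rcases hb with hb | ⟨j', y', h1', h2', h3'⟩ | ⟨y', u', h0', h1', h2', h3'⟩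
      · left; rw [hb]; simp
      · exact Form.pp hn' h1 h2 h3 h1' h2' h3'
      · have := (Form.mp hP hn2 h0' h1' h2' h3' h1 h2 h3).neg hP
        rw [neg_sub] at this
        exact this.perm List.perm_append_comm
    · rcases hb with hb | ⟨j', y', h1', h2', h3'⟩ | ⟨y', u', h0', h1', h2', h3'⟩
      · left; rw [hb]; simp
      · exact Form.mp hP hn' h0 h1 h2 h3 h1' h2' h3'
      · exact Form.mm hP hn' h0 h1 h2 h3 h1' h2' h3'

end

end Pool.Agent.Bht.BK.AQ.S31k


namespace Pool.Agent.Bht.BK.AQ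

open Pool.Agent.H25 Pool.Agent.Bht.BK.CZ Pool.Agent.Bht.BK.AQ.S31k

universe u

/-! ## S values of trees with marks are combinations of Lie words -/

private lemma s31_vl_ev {α : Type} {A R : Type*} [Ring A] [AddCommGroup R] (f : α → A) (L : LT α) (Λ : A →+ R) :
    vl L (fun w => Λ (w.map f).prod) = Λ (S31k.ev f L) := by
  induction L generalizing Λ with
  | leaf x => simp [vl, S31k.ev]
  | node a b iha ihb =>
    simp only [vl, S31k.ev, map_sub]
    congr 1
    · have h1 : ∀ p : List α, vl b (fun q => Λ ((p ++ q).map f).prod) = Λ ((p.map f).prod * S31k.ev f b) := by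
        intro p
        have := ihb (Λ.comp (AddMonoidHom.mulLeft (p.map f).prod))
        simpa [List.map_append, List.prod_append] using this
      simp only [h1]
      have := iha (Λ.comp (AddMonoidHom.mulRight (S31k.ev f b)))
      simpa using this
    · have h1 : ∀ q : List α, vl a (fun p => Λ ((q ++ p).map f).prod) = Λ ((q.map f).prod * S31k.ev f a) := by
        intro p
        have := iha (Λ.comp (AddMonoidHom.mulLeft (p.map f).prod))
        simpa [List.map_append, List.prod_append] using this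
      simp only [h1]
      have := ihb (Λ.comp (AddMonoidHom.mulRight (S31k.ev f a)))
      simpa using this

section
variable {K R : Type*} [Field K] [Ring R] [Algebra K R]

/-- the functional on block words -/
private noncomputable def s31_Lam (J : ℕ) (κ : ℕ → List ℕ → K) : BW R →ₗ[K] R where
  toFun x := Finsupp.lsum K
    (fun g : ℕ → FreeMonoid ℕ => (∏ j ∈ Finset.range J, κ j (FreeMonoid.toList (g j))) • (LinearMap.id : R →ₗ[K] R)) x.coeff
  map_add' x y := by rw [MonoidAlgebra.coeff_add, map_add]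
  map_smul' a x := by rw [MonoidAlgebra.coeff_smul, map_smul]; rfl

private lemma s31_Lam_single (J : ℕ) (κ : ℕ → List ℕ → K) (g : ℕ → FreeMonoid ℕ) (u : R) :
    s31_Lam J κ (MonoidAlgebra.single g u) = (∏ j ∈ Finset.range J, κ j (FreeMonoid.toList (g j))) • u := by
  show Finsupp.lsum K _ ((MonoidAlgebra.single g u).coeff) = _
  rw [MonoidAlgebra.coeff_single, Finsupp.lsum_single]
  rfl

private noncomputable def s31_mon (w : List L1) : ℕ → FreeMonoid ℕ := fun j => FreeMonoid.ofList (w.filterMap (bl j))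

private lemma s31_word (D : Dt K R) (w : List L1) :
    (w.map (el D.ρ D.c)).prod = MonoidAlgebra.single (s31_mon w) ((w.map D.vis).prod) := by
  induction w with
  | nil =>
    have : s31_mon [] = 1 := by funext j; simp [s31_mon]
    rw [this]; rfl
  | cons x w ih =>
    rw [List.map_cons, List.prod_cons, ih, List.map_cons, List.prod_cons]
    rcases x with k | ⟨j, i⟩
    · have : s31_mon (Sum.inl k :: w) = s31_mon w := by
        funext j; simp only [s31_mon]; rw [List.filterMap_cons_none rfl]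
      rw [this]
      simp [el, co, Dt.vis, MonoidAlgebra.single_mul_single]
    · have : s31_mon (Sum.inr (j, i) :: w) = Pi.mulSingle j (FreeMonoid.of i) * s31_mon w := by
        funext k
        by_cases h : j = k
        · subst h; simp [s31_mon, bl]
        · simp [s31_mon, bl, h]
      rw [this]
      by_cases hi : i = 0
      · simp [el, co, bb, Dt.vis, MonoidAlgebra.single_mul_single, hi]
      · simp [el, bb, Dt.vis, MonoidAlgebra.single_mul_single, hi]

private lemma s31_F (D : Dt K R) (κ : ℕ → List ℕ → K) (w : List L1) :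
    D.F κ w = s31_Lam D.J κ ((w.map (el D.ρ D.c)).prod) := by
  rw [s31_word, s31_Lam_single]
  rfl

private lemma s31_span {S : Set ℕ} {y : BW R} (hy : y ∈ adj K R S) :
    y ∈ Submodule.span K (Set.range (fun g : ℕ → FreeMonoid ℕ => (MonoidAlgebra.single g 1 : BW R))) := by
  refine Algebra.adjoin_induction (p := fun y _ => y ∈ Submodule.span K
    (Set.range (fun g : ℕ → FreeMonoid ℕ => (MonoidAlgebra.single g 1 : BW R)))) ?_ ?_ ?_ ?_ hy
  · rintro x ⟨k, -, l, rfl⟩
    exact Submodule.subset_span ⟨_, rfl⟩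
  · intro r
    rw [Algebra.algebraMap_eq_smul_one]
    exact Submodule.smul_mem _ _ (Submodule.subset_span ⟨1, rfl⟩)
  · intro a b _ _ ha hb; exact Submodule.add_mem _ ha hb
  · intro a b _ _ ha hb
    have h := Submodule.mul_mem_mul ha hb
    rw [Submodule.span_mul_span] at h
    refine Submodule.span_mono ?_ h
    rintro _ ⟨_, ⟨g, rfl⟩, _, ⟨g', rfl⟩, rfl⟩
    exact ⟨g * g', by simp [MonoidAlgebra.single_mul_single]⟩

private lemma s31_adj (J : ℕ) (κ : ℕ → List ℕ → K) {S : Set ℕ} {y : BW R} (hy : y ∈ adj K R S) :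
    ∃ a : K, ∀ u : R, s31_Lam J κ (y * co u) = a • u := by
  refine Submodule.span_induction (p := fun y _ => ∃ a : K, ∀ u : R, s31_Lam J κ (y * co u) = a • u)
    ?_ ?_ ?_ ?_ (s31_span hy)
  · rintro _ ⟨g, rfl⟩
    refine ⟨∏ j ∈ Finset.range J, κ j (FreeMonoid.toList (g j)), fun u => ?_⟩
    rw [co, MonoidAlgebra.single_mul_single, mul_one, one_mul, s31_Lam_single]
  · exact ⟨0, fun u => by rw [zero_mul, map_zero, zero_smul]⟩
  · rintro x z _ _ ⟨a, ha⟩ ⟨b, hb⟩
    exact ⟨a + b, fun u => by rw [add_mul, map_add, ha, hb, add_smul]⟩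
  · rintro k x _ ⟨a, ha⟩
    exact ⟨k * a, fun u => by rw [smul_mul_assoc, map_smul, ha, smul_smul]⟩

end

theorem span_mk {K R : Type*} [Field K] [Ring R] [Algebra K R] (D : Dt K R) (F : R) (hρ : ∀ k, D.ρ k = F)
    (L : LT L1) (hn : L.leaves.Nodup) (hm : 1 ≤ mk1 L) (κ : ℕ → List ℕ → K) :
    vl L (D.F κ) ∈ Submodule.span K {x | ∃ t : LW, t.fd = mk1 L ∧ t.ev F D.c = x} := by
  have e : D.F κ = fun w => (s31_Lam D.J κ).toAddMonoidHom ((w.map (el D.ρ D.c)).prod) := by
    funext w; exact s31_F D κ w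
  rw [e, s31_vl_ev]
  have hP : Cl D.ρ D.c (fun n u => ∃ t : LW, t.fd = n ∧ (u = t.ev F D.c ∨ u = -t.ev F D.c)) := by
    refine ⟨fun k => ⟨LW.f, rfl, Or.inl (hρ k)⟩, ?_, ?_, ?_⟩
    · rintro n u ⟨t, h1, h2⟩
      exact ⟨t, h1, by rcases h2 with h2 | h2 <;> simp [h2]⟩
    · rintro n u ⟨t, h1, h2⟩
      refine ⟨LW.br t LW.c, by simp [LW.fd, h1], ?_⟩
      rcases h2 with h2 | h2
      · left; rw [h2]; rfl
      · right; rw [h2]; simp only [LW.ev]; noncomm_ring
    · rintro n n' u u' ⟨t, h1, h2⟩ ⟨t', h1', h2'⟩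
      refine ⟨LW.br t t', by simp [LW.fd, h1, h1'], ?_⟩
      rcases h2 with h2 | h2 <;> rcases h2' with h2' | h2'
      · left; rw [h2, h2']; rfl
      · right; rw [h2, h2']; simp only [LW.ev]; noncomm_ring
      · right; rw [h2, h2']; simp only [LW.ev]; noncomm_ring
      · left; rw [h2, h2']; simp only [LW.ev]; noncomm_ring
  have hk := key (K := K) hP L hn
  rcases hk with h | ⟨j, y, h1, h2, h3⟩ | ⟨y, u, h0, h1, h2, h3⟩
  · rw [h, map_zero]; exact Submodule.zero_mem _
  · exfalso
    have := mks_zero h1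
    have e2 : mks L.leaves = mk1 L := rfl
    omega
  · obtain ⟨a, ha⟩ := s31_adj (K := K) D.J κ h1
    rw [h3]
    show s31_Lam D.J κ (y * co u) ∈ _
    rw [ha u]
    obtain ⟨t, h4, h5⟩ := h2
    refine Submodule.smul_mem _ _ ?_
    have h6 : t.ev F D.c ∈ Submodule.span K {x | ∃ t : LW, t.fd = mk1 L ∧ t.ev F D.c = x} :=
      Submodule.subset_span ⟨t, h4, rfl⟩
    rcases h5 with h5 | h5
    · rw [h5]; exact h6
    · rw [h5]; exact Submodule.neg_mem _ h6

end Pool.Agent.Bht.BK.AQ
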