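import Pool.Agent.Bht.AQ.N
import Pool.Agent.Bht.AQ.G
import Pool.Agent.Bht.AQ.B
import Pool.Agent.Bht.AQ.O
import Pool.Agent.Bht.AQ.S
import Pool.Agent.Bht.AQ.Nat
import Pool.Agent.Bht.AQ.Deep
import Pool.Agent.Bht.AQ.Psi

namespace Pool.Agent.Bht.BK.AQ

open Pool.Agent.H25 Pool.Agent.Bht.BK.CZ

universe u

/-! ## Zero the functional of class 0 -/

private lemma zero_shape_map {α β : Type} (e : α → β) (Ls : List (LT α)) :
    (Ls.map (LT.map e)).map LT.shape = Ls.map LT.shape := by
  rw [List.map_map]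
  exact List.map_congr_left (fun L _ => shape_map e L)

private lemma zero_pm_prod {R : Type u} [Ring R] : ∀ (l : List (R × R)), (∀ x ∈ l, pm x.1 x.2) →
    pm ((l.map Prod.fst).prod) ((l.map Prod.snd).prod)
  | [], _ => Or.inl rfl
  | a :: l, h => by
    have h1 := h a List.mem_cons_self
    have h2 := zero_pm_prod l (fun x hx => h x (List.mem_cons_of_mem _ hx))
    rw [List.map_cons, List.map_cons, List.prod_cons, List.prod_cons]
    rcases h1 with h1 | h1 <;> rcases h2 with h2 | h2 <;> rw [h1, h2]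
    · exact Or.inl rfl
    · exact Or.inr (mul_neg _ _)
    · exact Or.inr (neg_mul _ _)
    · exact Or.inl (neg_mul_neg _ _)

private lemma zero_pm_prod' {R : Type u} [Ring R] {ι : Type} (l : List ι) (f g : ι → R)
    (h : ∀ x ∈ l, pm (f x) (g x)) : pm ((l.map f).prod) ((l.map g).prod) := by
  have := zero_pm_prod (l.map (fun x => (f x, g x))) (by
    intro x hx
    rw [List.mem_map] at hx
    obtain ⟨y, hy, rfl⟩ := hx
    exact h y hy)
  rw [List.map_map, List.map_map] at this
  exact this

private lemma zero_sum_eq {ι : Type} : ∀ (l : List ι) (f g : ι → ℕ), (∀ x ∈ l, f x ≤ g x) →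
    (l.map g).sum ≤ (l.map f).sum → ∀ x ∈ l, f x = g x
  | [], _, _, _, _ => by simp
  | a :: l, f, g, h, hs => by
    have h1 := h a List.mem_cons_self
    have h2 : (l.map f).sum ≤ (l.map g).sum :=
      List.sum_le_sum (fun x hx => h x (List.mem_cons_of_mem _ hx))
    rw [List.map_cons, List.map_cons, List.sum_cons, List.sum_cons] at hs
    have ih := zero_sum_eq l f g (fun x hx => h x (List.mem_cons_of_mem _ hx)) (by omega)
    intro x hx
    rw [List.mem_cons] at hx
    rcases hx with rfl | hx
    · omega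
    · exact ih x hx

private lemma zero_len {ι κ : Type} (l : List ι) (f : ι → List κ) :
    (l.flatMap f).length = (l.map (fun x => (f x).length)).sum := by
  rw [List.length_flatMap]

theorem class0 {K : Type u} [Field K] (r : ℕ) (hr : 1 ≤ r) (P : Submodule K (TT K)) (p : ℕ) (hp : 1 ≤ p)
    (R : Type u) [Ring R] [Algebra K R] (F C : R) (kill : ∀ t : LW, p ≤ t.fd → t.ev F C = 0) (Ds : List BT) :
    ∃ Φ : List ℕ → R,
      (∀ U : LT ℕ, p ≤ cb r (alN P) U.shape → ∀ u v, vl U (fun w => Φ (u ++ w ++ v)) = 0) ∧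
      (∃ Ls : List (LT ℕ), Ls.map LT.shape = Ds ∧
        ∃ s : K, s ≠ 0 ∧ pl Ls Φ = s • (Ds.map (fun D => (th r (alN P) D).ev F C)).prod) ∧
      ∀ Ls : List (LT ℕ), pl Ls Φ ≠ 0 →
        ((Ls.map LT.shape).map (cb r (alN P))).sum ≤ (Ds.map (cb r (alN P))).sum ∧
        (((Ls.map LT.shape).map (cb r (alN P))).sum = (Ds.map (cb r (alN P))).sum →
          (Ds.map (nu r (alN P))).sum ≤ ((Ls.map LT.shape).map (nu r (alN P))).sum ∧
          (((Ls.map LT.shape).map (nu r (alN P))).sum = (Ds.map (nu r (alN P))).sum →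
            ∃ s : K, pl Ls Φ = s • ((Ls.map LT.shape).map (fun D => (th r (alN P) D).ev F C)).prod)) := by
  set its : List I1 := Ds.map (itOf r (alN P)) with hits
  set hg : List BT := its.flatMap I1.hangs with hhg
  have hcb0 : ∀ s ∈ hg, cb r (alN P) s = 0 := by
    intro s hs
    rw [hhg, hits, List.mem_flatMap] at hs
    obtain ⟨it, hit, hs⟩ := hs
    rw [List.mem_map] at hit
    obtain ⟨D, _, rfl⟩ := hit
    exact it_hangs r (alN P) D s hs
  have hpsi : ∀ s ∈ hg, ∃ ψ : List ℕ → K, s.lv ≤ r ∧
      (∃ S : LT ℕ, S.shape = s ∧ S.leaves = List.range s.lv ∧ S.val ψ ≠ 0) ∧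
      (s.lv = r → ∀ S : LT ℕ, S.shape.lv = r → ¬ alN P S.shape → S.val ψ = 0) := by
    intro s hs
    obtain ⟨h1, ψ, h2, h3⟩ := exists_psi' r P s (hcb0 s hs)
    exact ⟨ψ, h1, h2, h3⟩
  choose! ψ0 hψ0 using hpsi
  set ψ : ℕ → List ℕ → K := fun j => ψ0 (hg.getD j BT.leaf) with hψ
  have hget : ∀ j (hj : j < hg.length), hg.getD j BT.leaf = hg[j] := fun j hj =>
    List.getD_eq_getElem _ _ hj
  set D : Dt K R := dtOf (fun _ => F) C its ψ with hD
  have hJ : D.J = hg.length := rfl
  have hn : D.n = (Ds.map (cb r (alN P))).sum := by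
    change (its.map I1.marks).sum = _
    rw [hits, List.map_map]
    congr 1
    exact List.map_congr_left (fun x _ => it_marks r (alN P) x)
  have hJn : D.J = (Ds.map (nu r (alN P))).sum := by
    rw [hJ, hhg, zero_len, hits, List.map_map]
    congr 1
    exact List.map_congr_left (fun x _ => it_nu r (alN P) x)
  have hc : D.c = C := rfl
  have hρ : ∀ k, D.ρ k = F := fun _ => rfl
  have hOk : D.Ok r (alN P) := by
    intro j hj
    rw [hJ] at hj
    have hmem : hg[j] ∈ hg := List.getElem_mem _
    have hsz : D.sz j = (hg[j]).lv := by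
      change (hg.getD j BT.leaf).lv = _
      rw [hget j hj]
    have hps : D.ψ j = ψ0 hg[j] := by
      change ψ0 (hg.getD j BT.leaf) = _
      rw [hget j hj]
    obtain ⟨h1, _, h3⟩ := hψ0 _ hmem
    rw [hsz, hps]
    exact ⟨BT.lv_pos _, h1, h3⟩
  obtain ⟨e, he⟩ : ∃ e : ℕ → L1, Function.Surjective e := exists_surjective_nat L1
  refine ⟨fun w => D.Φ (w.map e), ?_, ?_, ?_⟩
  · intro U hU u v
    have h1 : vl U (fun w => D.Φ ((u ++ w ++ v).map e)) =
        vl (LT.map e U) (fun w => D.Φ (u.map e ++ w ++ v.map e)) := by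
      rw [vl_map]
      congr 1
      funext w
      rw [List.map_append, List.map_append]
    rw [h1]
    set L := LT.map e U with hL
    have hs : L.shape = U.shape := shape_map e U
    rw [← hs] at hU
    by_cases hm : mk1 L < cb r (alN P) L.shape
    · exact few_marks_zero D r hr (alN P) hOk L hm _ _
    · rw [vl_ctx]
      split_ifs with hperm
      · have hnd : L.leaves.Nodup := by
          have h2 := hperm.nodup_iff.2 (all_nodup D)
          rw [List.append_assoc, List.nodup_append] at h2
          have h3 := h2.2.1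
          rw [List.nodup_append] at h3
          exact h3.1
        have h4 := span_mk D F hρ L hnd (by omega)
          (fun j x => D.ψ j ((u.map e).filterMap (bl j) ++ x ++ (v.map e).filterMap (bl j)))
        have h5 : Submodule.span K {x | ∃ t : LW, t.fd = mk1 L ∧ t.ev F D.c = x} = ⊥ := by
          rw [Submodule.span_eq_bot]
          rintro x ⟨t, ht, rfl⟩
          exact kill t (by omega)
        rw [h5, Submodule.mem_bot] at h4
        rw [h4, mul_zero, zero_mul]
      · rfl
  · obtain ⟨Ls, hLs, s, hs, hval⟩ := nat_value (K := K) (fun _ => F) C its ψ (by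
      intro j hj
      have hmem : hg[j] ∈ hg := List.getElem_mem _
      obtain ⟨_, h2, _⟩ := hψ0 _ hmem
      have hps : ψ j = ψ0 hg[j] := by
        change ψ0 (hg.getD j BT.leaf) = _
        rw [hget j hj]
      rw [hps]
      exact h2)
    obtain ⟨Ls', h1, h2⟩ := exists_map_eq' he Ls
    have hsh : its.map I1.shape = Ds := by
      rw [hits, List.map_map]
      conv_rhs => rw [← List.map_id Ds]
      exact List.map_congr_left (fun x _ => it_shape r (alN P) x)
    have hval' : pl Ls' (fun w => D.Φ (w.map e)) = s • lamL (fun _ => F) C its 0 := by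
      rw [← pl_map, h1]
      exact hval
    refine ⟨Ls', by rw [h2, hLs, hsh], ?_⟩
    rcases it_lam r (alN P) F C Ds 0 with h3 | h3
    · exact ⟨s, hs, by rw [hval', hits, h3]⟩
    · exact ⟨-s, neg_ne_zero.2 hs, by rw [hval', hits, h3, smul_neg, neg_smul]⟩
  · intro Ls hLs
    set L1s : List (LT L1) := Ls.map (LT.map e) with hL1
    have hpl : pl Ls (fun w => D.Φ (w.map e)) = pl L1s D.Φ := by rw [← pl_map]
    rw [hpl] at hLs
    have hshape : L1s.map LT.shape = Ls.map LT.shape := zero_shape_map e Ls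
    rw [hpl, ← hshape]
    obtain ⟨hperm, hmk, _, hgood⟩ := alive_good D r hr (alN P) hOk hLs
    have hle : ((L1s.map LT.shape).map (cb r (alN P))).sum ≤ (L1s.map mk1).sum := by
      rw [List.map_map]
      exact List.sum_le_sum (fun L hL => (hgood L hL).1)
    refine ⟨by rw [← hn, ← hmk]; exact hle, fun heq => ?_⟩
    have hG : ∀ L ∈ L1s, Good r (alN P) L := by
      have h1 := zero_sum_eq L1s (fun L => cb r (alN P) L.shape) mk1 (fun L hL => (hgood L hL).1)
        (by
          rw [List.map_map] at heq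
          rw [hmk, hn, ← heq]
          exact le_of_eq rfl)
      intro L hL
      exact ⟨(h1 L hL).symm, (hgood L hL).2⟩
    have hnm : ((L1s.map LT.shape).map (nu r (alN P))).sum =
        (L1s.map (fun L => nu r (alN P) L.shape)).sum := by
      rw [List.map_map (l := L1s)]; rfl
    have hlen : (L1s.flatMap mpc).length ≤ ((L1s.map LT.shape).map (nu r (alN P))).sum := by
      rw [hnm, zero_len]
      exact List.sum_le_sum (fun L hL => (good_mpc.{u} r (alN P) L (hG L hL)).1)
    obtain ⟨hb1, hb2⟩ := blocks D r (alN P) hOk hLs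
    refine ⟨by rw [← hJn]; omega, fun heq2 => ?_⟩
    have hb3 := hb2 (by rw [hJn, ← heq2]; exact hlen)
    have hnd : (L1s.flatMap LT.leaves).Nodup := hperm.nodup_iff.2 (all_nodup D)
    obtain ⟨s, hs⟩ := value_one D F hρ L1s hnd hb3.1 hb3.2 D.ψ
    have hnu : ∀ L ∈ L1s, (mpc L).length = nu r (alN P) L.shape :=
      zero_sum_eq L1s (fun L => (mpc L).length) (fun L => nu r (alN P) L.shape)
        (fun L hL => (good_mpc.{u} r (alN P) L (hG L hL)).1) (by
          rw [← zero_len]
          have h6 : (L1s.map (fun L => nu r (alN P) L.shape)).sum = D.J := by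
            rw [hJn, ← heq2, hnm]
          rw [h6]; exact hb1)
    have hpm := zero_pm_prod' L1s (fun L => (tw L).ev F D.c)
      (fun L => (th r (alN P) L.shape).ev F C)
      (fun L hL => (good_mpc.{u} r (alN P) L (hG L hL)).2 (hnu L hL) F C)
    have hprod : ((L1s.map LT.shape).map (fun D => (th r (alN P) D).ev F C)).prod =
        (L1s.map (fun L => (th r (alN P) L.shape).ev F C)).prod := by
      rw [List.map_map]; rfl
    rw [hprod, pl_F, if_pos hperm, hs]
    rcases hpm with h7 | h7
    · exact ⟨s, by rw [h7]⟩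
    · exact ⟨-s, by rw [h7, smul_neg, neg_smul]⟩

end Pool.Agent.Bht.BK.AQ
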