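import Pool.Agent.Bht.AQ.Inert
import Pool.Agent.Bht.AQ.Zero
import Pool.Agent.Bht.CZ.A4
import Pool.Agent.Bht.CZ.A5
import Pool.Agent.Bht.CZ.A2

namespace Pool.Agent.Bht.BK.AQ

open Pool.Agent.H25 Pool.Agent.Bht.BK.CZ

universe u

/-! ## Force all classes together -/

section
variable {α : Type} {K : Type*} [Field K] {R : Type*} [Ring R] [Algebra K R]

private lemma fo_vl (τ : R →ₗ[K] K) (L : LT α) (φ : List α → R) :
    L.val (fun w => τ (φ w)) = τ (vl L φ) := by
  induction L generalizing φ with
  | leaf x => rfl
  | node a b iha ihb =>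
    simp only [LT.val, vl, map_sub]
    congr 1
    · rw [← iha]
      congr 1
      funext p
      exact ihb _
    · rw [← ihb]
      congr 1
      funext p
      exact iha _

private lemma fo_pl (τ : R →ₗ[K] K) (Ls : List (LT α)) (φ : List α → R) :
    pv Ls (fun w => τ (φ w)) = τ (pl Ls φ) := by
  induction Ls generalizing φ with
  | nil => rfl
  | cons L Ls ih =>
    simp only [pv, pl]
    rw [← fo_vl]
    congr 1
    funext w
    exact ih _

private lemma fo_leaves (L : LT α) : ∃ x, x ∈ L.leaves := by
  induction L with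
  | leaf x => exact ⟨x, List.mem_singleton.2 rfl⟩
  | node a b iha ihb =>
    obtain ⟨x, hx⟩ := iha
    exact ⟨x, List.mem_append_left _ hx⟩

private lemma fo_lv : ∀ t : BT, 1 ≤ t.lv
  | BT.leaf => le_refl _
  | BT.node a b => le_trans (fo_lv a) (by simp only [BT.lv]; omega)

end

private lemma fo_uniq {i j : ℕ} {L : LT (ℕ × ℕ)} (hi : InC i L) (hj : InC j L) : i = j := by
  obtain ⟨x, hx⟩ := fo_leaves L
  rw [← hi x hx, ← hj x hx]

private lemma fo_put (i : ℕ) (L : LT ℕ) : InC i (L.map (fun x => (i, x))) := by
  intro x hx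
  rw [leaves_map] at hx
  obtain ⟨y, _, rfl⟩ := List.mem_map.1 hx
  rfl

private lemma fo_back (i : ℕ) (L : LT ℕ) : LT.map Prod.snd (L.map (fun x => (i, x))) = L := by
  induction L with
  | leaf x => rfl
  | node a b iha ihb => simp only [LT.map, iha, ihb]

section
open Classical

private lemma fo_merge (vis : BT → Prop) : ∀ (Ds : List BT) (i0 : ℕ), 1 ≤ i0 → ∀ (Ls0 Ms : List (LT ℕ)),
    Ls0.map LT.shape = Ds.filter (fun D => vis D) → Ms.map LT.shape = Ds.filter (fun D => ¬ vis D) →
    ∃ Ls : List (LT (ℕ × ℕ)), Ls.map LT.shape = Ds ∧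
      (∀ L ∈ Ls, ∃ i, InC i L ∧ (i = 0 ∨ (i0 ≤ i ∧ i < i0 + Ms.length))) ∧
      (Ls.filter (fun L => InC 0 L)).map (LT.map Prod.snd) = Ls0 ∧
      ∀ j, (h : j < Ms.length) → (Ls.filter (fun L => InC (i0 + j) L)).map (LT.map Prod.snd) = [Ms[j]] := by
  intro Ds
  induction Ds with
  | nil =>
    intro i0 h0 Ls0 Ms h1 h2
    have e1 : Ls0 = [] := by simpa using h1
    have e2 : Ms = [] := by simpa using h2
    subst e1 e2
    exact ⟨[], rfl, by simp, rfl, by simp⟩
  | cons D Ds ih =>
    intro i0 h0 Ls0 Ms h1 h2
    by_cases hD : vis D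
    · rw [List.filter_cons_of_pos (by simpa using hD)] at h1
      rw [List.filter_cons_of_neg (by simpa using hD)] at h2
      obtain ⟨L0, Ls0', rfl, hL0, h1'⟩ := List.map_eq_cons_iff.1 h1
      obtain ⟨Ls, g1, g2, g3, g4⟩ := ih i0 h0 Ls0' Ms h1' h2
      refine ⟨L0.map (fun x => (0, x)) :: Ls, ?_, ?_, ?_, ?_⟩
      · rw [List.map_cons, shape_map, hL0, g1]
      · intro L hL
        rcases List.mem_cons.1 hL with rfl | hL
        · exact ⟨0, fo_put _ _, Or.inl rfl⟩
        · exact g2 L hL
      · rw [List.filter_cons_of_pos (by simpa using fo_put 0 L0), List.map_cons, fo_back, g3]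
      · intro j hj
        rw [List.filter_cons_of_neg, g4 j hj]
        intro hc
        have := fo_uniq (fo_put 0 L0) (by simpa using hc)
        omega
    · rw [List.filter_cons_of_neg (by simpa using hD)] at h1
      rw [List.filter_cons_of_pos (by simpa using hD)] at h2
      obtain ⟨M, Ms', rfl, hM, h2'⟩ := List.map_eq_cons_iff.1 h2
      obtain ⟨Ls, g1, g2, g3, g4⟩ := ih (i0 + 1) (by omega) Ls0 Ms' h1 h2'
      refine ⟨M.map (fun x => (i0, x)) :: Ls, ?_, ?_, ?_, ?_⟩
      · rw [List.map_cons, shape_map, hM, g1]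
      · intro L hL
        rcases List.mem_cons.1 hL with rfl | hL
        · exact ⟨i0, fo_put _ _, Or.inr ⟨le_refl _, by simp⟩⟩
        · obtain ⟨i, hi, hi'⟩ := g2 L hL
          refine ⟨i, hi, ?_⟩
          simp only [List.length_cons]
          omega
      · rw [List.filter_cons_of_neg, g3]
        intro hc
        have := fo_uniq (fo_put i0 M) (by simpa using hc)
        omega
      · intro j hj
        rcases j with _ | j
        · rw [List.filter_cons_of_pos (by simpa using fo_put i0 M), List.map_cons, fo_back]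
          have : Ls.filter (fun L => InC (i0 + 0) L) = [] := by
            rw [List.filter_eq_nil_iff]
            intro L hL hc
            obtain ⟨i, hi, hi'⟩ := g2 L hL
            have := fo_uniq hi (by simpa using hc)
            omega
          rw [this]
          rfl
        · rw [List.filter_cons_of_neg]
          · have := g4 j (by simpa using hj)
            rw [show i0 + (j + 1) = i0 + 1 + j by omega, this]
            rfl
          · intro hc
            have := fo_uniq (fo_put i0 M) (by simpa using hc)
            omega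

private lemma fo_sum_cls {ι : Type*} (c : ι → ℕ) (g : ι → ℕ) (n : ℕ) (Ls : List ι) (h : ∀ L ∈ Ls, c L < n) :
    (Ls.map g).sum = ∑ i ∈ Finset.range n, ((Ls.filter (fun L => c L = i)).map g).sum := by
  induction Ls with
  | nil => simp
  | cons L Ls ih =>
    rw [List.map_cons, List.sum_cons, ih (fun M hM => h M (List.mem_cons_of_mem _ hM))]
    have e : ∀ i, (((L :: Ls).filter (fun L => c L = i)).map g).sum =
        (if i = c L then g L else 0) + ((Ls.filter (fun L => c L = i)).map g).sum := by
      intro i
      by_cases hi : i = c L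
      · rw [List.filter_cons_of_pos (by simpa using hi.symm), if_pos hi, List.map_cons, List.sum_cons]
      · rw [List.filter_cons_of_neg (by simpa using fun h => hi h.symm), if_neg hi, zero_add]
    simp only [e, Finset.sum_add_distrib]
    rw [Finset.sum_ite_eq' (Finset.range n) (c L), if_pos (Finset.mem_range.2 (h L (List.mem_cons_self ..)))]

private lemma fo_sum_getD (g : BT → ℕ) (Is : List BT) :
    (Is.map g).sum = ∑ j ∈ Finset.range Is.length, g (Is.getD j BT.leaf) := by
  induction Is with
  | nil => simp
  | cons D Is ih =>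
    rw [List.map_cons, List.sum_cons, ih, List.length_cons, Finset.sum_range_succ', add_comm]
    rfl

private lemma fo_Icc (f : ℕ → ℕ) (k : ℕ) : ∑ i ∈ Finset.Icc 1 k, f i = ∑ j ∈ Finset.range k, f (j + 1) := by
  induction k with
  | zero => rfl
  | succ n ih => rw [Finset.sum_Icc_succ_top (by omega), Finset.sum_range_succ, ih]

private lemma fo_split (vis : BT → Prop) (g : BT → ℕ) (Ds : List BT) :
    (Ds.map g).sum = ((Ds.filter (fun D => vis D)).map g).sum + ((Ds.filter (fun D => ¬ vis D)).map g).sum := by
  induction Ds with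
  | nil => simp
  | cons D Ds ih =>
    by_cases hD : vis D
    · rw [List.filter_cons_of_pos (by simpa using hD), List.filter_cons_of_neg (by simpa using hD)]
      simp only [List.map_cons, List.sum_cons, ih]
      omega
    · rw [List.filter_cons_of_neg (by simpa using hD), List.filter_cons_of_pos (by simpa using hD)]
      simp only [List.map_cons, List.sum_cons, ih]
      omega

end

open Classical in
theorem force {K : Type u} [Field K] (r : ℕ) (hr : 1 ≤ r) (P : Submodule K (TT K)) (p : ℕ) (hp : 1 ≤ p)
    (R : Type u) [Ring R] [Algebra K R] (F C : R) (kill : ∀ t : LW, p ≤ t.fd → t.ev F C = 0) (Ds : List BT)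
    (hDs : ∀ D ∈ Ds, cb r (alN P) D < p) (τ : R →ₗ[K] K) :
    ∃ φ : List (ℕ × ℕ) → K, KI (JL r (alN P) p) φ ∧
      (τ (gp F C r (alN P) Ds) ≠ 0 → ¬ Ann [Ds] φ) ∧
      ∀ Ls : List (LT (ℕ × ℕ)), pv Ls φ ≠ 0 →
        ((Ls.map LT.shape).map (cb r (alN P))).sum ≤ (Ds.map (cb r (alN P))).sum ∧
        (((Ls.map LT.shape).map (cb r (alN P))).sum = (Ds.map (cb r (alN P))).sum →
          (Ds.map (nu r (alN P))).sum ≤ ((Ls.map LT.shape).map (nu r (alN P))).sum ∧
          (((Ls.map LT.shape).map (nu r (alN P))).sum = (Ds.map (nu r (alN P))).sum →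
            QQ F C r (alN P) Ds ≤ QQ F C r (alN P) (Ls.map LT.shape) →
            QQ F C r (alN P) (Ls.map LT.shape) = QQ F C r (alN P) Ds ∧
              τ (gp F C r (alN P) (Ls.map LT.shape)) ≠ 0)) := by
  set al := alN P with hal
  set vis : BT → Prop := fun D => Vis F C r al D with hvis
  set Vs : List BT := Ds.filter (fun D => vis D) with hVs
  set Is : List BT := Ds.filter (fun D => ¬ vis D) with hIs
  set k := Is.length with hk
  obtain ⟨Φ, c1, ⟨Ls0, c2, s0, hs0, c2'⟩, c3⟩ := class0 r hr P p hp R F C kill Vs
  have hI := fun Y : BT => inert (K := K) r hr P Y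
  choose φI i1 i2 i3 using hI
  set Y : ℕ → BT := fun i => Is.getD (i - 1) BT.leaf with hY
  set φs : ℕ → List ℕ → K := fun i => if i = 0 then (fun w => τ (Φ w)) else φI (Y i) with hφs
  have hφ0 : φs 0 = fun w => τ (Φ w) := by simp [hφs]
  have hφi : ∀ i, i ≠ 0 → φs i = φI (Y i) := by
    intro i hi
    simp [hφs, hi]
  have hYmem : ∀ i, i ≠ 0 → i < k + 1 → Y i ∈ Is := by
    intro i hi hik
    have h1 : i - 1 < Is.length := by omega
    simp only [hY]
    rw [List.getD_eq_getElem _ _ h1]
    exact List.getElem_mem h1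
  refine ⟨shuf (k + 1) φs, ?_, ?_, ?_⟩
  · apply KI_shuf
    intro i hi
    by_cases h0 : i = 0
    · subst h0
      rw [hφ0]
      intro U hU u v
      rw [fo_vl τ U (fun w => Φ (u ++ w ++ v)), c1 U hU u v, map_zero]
    · rw [hφi i h0]
      intro U hU u v
      refine i1 (Y i) U ?_ u v
      have h2 : Y i ∈ Ds := (List.mem_filter.1 (hYmem i h0 hi)).1
      exact lt_of_lt_of_le (hDs _ h2) hU
  · intro hτ hAnn
    have hMs : ∃ Ms : List (LT ℕ), Ms.map LT.shape = Is ∧ ∀ M ∈ Ms, M.val (φI M.shape) ≠ 0 := by
      clear_value Is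
      clear hIs hk hY hφs hφ0 hφi hYmem hAnn
      induction Is with
      | nil => exact ⟨[], rfl, by simp⟩
      | cons D Is ih =>
        obtain ⟨Ms, m1, m2⟩ := ih
        obtain ⟨L, l1, l2⟩ := i2 D
        refine ⟨L :: Ms, by rw [List.map_cons, l1, m1], ?_⟩
        intro M hM
        rcases List.mem_cons.1 hM with rfl | hM
        · rw [l1]; exact l2
        · exact m2 M hM
    obtain ⟨Ms, m1, m2⟩ := hMs
    obtain ⟨Ls, g1, g2, g3, g4⟩ := fo_merge vis Ds 1 (le_refl _) Ls0 Ms c2 m1
    have hlen : Ms.length = k := by rw [hk, ← m1, List.length_map]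
    have hz := hAnn Ds (List.mem_singleton.2 rfl) Ls g1
    rw [pv_shuf_eq (k + 1) φs Ls] at hz
    · rw [Finset.prod_eq_zero_iff] at hz
      obtain ⟨i, hi, hz⟩ := hz
      have hi := Finset.mem_range.1 hi
      by_cases h0 : i = 0
      · subst h0
        rw [g3, hφ0, fo_pl, c2', map_smul, smul_eq_mul] at hz
        rcases mul_eq_zero.1 hz with hz | hz
        · exact hs0 hz
        · exact hτ hz
      · have h1 : i - 1 < Ms.length := by omega
        have h2 := g4 (i - 1) h1
        rw [show 1 + (i - 1) = i by omega] at h2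
        rw [h2, hφi i h0] at hz
        have h3 : Y i = (Ms[i - 1]).shape := by
          simp only [hY]
          rw [← m1, List.getD_eq_getElem _ _ (by simpa using h1), List.getElem_map]
        rw [h3] at hz
        refine m2 _ (List.getElem_mem h1) ?_
        simpa [pv] using hz
    · intro L hL
      obtain ⟨i, hi, hi'⟩ := g2 L hL
      exact ⟨i, by omega, hi⟩
  · intro Ls hLs
    have hpure := pv_shuf_pure (k + 1) φs Ls hLs
    rw [pv_shuf_eq (k + 1) φs Ls hpure, Finset.prod_ne_zero_iff] at hLs
    -- class of a tree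
    set c : LT (ℕ × ℕ) → ℕ := fun L => if h : ∃ i, InC i L then h.choose else 0 with hc
    have hcE : ∀ {i : ℕ} {L : LT (ℕ × ℕ)}, InC i L → c L = i := by
      intro i L hi
      have h : ∃ i, InC i L := ⟨i, hi⟩
      simp only [hc]
      rw [dif_pos h]
      exact fo_uniq h.choose_spec hi
    have hcl : ∀ L ∈ Ls, c L < k + 1 := by
      intro L hL
      obtain ⟨i, hi, hi'⟩ := hpure L hL
      rw [hcE hi']; exact hi
    have hfil : ∀ i, Ls.filter (fun L => InC i L) = Ls.filter (fun L => c L = i) := by
      intro i
      apply List.filter_congr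
      intro L hL
      obtain ⟨j, hj, hj'⟩ := hpure L hL
      rw [decide_eq_decide]
      constructor
      · exact fun h => hcE h
      · intro h
        rw [hcE hj'] at h
        rw [← h]; exact hj'
    have hcls : ∀ (g : BT → ℕ) (i : ℕ),
        ((((Ls.filter (fun L => InC i L)).map (LT.map Prod.snd)).map LT.shape).map g).sum =
          ((Ls.filter (fun L => c L = i)).map (fun L => g L.shape)).sum := by
      intro g i
      rw [hfil, List.map_map, List.map_map]
      congr 1
      apply List.map_congr_left
      intro L _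
      simp only [Function.comp, shape_map]
    have hsumL : ∀ g : BT → ℕ, ((Ls.map LT.shape).map g).sum = ∑ i ∈ Finset.range (k + 1),
        ((Ls.filter (fun L => c L = i)).map (fun L => g L.shape)).sum := by
      intro g
      rw [List.map_map]
      exact fo_sum_cls c (fun L => g L.shape) (k + 1) Ls hcl
    have hsumD : ∀ g : BT → ℕ, (Ds.map g).sum =
        ∑ i ∈ Finset.range (k + 1), (if i = 0 then (Vs.map g).sum else g (Y i)) := by
      intro g
      rw [Finset.sum_range_succ', fo_split vis g Ds, fo_sum_getD g Is, add_comm]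
      simp [hY, hVs, hIs, hk]
    have hne : ∀ i < k + 1, pv ((Ls.filter (fun L => InC i L)).map (LT.map Prod.snd)) (φs i) ≠ 0 :=
      fun i hi => hLs i (Finset.mem_range.2 hi)
    have h0 : pl ((Ls.filter (fun L => InC 0 L)).map (LT.map Prod.snd)) Φ ≠ 0 := by
      intro hz
      apply hne 0 (by omega)
      rw [hφ0, fo_pl, hz, map_zero]
    have k0 := c3 _ h0
    have ki : ∀ i, i ≠ 0 → i < k + 1 → _ := fun i hi hik =>
      i3 (Y i) _ (by rw [← hφi i hi]; exact hne i hik)
    have q1 : ∀ i ∈ Finset.range (k + 1),
        ((Ls.filter (fun L => c L = i)).map (fun L => cb r al L.shape)).sum ≤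
          (if i = 0 then (Vs.map (cb r al)).sum else cb r al (Y i)) := by
      intro i hi
      by_cases h : i = 0
      · subst h
        rw [if_pos rfl, ← hcls]
        exact k0.1
      · rw [if_neg h, ← hcls]
        exact (ki i h (Finset.mem_range.1 hi)).1
    refine ⟨?_, ?_⟩
    · rw [hsumL, hsumD]
      exact Finset.sum_le_sum q1
    intro he
    rw [hsumL, hsumD, Finset.sum_eq_sum_iff_of_le q1] at he
    have e0 : ((((Ls.filter (fun L => InC 0 L)).map (LT.map Prod.snd)).map LT.shape).map (cb r al)).sum =
        (Vs.map (cb r al)).sum := by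
      rw [hcls, he 0 (Finset.mem_range.2 (by omega)), if_pos rfl]
    have ei : ∀ i, i ≠ 0 → i < k + 1 →
        ((((Ls.filter (fun L => InC i L)).map (LT.map Prod.snd)).map LT.shape).map (cb r al)).sum =
          cb r al (Y i) := by
      intro i hi hik
      rw [hcls, he i (Finset.mem_range.2 hik), if_neg hi]
    have q2 : ∀ i ∈ Finset.range (k + 1),
        (if i = 0 then (Vs.map (nu r al)).sum else nu r al (Y i)) ≤
        ((Ls.filter (fun L => c L = i)).map (fun L => nu r al L.shape)).sum := by
      intro i hi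
      by_cases h : i = 0
      · subst h
        rw [if_pos rfl, ← hcls]
        exact (k0.2 e0).1
      · rw [if_neg h, ← hcls]
        exact (ki i h (Finset.mem_range.1 hi)).2.2 (ei i h (Finset.mem_range.1 hi))
    refine ⟨?_, ?_⟩
    · rw [hsumL, hsumD]
      exact Finset.sum_le_sum q2
    intro hn hQ
    rw [hsumL, hsumD, eq_comm, Finset.sum_eq_sum_iff_of_le q2] at hn
    have n0 : ((((Ls.filter (fun L => InC 0 L)).map (LT.map Prod.snd)).map LT.shape).map (nu r al)).sum =
        (Vs.map (nu r al)).sum := by
      rw [hcls, ← hn 0 (Finset.mem_range.2 (by omega)), if_pos rfl]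
    obtain ⟨s, hs⟩ := (k0.2 e0).2 n0
    have hprod : τ (((Ls.filter (fun L => c L = 0)).map (fun L => (th r al L.shape).ev F C)).prod) ≠ 0 := by
      have h1 := hne 0 (by omega)
      rw [hφ0, fo_pl, hs, map_smul, smul_eq_mul] at h1
      have h2 := right_ne_zero_of_mul h1
      rw [hfil, List.map_map, List.map_map] at h2
      have h3 : (fun L : LT (ℕ × ℕ) => (th r al L.shape).ev F C) =
          (((fun D => (th r al D).ev F C) ∘ LT.shape) ∘ LT.map Prod.snd) := by
        funext L
        simp only [Function.comp, shape_map]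
      rw [h3]
      exact h2
    have hvis0 : ∀ L ∈ Ls, c L = 0 → vis L.shape := by
      intro L hL hcL hz
      apply hprod
      rw [List.prod_eq_zero, map_zero]
      rw [List.mem_map]
      exact ⟨L, List.mem_filter.2 ⟨hL, by simpa using hcL⟩, hz⟩
    -- squares
    have hQD : QQ F C r al Ds = ∑ i ∈ Finset.Icc 1 k, (Y i).lv ^ 2 := by
      rw [fo_Icc]
      have h1 := fo_sum_getD (fun D => D.lv ^ 2) Is
      rw [← hk] at h1
      simp only [hY, Nat.add_sub_cancel]
      rw [← h1]
      simp only [QQ, hIs, hvis]
    have hQL : QQ F C r al (Ls.map LT.shape) =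
        ((Ls.filter (fun L => ¬ vis L.shape)).map (fun L => L.shape.lv ^ 2)).sum := by
      unfold QQ
      rw [List.filter_map, List.map_map]
      rfl
    rw [hQL, hQD] at hQ
    obtain ⟨z1, z2⟩ := sq_core Ls (fun L => L.shape.lv) c (fun L => ¬ vis L.shape) k (fun i => (Y i).lv)
      (fun L _ => fo_lv _)
      (fun i hi hik => by
        rw [← hcls]
        exact (ki i (by omega) (by omega)).2.1)
      (fun i _ _ => fo_lv _)
      (fun L hL => by have := hcl L hL; omega)
      (fun L hL hb => by
        by_contra hcon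
        exact hb (hvis0 L hL (by omega)))
      hQ
    refine ⟨?_, ?_⟩
    · rw [hQL, hQD]
      exact z2.symm
    · have e1 : gp F C r al (Ls.map LT.shape) =
          ((Ls.filter (fun L => c L = 0)).map (fun L => (th r al L.shape).ev F C)).prod := by
        unfold gp
        rw [List.filter_map, List.map_map]
        have e2 : Ls.filter ((fun D => decide (Vis F C r al D)) ∘ LT.shape) = Ls.filter (fun L => c L = 0) := by
          apply List.filter_congr
          intro L hL
          simp only [Function.comp, decide_eq_decide]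
          constructor
          · intro hv
            by_contra hcon
            have hci := hcl L hL
            obtain ⟨L', w1, w2, _⟩ := z1 (c L) (by omega) (by omega)
            have hm : L ∈ Ls.filter (fun M => c M = c L) := List.mem_filter.2 ⟨hL, by simp⟩
            rw [w1, List.mem_singleton] at hm
            rw [← hm] at w2
            exact w2 hv
          · exact hvis0 L hL
        rw [e2]
        rfl
      rw [e1]
      exact hprod

end Pool.Agent.Bht.BK.AQ
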