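import Pool.Agent.Bht.AQ.Sig

namespace Pool.Agent.Bht.BK.AQ

open Pool.Agent.H25 Pool.Agent.Bht.BK.CZ

universe u

open Polynomial in
/-- the elementary operator -/
private noncomputable def Mat_E (K : Type u) [Field K] (k l : ℕ) (e : K[X]) : Module.End K (ℕ → K[X]) where
  toFun := fun f i => if i = k then e * f l else 0
  map_add' := by
    intro f g
    funext i
    by_cases h : i = k
    · simp [h, mul_add]
    · simp [h]
  map_smul' := by
    intro a f
    funext i
    by_cases h : i = k
    · simp [h]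
    · simp [h]

open Polynomial in
/-- the diagonal operator -/
private noncomputable def Mat_c (K : Type u) [Field K] : Module.End K (ℕ → K[X]) where
  toFun := fun f i => X ^ i * f i
  map_add' := by
    intro f g
    funext i
    simp [mul_add]
  map_smul' := by
    intro a f
    funext i
    simp

open Polynomial in
private lemma Mat_E_mul (K : Type u) [Field K] (k l m : ℕ) (e e' : K[X]) :
    Mat_E K k l e * Mat_E K l m e' = Mat_E K k m (e * e') := by
  refine LinearMap.ext fun f => funext fun i => ?_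
  by_cases h : i = k
  · simp [Mat_E, h, mul_assoc]
  · simp [Mat_E, h]

open Polynomial in
private lemma Mat_E_mul0 (K : Type u) [Field K] {k l k' m : ℕ} (hl : l ≠ k') (e e' : K[X]) :
    Mat_E K k l e * Mat_E K k' m e' = 0 := by
  refine LinearMap.ext fun f => funext fun i => ?_
  by_cases h : i = k
  · simp [Mat_E, h, hl]
  · simp [Mat_E, h]

open Polynomial in
private lemma Mat_E_c (K : Type u) [Field K] (k l : ℕ) (e : K[X]) :
    Mat_E K k l e * Mat_c K = Mat_E K k l (e * X ^ l) := by
  refine LinearMap.ext fun f => funext fun i => ?_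
  by_cases h : i = k
  · simp [Mat_E, Mat_c, h, mul_assoc]
  · simp [Mat_E, h]

open Polynomial in
private lemma Mat_c_E (K : Type u) [Field K] (k l : ℕ) (e : K[X]) :
    Mat_c K * Mat_E K k l e = Mat_E K k l (X ^ k * e) := by
  refine LinearMap.ext fun f => funext fun i => ?_
  by_cases h : i = k
  · simp [Mat_E, Mat_c, h, mul_assoc]
  · simp [Mat_E, Mat_c, h]

open Polynomial in
private lemma Mat_E_sub (K : Type u) [Field K] (k l : ℕ) (e e' : K[X]) :
    Mat_E K k l e - Mat_E K k l e' = Mat_E K k l (e - e') := by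
  refine LinearMap.ext fun f => funext fun i => ?_
  by_cases h : i = k
  · simp [Mat_E, h, sub_mul]
  · simp [Mat_E, h]

open Polynomial in
private lemma Mat_E_ne (K : Type u) [Field K] (k l : ℕ) {e : K[X]} (he : e ≠ 0) : Mat_E K k l e ≠ 0 := by
  intro h
  have h1 := congrFun (LinearMap.congr_fun h (fun _ => 1)) k
  simp [Mat_E] at h1
  exact he h1

private lemma Mat_marks_pos : ∀ M : MT2, 1 ≤ M.marks
  | MT2.mark => le_rfl
  | MT2.node a b => by
    have := Mat_marks_pos a
    simp only [MT2.marks]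
    omega
  | MT2.hr a _ => Mat_marks_pos a
  | MT2.hl _ a => Mat_marks_pos a

open Polynomial in
private lemma Mat_pow_sub (K : Type u) [Field K] {k l : ℕ} (h : k < l) : (X ^ l - X ^ k : K[X]) ≠ 0 := by
  intro h0
  have h1 := congrArg (fun q : K[X] => q.coeff l) h0
  simp [coeff_X_pow] at h1
  have h2 : l ≠ k := by omega
  simp [h2] at h1

open Polynomial in
private lemma Mat_main (K : Type u) [Field K] : ∀ (M : MT2) (k : ℕ), ∃ e : K[X], e ≠ 0 ∧
    lam (fun k => Mat_E K k (k + 1) 1) (Mat_c K) M k = Mat_E K k (k + M.marks) e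
  | MT2.mark, k => ⟨1, one_ne_zero, rfl⟩
  | MT2.node a b, k => by
    obtain ⟨e1, h1, h2⟩ := Mat_main K a k
    obtain ⟨e2, h3, h4⟩ := Mat_main K b (k + a.marks)
    refine ⟨e1 * e2, mul_ne_zero h1 h3, ?_⟩
    have ha := Mat_marks_pos a
    have hb := Mat_marks_pos b
    simp only [lam, MT2.marks]
    rw [h2, h4, Mat_E_mul, Mat_E_mul0 K (by omega), sub_zero, add_assoc]
  | MT2.hr a s, k => by
    obtain ⟨e1, h1, h2⟩ := Mat_main K a k
    have ha := Mat_marks_pos a
    refine ⟨e1 * (X ^ (k + a.marks) - X ^ k), mul_ne_zero h1 (Mat_pow_sub K (by omega)), ?_⟩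
    simp only [lam, MT2.marks]
    rw [h2, Mat_E_c, Mat_c_E, Mat_E_sub]
    congr 1
    ring
  | MT2.hl s a, k => by
    obtain ⟨e1, h1, h2⟩ := Mat_main K a k
    have ha := Mat_marks_pos a
    refine ⟨-(e1 * (X ^ (k + a.marks) - X ^ k)),
      neg_ne_zero.2 (mul_ne_zero h1 (Mat_pow_sub K (by omega))), ?_⟩
    simp only [lam, MT2.marks]
    rw [h2, Mat_E_c, Mat_c_E, Mat_E_sub]
    congr 1
    ring

/-! ## Mat inert values -/
theorem exists_mat (K : Type u) [Field K] (n : ℕ) : ∃ (R : Type u) (_ : Ring R) (_ : Algebra K R) (ρ : ℕ → R) (c : R),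
    c ≠ 0 ∧ ∀ M : MT2, M.marks = n → lam ρ c M 0 ≠ 0 := by
  refine ⟨Module.End K (ℕ → Polynomial K), inferInstance, inferInstance,
    fun k => Mat_E K k (k + 1) 1, Mat_c K, ?_, ?_⟩
  · intro h
    have h1 := congrFun (LinearMap.congr_fun h (fun _ => 1)) 0
    simp [Mat_c] at h1
  · intro M _
    obtain ⟨e, h1, h2⟩ := Mat_main K M 0
    rw [h2]
    exact Mat_E_ne K _ _ h1

end Pool.Agent.Bht.BK.AQ
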