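import Pool.Agent.Bht.AQ.N
import Pool.Agent.Bht.AQ.G
import Pool.Agent.Bht.AQ.B
import Pool.Agent.Bht.AQ.Nat
import Pool.Agent.Bht.AQ.Deep
import Pool.Agent.Bht.AQ.Mat
import Pool.Agent.Bht.AQ.Psi

namespace Pool.Agent.Bht.BK.AQ

open Pool.Agent.H25 Pool.Agent.Bht.BK.CZ

universe u

/-! ## Inert functionals -/

private lemma inert_map_id {α β : Type} (e : α → β) (g : β → α) (h : ∀ x, e (g x) = x) :
    ∀ L : LT β, LT.map e (LT.map g L) = L
  | LT.leaf x => by rw [LT.map, LT.map, h]
  | LT.node a b => by rw [LT.map, LT.map, inert_map_id e g h a, inert_map_id e g h b]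

private lemma inert_shape_map {α β : Type} (e : α → β) : ∀ L : LT α, (LT.map e L).shape = L.shape
  | LT.leaf x => rfl
  | LT.node a b => by rw [LT.map, LT.shape, LT.shape, inert_shape_map e a, inert_shape_map e b]

private lemma inert_sum_eq {ι : Type} (f g : ι → ℕ) : ∀ l : List ι, (∀ x ∈ l, f x ≤ g x) →
    (l.map f).sum ≤ (l.map g).sum ∧ ((l.map f).sum = (l.map g).sum → ∀ x ∈ l, f x = g x)
  | [], _ => ⟨le_rfl, fun _ x hx => absurd hx (by simp)⟩
  | a :: l, h => by
    obtain ⟨h1, h2⟩ := inert_sum_eq f g l (fun x hx => h x (List.mem_cons_of_mem _ hx))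
    have h3 := h a List.mem_cons_self
    simp only [List.map_cons, List.sum_cons]
    refine ⟨by omega, fun he x hx => ?_⟩
    rcases List.mem_cons.mp hx with rfl | hx
    · omega
    · exact h2 (by omega) x hx

theorem inert {K : Type u} [Field K] (r : ℕ) (hr : 1 ≤ r) (P : Submodule K (TT K)) (Y : BT) :
    ∃ φ : List ℕ → K,
      (∀ U : LT ℕ, cb r (alN P) Y < cb r (alN P) U.shape → ∀ u v, U.val (fun w => φ (u ++ w ++ v)) = 0) ∧
      (∃ L : LT ℕ, L.shape = Y ∧ L.val φ ≠ 0) ∧
      ∀ Ls : List (LT ℕ), pv Ls φ ≠ 0 →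
        ((Ls.map LT.shape).map (cb r (alN P))).sum ≤ cb r (alN P) Y ∧
        ((Ls.map LT.shape).map BT.lv).sum = Y.lv ∧
        (((Ls.map LT.shape).map (cb r (alN P))).sum = cb r (alN P) Y →
          nu r (alN P) Y ≤ ((Ls.map LT.shape).map (nu r (alN P))).sum) := by
  classical
  set al : BT → Prop := alN P with hal
  obtain ⟨R, iR, iA, ρ, c, hc0, hlam⟩ := exists_mat K (cb r al Y)
  set its : List I1 := [itOf r al Y] with hits
  have hH : its.flatMap I1.hangs = (itOf r al Y).hangs := by
    rw [hits, List.flatMap_singleton]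
  have hN : (its.map I1.marks).sum = cb r al Y := by
    rw [hits, List.map_singleton, List.sum_singleton, it_marks]
  have hcb : ∀ j (hj : j < (its.flatMap I1.hangs).length), cb r al ((its.flatMap I1.hangs)[j]) = 0 := by
    intro j hj
    have h1 : (its.flatMap I1.hangs)[j] ∈ (itOf r al Y).hangs := by
      rw [← hH]; exact List.getElem_mem hj
    exact it_hangs r al Y _ h1
  let ψ : ℕ → List ℕ → K := fun j =>
    if hj : j < (its.flatMap I1.hangs).length then
      Classical.choose (exists_psi' r P ((its.flatMap I1.hangs)[j]) (hcb j hj)).2 else fun _ => 0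
  have hψ : ∀ j (hj : j < (its.flatMap I1.hangs).length),
      ψ j = Classical.choose (exists_psi' r P ((its.flatMap I1.hangs)[j]) (hcb j hj)).2 := by
    intro j hj
    simp only [ψ, dif_pos hj]
  have H1 : ∀ j (hj : j < (its.flatMap I1.hangs).length), ∃ S : LT ℕ, S.shape = (its.flatMap I1.hangs)[j] ∧
      S.leaves = List.range ((its.flatMap I1.hangs)[j]).lv ∧ S.val (ψ j) ≠ 0 := by
    intro j hj
    rw [hψ j hj]
    exact (Classical.choose_spec (exists_psi' r P ((its.flatMap I1.hangs)[j]) (hcb j hj)).2).1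
  set D : Dt K R := dtOf (K := K) ρ c its ψ with hD
  have hDn : D.n = cb r al Y := hN
  have hDJ : D.J = nu r al Y := by
    rw [← it_nu, ← hH]
    rfl
  have hOk : D.Ok r al := by
    intro j hj
    have hj' : j < (its.flatMap I1.hangs).length := hj
    have hsz : D.sz j = ((its.flatMap I1.hangs)[j]).lv := by
      show ((its.flatMap I1.hangs).getD j BT.leaf).lv = _
      rw [List.getD_eq_getElem _ _ hj']
    rw [hsz]
    refine ⟨BT.lv_pos _, (exists_psi' r P ((its.flatMap I1.hangs)[j]) (hcb j hj')).1, fun h S hS hS' => ?_⟩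
    have h2 := (Classical.choose_spec (exists_psi' r P ((its.flatMap I1.hangs)[j]) (hcb j hj')).2).2 h S hS hS'
    show S.val (ψ j) = 0
    rw [hψ j hj']
    exact h2
  obtain ⟨Ls0, hs0, s, hs, hv⟩ := nat_value (K := K) ρ c its ψ H1
  have hshape : Ls0.map LT.shape = [Y] := by
    rw [hs0, hits, List.map_singleton, it_shape]
  have hne : lamL ρ c its 0 ≠ 0 := by
    rw [hits]
    by_cases hY : 0 < cb r al Y
    · have e : itOf r al Y = Sum.inl (dm r al Y) := if_pos hY
      have h3 : (dm r al Y).marks = cb r al Y := by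
        have := it_marks r al Y
        rw [e] at this
        exact this
      rw [e, lamL, lamL, mul_one]
      exact hlam _ h3
    · have e : itOf r al Y = Sum.inr Y := if_neg hY
      rw [e, lamL, lamL, mul_one]
      exact hc0
  obtain ⟨L0, rfl⟩ : ∃ L0, Ls0 = [L0] := by
    match Ls0, hshape with
    | [L], _ => exact ⟨L, rfl⟩
  have hL0 : L0.shape = Y := by simpa using hshape
  have hval0 : vl L0 D.Φ = s • lamL ρ c its 0 := by
    have : pl [L0] D.Φ = vl L0 D.Φ := by
      simp only [pl, List.append_nil]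
    rw [← this]
    exact hv
  have hval1 : vl L0 D.Φ ≠ 0 := by
    rw [hval0]
    exact smul_ne_zero hs hne
  obtain ⟨Λ, hΛ⟩ : ∃ Λ : Module.Dual K R, Λ (vl L0 D.Φ) ≠ 0 := by
    by_contra hcon
    push Not at hcon
    exact hval1 ((Module.forall_dual_apply_eq_zero_iff K _).1 hcon)
  let e : ℕ ≃ L1 := (Denumerable.eqv L1).symm
  let φ : List ℕ → K := fun w => Λ (D.Φ (w.map e))
  have hvalφ : ∀ (U : LT ℕ) (u v : List ℕ), U.val (fun w => φ (u ++ w ++ v)) =
      Λ (vl (LT.map e U) (fun w => D.Φ (u.map e ++ w ++ v.map e))) := by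
    intro U u v
    have h1 : Λ (vl (LT.map e U) (fun w => D.Φ (u.map e ++ w ++ v.map e))) =
        vl (LT.map e U) (fun w => Λ (D.Φ (u.map e ++ w ++ v.map e))) :=
      vl_hom (Λ : R →ₗ[K] K).toAddMonoidHom _ _
    rw [h1, vl_map, vl_val]
    simp only [φ, List.map_append]
  have hpvφ : ∀ Ls : List (LT ℕ), pv Ls φ = Λ (pl (Ls.map (LT.map e)) D.Φ) := by
    intro Ls
    have h1 : Λ (pl (Ls.map (LT.map e)) D.Φ) = pl (Ls.map (LT.map e)) (fun w => Λ (D.Φ w)) :=
      pl_hom (Λ : R →ₗ[K] K).toAddMonoidHom _ _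
    rw [h1, pl_map, pl_pv]
  have hYlv : Y.lv = D.n + ∑ j ∈ Finset.range D.J, D.sz j := by
    have h1 : pl [L0] D.Φ ≠ 0 := by
      have : pl [L0] D.Φ = vl L0 D.Φ := by simp only [pl, List.append_nil]
      rw [this]
      exact hval1
    have h2 := (alive_good D r hr al hOk h1).2.2.1
    rw [← h2]
    simp [hL0]
  refine ⟨φ, ?_, ?_, ?_⟩
  · intro U hU u v
    rw [hvalφ]
    have hUs : (LT.map e U).shape = U.shape := inert_shape_map _ U
    by_cases hm : mk1 (LT.map e U) < cb r al (LT.map e U).shape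
    · rw [few_marks_zero D r hr al hOk _ hm, map_zero]
    · rw [hUs] at hm
      rw [many_marks_zero D _ (by rw [hDn]; omega), map_zero]
  · refine ⟨LT.map e.symm L0, by rw [inert_shape_map, hL0], ?_⟩
    have h1 := hvalφ (LT.map e.symm L0) [] []
    have h2 : LT.map e (LT.map e.symm L0) = L0 := inert_map_id _ _ (fun x => e.apply_symm_apply x) L0
    rw [h2] at h1
    simp only [List.nil_append, List.append_nil, List.map_nil] at h1
    rw [h1]
    exact hΛ
  · intro Ls hLs
    rw [hpvφ] at hLs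
    have h0 : pl (Ls.map (LT.map e)) D.Φ ≠ 0 := by
      intro h
      rw [h, map_zero] at hLs
      exact hLs rfl
    obtain ⟨_, h2, h3, h4⟩ := alive_good D r hr al hOk h0
    have hsh : (Ls.map (LT.map e)).map LT.shape = Ls.map LT.shape := by
      rw [List.map_map]
      apply List.map_congr_left
      intro L _
      exact inert_shape_map _ L
    rw [← hsh]
    set Ms : List (LT L1) := Ls.map (LT.map e) with hMs
    have h5 := inert_sum_eq (fun L : LT L1 => cb r al L.shape) mk1 Ms (fun L hL => (h4 L hL).1)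
    have e1 : ((Ms.map LT.shape).map (cb r al)).sum = (Ms.map (fun L : LT L1 => cb r al L.shape)).sum := by
      rw [List.map_map]; rfl
    have e2 : ((Ms.map LT.shape).map (nu r al)).sum = (Ms.map (fun L : LT L1 => nu r al L.shape)).sum := by
      rw [List.map_map]; rfl
    rw [e1, e2]
    refine ⟨by rw [← hDn, ← h2]; exact h5.1, by rw [h3, hYlv], fun he => ?_⟩
    have h6 := h5.2 (by rw [he, h2, hDn])
    have hgood : ∀ L ∈ Ms, Good r al L := fun L hL => ⟨(h6 L hL).symm, (h4 L hL).2⟩
    have h7 := (blocks D r al hOk h0).1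
    have e3 : (Ms.flatMap mpc).length = (Ms.map (fun L => (mpc L).length)).sum := by
      rw [List.length_flatMap]
    have h8 := (inert_sum_eq (fun L : LT L1 => (mpc L).length) (fun L : LT L1 => nu r al L.shape) Ms
      (fun L hL => (good_mpc.{u} r al L (hgood L hL)).1)).1
    rw [← hDJ]
    rw [e3] at h7
    exact h7.trans h8

end Pool.Agent.Bht.BK.AQ
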