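import Pool.Agent.Bht.AQ.W
import Pool.Agent.Bht.CZ.C1

namespace Pool.Agent.Bht.BK.AQ

open Pool.Agent.H25 Pool.Agent.Bht.BK.CZ

universe u

/-! ## N counting marks -/
section N
variable {K R : Type*} [Field K] [Ring R] [Algebra K R]

private def nIdx : L1 → ℕ
  | Sum.inl _ => 0
  | Sum.inr (_, k) => k

private lemma n_fm (j : ℕ) : ∀ w : List L1, (∀ x ∈ w, inb j x) → w.filterMap (bl j) = w.map nIdx
  | [], _ => rfl
  | x :: w, h => by
    have hx := h x (by simp)
    have ih := n_fm j w (fun y hy => h y (by simp [hy]))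
    rcases x with x | ⟨a, k⟩
    · exact absurd hx (by simp [inb])
    · have ha : a = j := hx
      have : bl j (Sum.inr (a, k)) = some k := by simp [bl, ha]
      rw [List.filterMap_cons_some this, ih]
      rfl

private lemma n_fm_nil (i j : ℕ) (hij : i ≠ j) : ∀ w : List L1, (∀ x ∈ w, inb j x) → w.filterMap (bl i) = []
  | [], _ => rfl
  | x :: w, h => by
    have hx := h x (by simp)
    have ih := n_fm_nil i j hij w (fun y hy => h y (by simp [hy]))
    rcases x with x | ⟨a, k⟩
    · exact absurd hx (by simp [inb])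
    · have ha : a = j := hx
      have : bl i (Sum.inr (a, k)) = none := by simp [bl, ha, Ne.symm hij]
      rw [List.filterMap_cons_none this, ih]

omit [Field K] [Ring R] [Algebra K R] in
private lemma n_all_mem (D : Dt K R) {j k : ℕ} : (Sum.inr (j, k) : L1) ∈ D.all ↔ j < D.J ∧ k < D.sz j := by
  simp only [Dt.all, List.mem_append, List.mem_map, List.mem_flatMap, List.mem_range]
  constructor
  · rintro (⟨x, -, hx⟩ | ⟨a, ha, b, hb, hab⟩)
    · cases hx
    · have := Sum.inr.inj hab
      obtain ⟨rfl, rfl⟩ := Prod.mk.inj this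
      exact ⟨ha, hb⟩
  · rintro ⟨h1, h2⟩
    exact Or.inr ⟨j, h1, k, h2, rfl⟩

private lemma n_countL (l : List (ℕ × ℕ)) : (l.map (Sum.inr : ℕ × ℕ → L1)).countP (fun x => x.isLeft) = 0 := by
  rw [List.countP_eq_zero]
  intro x hx
  obtain ⟨y, -, rfl⟩ := List.mem_map.1 hx
  simp

omit [Field K] [Ring R] [Algebra K R] in
private lemma n_all_marks (D : Dt K R) : D.all.countP (fun x => x.isLeft) = D.n := by
  rw [Dt.all, List.countP_append]
  have h1 : ((List.range D.n).map (Sum.inl : ℕ → L1)).countP (fun x => x.isLeft) = D.n := by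
    rw [List.countP_eq_length.2, List.length_map, List.length_range]
    intro x hx
    obtain ⟨y, -, rfl⟩ := List.mem_map.1 hx
    simp
  have h2 : ((List.range D.J).flatMap (fun j => (List.range (D.sz j)).map
      (fun k => (Sum.inr (j, k) : L1)))).countP (fun x => x.isLeft) = 0 := by
    rw [List.countP_eq_zero]
    intro x hx
    obtain ⟨j, -, hj⟩ := List.mem_flatMap.1 hx
    obtain ⟨k, -, rfl⟩ := List.mem_map.1 hj
    simp
  rw [h1, h2, add_zero]

private lemma n_mk_node (a b : LT L1) : mk1 (LT.node a b) = mk1 a + mk1 b := by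
  simp only [mk1, LT.leaves, List.countP_append]

private lemma n_inb_or (j : ℕ) (x : L1) : inb j x ∨ ¬ inb j x := em _

theorem big_pure_zero (D : Dt K R) (r : ℕ) (hr : 1 ≤ r) (al : BT → Prop) (hD : D.Ok r al) (L : LT L1)
    (hb : 0 < cb r al L.shape) (hm : mk1 L = 0) (u v : List L1) : vl L (fun w => D.Φ (u ++ w ++ v)) = 0 := by
  classical
  rw [vl_ctx]
  split_ifs with hP
  swap
  · rfl
  have hne : L.leaves ≠ [] := by
    intro h
    have h1 := length_leaves L
    rw [h] at h1
    have h2 := L.shape.lv_pos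
    simp at h1
    omega
  obtain ⟨x0, hx0⟩ := List.exists_mem_of_ne_nil _ hne
  have hmx : ∀ x ∈ L.leaves, x.isLeft = false := by
    intro x hx
    have := List.countP_eq_zero.1 (show L.leaves.countP (fun x => x.isLeft) = 0 from hm) x hx
    simpa using this
  rcases x0 with x0 | ⟨j, k0⟩
  · exact absurd (hmx _ hx0) (by simp)
  by_cases h2 : ∃ x ∈ L.leaves, ¬ inb j x
  · rw [zero_pure D _ L hm j ⟨_, hx0, rfl⟩ h2, mul_zero, zero_mul]
  push Not at h2
  -- all leaves in block `j`
  have hnd : (u ++ L.leaves ++ v).Nodup := hP.symm.nodup (all_nodup D)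
  have hndL : L.leaves.Nodup := (List.nodup_append.1 (List.nodup_append.1 hnd).1).2.1
  have hjJ : j < D.J := ((n_all_mem D).1 (hP.subset (by simp [hx0] : Sum.inr (j, k0) ∈ u ++ L.leaves ++ v))).1
  obtain ⟨hs1, hs2, hs3⟩ := hD j hjJ
  -- the numbers
  have hinj : (L.leaves.map nIdx).Nodup := by
    refine (List.nodup_map_iff_inj_on hndL).2 ?_
    intro x hx y hy hxy
    have hx' := h2 x hx
    have hy' := h2 y hy
    rcases x with x | ⟨a, k⟩
    · exact absurd hx' (by simp [inb])
    rcases y with y | ⟨b, l⟩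
    · exact absurd hy' (by simp [inb])
    have e1 : a = j := hx'
    have e2 : b = j := hy'
    have e3 : k = l := hxy
    rw [e1, e2, e3]
  have hsub : ∀ k ∈ L.leaves.map nIdx, k ∈ List.range (D.sz j) := by
    intro k hk
    obtain ⟨x, hx, rfl⟩ := List.mem_map.1 hk
    have hx' := h2 x hx
    rcases x with x | ⟨a, k⟩
    · exact absurd hx' (by simp [inb])
    have e1 : a = j := hx'
    subst e1
    exact List.mem_range.2 ((n_all_mem D).1 (hP.subset
      (List.mem_append_left _ (List.mem_append_right _ hx)))).2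
  have hlen : L.leaves.length ≤ D.sz j := by
    have := (List.subperm_of_subset hinj hsub).length_le
    simpa using this
  have hlv := length_leaves L
  have hBig := (cb_pos_iff r al L.shape).1 hb
  have hB2 : L.shape.lv = r ∧ ¬ al L.shape := by
    rcases hBig with h | h
    · omega
    · exact h
  have hszr : D.sz j = r := by omega
  -- all letters of the block are in `L`
  have hfull : ∀ k, k < D.sz j → Sum.inr (j, k) ∈ L.leaves := by
    intro k hk
    have hp : (L.leaves.map nIdx).Perm (List.range (D.sz j)) :=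
      (List.subperm_of_subset hinj hsub).perm_of_length_le (by simp; omega)
    have := hp.symm.subset (List.mem_range.2 hk)
    obtain ⟨x, hx, hxk⟩ := List.mem_map.1 this
    have hx' := h2 x hx
    rcases x with x | ⟨a, l⟩
    · exact absurd hx' (by simp [inb])
    have e1 : a = j := hx'
    have e2 : l = k := hxk
    rw [← e1, ← e2]
    exact hx
  have hout : ∀ w : List L1, (∀ x ∈ w, x ∈ D.all) → (∀ x ∈ w, x ∉ L.leaves) → w.filterMap (bl j) = [] := by
    intro w hw1 hw2
    rw [List.filterMap_eq_nil_iff]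
    intro x hx
    rcases x with x | ⟨a, k⟩
    · rfl
    · by_cases ha : a = j
      · exfalso
        subst ha
        exact hw2 _ hx (hfull k ((n_all_mem D).1 (hw1 _ hx)).2)
      · simp [bl, ha]
  have hu : u.filterMap (bl j) = [] := by
    refine hout u (fun x hx => hP.subset (by simp [hx])) (fun x hx hx2 => ?_)
    exact (List.disjoint_of_nodup_append (List.nodup_append.1 hnd).1) hx hx2
  have hv : v.filterMap (bl j) = [] := by
    refine hout v (fun x hx => hP.subset (by simp [hx])) (fun x hx hx2 => ?_)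
    exact (List.disjoint_of_nodup_append hnd) (by simp [hx2]) hx
  -- the value
  have hvis : ∀ w : List L1, w.Perm L.leaves → (w.map D.vis).prod = (L.leaves.map D.vis).prod := by
    intro w hw
    refine (hw.map D.vis).prod_eq' ?_
    rw [List.pairwise_map]
    refine List.pairwise_of_forall_mem_list ?_
    intro x hx y hy
    have hx' := h2 x (hw.subset hx)
    have hy' := h2 y (hw.subset hy)
    rcases x with x | ⟨a, k⟩
    · exact absurd hx' (by simp [inb])
    rcases y with y | ⟨b, l⟩
    · exact absurd hy' (by simp [inb])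
    simp only [Dt.vis]
    split_ifs
    · exact Commute.refl _
    · exact Commute.one_right _
    · exact Commute.one_left _
    · exact Commute.refl _
  set κ : ℕ → List ℕ → K := fun i x => D.ψ i (u.filterMap (bl i) ++ x ++ v.filterMap (bl i)) with hκ
  set Y : R := (∏ i ∈ (Finset.range D.J).erase j, κ i []) • (L.leaves.map D.vis).prod with hY
  have hval : ∀ w : List L1, w.Perm L.leaves → D.F κ w = D.ψ j (w.map nIdx) • Y := by
    intro w hw
    have hw2 : ∀ x ∈ w, inb j x := fun x hx => h2 x (hw.subset hx)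
    rw [Dt.F, hvis w hw, ← Finset.mul_prod_erase _ _ (Finset.mem_range.2 hjJ), hY, smul_smul]
    congr 1
    congr 1
    · rw [n_fm j w hw2, hκ]
      simp only [hu, hv, List.nil_append, List.append_nil]
    · refine Finset.prod_congr rfl fun i hi => ?_
      rw [n_fm_nil i j (Finset.ne_of_mem_erase hi) w hw2]
  have h0 : vl L (D.F κ) = 0 := by
    rw [vl_congr L hval]
    have h3 := vl_hom (AddMonoidHom.flip (smulAddHom K R) Y) L (fun w => D.ψ j (w.map nIdx))
    have h4 : vl L (fun w => D.ψ j (w.map nIdx)) = 0 := by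
      rw [vl_val]
      have h5 := val_map nIdx L (D.ψ j)
      rw [← h5]
      refine hs3 hszr _ ?_ ?_
      · rw [shape_map]; exact hB2.1
      · rw [shape_map]; exact hB2.2
    rw [h4, map_zero] at h3
    rw [← vl_congr L (fun w _ => ?_), ← h3]
    rfl
  rw [h0, mul_zero, zero_mul]

private lemma n_exists_clade (r : ℕ) (al : BT → Prop) : ∀ L : LT L1, mk1 L < cb r al L.shape →
    ∃ C : LT L1, LT.Cl C L ∧ 0 < cb r al C.shape ∧ mk1 C = 0 := by
  intro L
  induction L with
  | leaf x =>
    intro h
    have h1 : cb r al (LT.leaf x : LT L1).shape ≤ 1 := by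
      simp only [LT.shape, cb]
      split <;> omega
    exact ⟨_, LT.Cl.refl _, by omega, by omega⟩
  | node a b iha ihb =>
    intro h
    by_cases h0 : cb r al a.shape + cb r al b.shape = 0
    · have h1 : cb r al (LT.node a b).shape ≤ 1 := by
        simp only [LT.shape, cb]
        rw [if_pos h0]
        split <;> omega
      exact ⟨_, LT.Cl.refl _, by omega, by omega⟩
    · have h1 : cb r al (LT.node a b).shape = cb r al a.shape + cb r al b.shape := by
        simp only [LT.shape, cb]
        rw [if_neg h0]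
      rw [n_mk_node, h1] at h
      by_cases h2 : mk1 a < cb r al a.shape
      · obtain ⟨C, hC, h3⟩ := iha h2
        exact ⟨C, LT.Cl.left b hC, h3⟩
      · obtain ⟨C, hC, h3⟩ := ihb (by omega)
        exact ⟨C, LT.Cl.right a hC, h3⟩

theorem few_marks_zero (D : Dt K R) (r : ℕ) (hr : 1 ≤ r) (al : BT → Prop) (hD : D.Ok r al) (L : LT L1)
    (h : mk1 L < cb r al L.shape) (u v : List L1) : vl L (fun w => D.Φ (u ++ w ++ v)) = 0 := by
  obtain ⟨C, hC, h1, h2⟩ := n_exists_clade r al L h
  refine vl_clade_zero hC (φ := fun w => D.Φ (u ++ w ++ v)) fun u' v' => ?_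
  have := big_pure_zero D r hr al hD C h1 h2 (u ++ u') (v' ++ v)
  simpa only [List.append_assoc] using this

theorem many_marks_zero (D : Dt K R) (L : LT L1) (h : D.n < mk1 L) (u v : List L1) :
    vl L (fun w => D.Φ (u ++ w ++ v)) = 0 := by
  classical
  rw [vl_ctx]
  split_ifs with hP
  swap
  · rfl
  exfalso
  have h1 := hP.countP_eq (fun x : L1 => x.isLeft)
  rw [n_all_marks, List.countP_append, List.countP_append] at h1
  have h2 : mk1 L = L.leaves.countP (fun x => x.isLeft) := rfl
  omega

private lemma n_flat_marks : ∀ Ls : List (LT L1),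
    (Ls.map mk1).sum = (Ls.flatMap LT.leaves).countP (fun x => x.isLeft)
  | [] => rfl
  | L :: Ls => by
    rw [List.map_cons, List.sum_cons, List.flatMap_cons, List.countP_append, n_flat_marks Ls]
    rfl

private lemma n_flat_len : ∀ Ls : List (LT L1),
    ((Ls.map LT.shape).map BT.lv).sum = (Ls.flatMap LT.leaves).length
  | [] => rfl
  | L :: Ls => by
    rw [List.map_cons, List.map_cons, List.sum_cons, List.flatMap_cons, List.length_append, n_flat_len Ls,
      length_leaves]

theorem alive_good (D : Dt K R) (r : ℕ) (hr : 1 ≤ r) (al : BT → Prop) (hD : D.Ok r al) {Ls : List (LT L1)}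
    (h : pl Ls D.Φ ≠ 0) : (Ls.flatMap LT.leaves).Perm D.all ∧ (Ls.map mk1).sum = D.n ∧
      ((Ls.map LT.shape).map BT.lv).sum = D.n + ∑ j ∈ Finset.range D.J, D.sz j ∧
      ∀ L ∈ Ls, cb r al L.shape ≤ mk1 L ∧ ∀ C : LT L1, LT.Cl C L → 0 < cb r al C.shape → 1 ≤ mk1 C := by
  classical
  have hP : (Ls.flatMap LT.leaves).Perm D.all := by
    by_contra hc
    rw [pl_F, if_neg hc] at h
    exact h rfl
  refine ⟨hP, ?_, ?_, fun L hL => ⟨?_, fun C hC h1 => ?_⟩⟩
  · rw [n_flat_marks, hP.countP_eq, n_all_marks]
  · rw [n_flat_len, hP.length_eq, all_length]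
  · by_contra hc
    exact h (pl_clade_zero hL (LT.Cl.refl L) (few_marks_zero D r hr al hD L (not_le.1 hc)))
  · by_contra hc
    exact h (pl_clade_zero hL hC (big_pure_zero D r hr al hD C h1 (by omega)))
end N

end Pool.Agent.Bht.BK.AQ
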