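import Pool.Agent.Bht.AQ.Deep

namespace Pool.Agent.Bht.BK.AQ

open Pool.Agent.H25 Pool.Agent.Bht.BK.CZ

universe u

/-! ## Path combinatorics of paths -/
section Path
variable (r : ℕ) (al : BT → Prop)

private theorem path_mem_node {a b : BT} {l : List BT} (hl : l ∈ paths (BT.node a b)) :
    (∃ l' ∈ paths a, l = b :: l') ∨ (∃ l' ∈ paths b, l = a :: l') := by
  rw [paths, List.mem_append, List.mem_map, List.mem_map] at hl
  rcases hl with ⟨l', h, rfl⟩ | ⟨l', h, rfl⟩
  · exact Or.inl ⟨l', h, rfl⟩
  · exact Or.inr ⟨l', h, rfl⟩

private theorem path_left {a : BT} (b : BT) {l' : List BT} (h : l' ∈ paths a) :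
    b :: l' ∈ paths (BT.node a b) := by
  rw [paths, List.mem_append]
  exact Or.inl (List.mem_map_of_mem h)

private theorem path_right (a : BT) {b : BT} {l' : List BT} (h : l' ∈ paths b) :
    a :: l' ∈ paths (BT.node a b) := by
  rw [paths, List.mem_append]
  exact Or.inr (List.mem_map_of_mem h)

private theorem path_leaf {l : List BT} (hl : l ∈ paths BT.leaf) : l = [] := by
  rw [paths, List.mem_singleton] at hl
  exact hl

private theorem path_cb_le : ∀ {Y : BT} {l : List BT}, l ∈ paths Y → ∀ D ∈ l,
    cb r al D ≤ cb r al Y := by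
  intro Y
  induction Y with
  | leaf =>
    intro l hl D hD
    rw [path_leaf hl] at hD
    simp at hD
  | node a b iha ihb =>
    intro l hl D hD
    rcases path_mem_node hl with ⟨l', h, rfl⟩ | ⟨l', h, rfl⟩
    · rcases List.mem_cons.1 hD with rfl | hD'
      · exact cb_le_right r al a D
      · exact (iha h D hD').trans (cb_le_left r al a b)
    · rcases List.mem_cons.1 hD with rfl | hD'
      · exact cb_le_left r al D b
      · exact (ihb h D hD').trans (cb_le_right r al a b)

private theorem path_len : ∀ {Y : BT} {l : List BT}, l ∈ paths Y → l.length ≤ ht Y := by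
  intro Y
  induction Y with
  | leaf =>
    intro l hl
    rw [path_leaf hl]
    exact Nat.zero_le _
  | node a b iha ihb =>
    intro l hl
    rcases path_mem_node hl with ⟨l', h, rfl⟩ | ⟨l', h, rfl⟩
    · have := iha h
      simp only [List.length_cons, ht]
      omega
    · have := ihb h
      simp only [List.length_cons, ht]
      omega

private theorem path_deep (Y : BT) : ∃ l ∈ paths Y, l.length = ht Y := by
  induction Y with
  | leaf => exact ⟨[], by rw [paths]; simp, rfl⟩
  | node a b iha ihb =>
    obtain ⟨la, ha, hla⟩ := iha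
    obtain ⟨lb, hb, hlb⟩ := ihb
    rcases Nat.le_total (ht b) (ht a) with h | h
    · refine ⟨b :: la, path_left b ha, ?_⟩
      simp only [List.length_cons, ht]
      omega
    · refine ⟨a :: lb, path_right a hb, ?_⟩
      simp only [List.length_cons, ht]
      omega

private theorem path_small_children {a b : BT} (h : cb r al (BT.node a b) = 0) :
    cb r al a = 0 ∧ cb r al b = 0 := by
  have h1 := cb_le_left r al a b
  have h2 := cb_le_right r al a b
  omega

private theorem path_th_small {D : BT} (h : cb r al D = 0) : th r al D = LW.c := by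
  cases D with
  | leaf => rw [th, if_pos h]
  | node a b =>
    rw [th, if_pos (path_small_children r al h), if_pos h]

private theorem path_nu_small {D : BT} (h : cb r al D = 0) : nu r al D = 1 := by
  cases D with
  | leaf => rw [nu, if_pos h]
  | node a b =>
    rw [nu, if_pos (path_small_children r al h), if_pos h]

private theorem path_nu_sum {l : List BT} (h : ∀ D ∈ l, cb r al D = 0) :
    (l.map (nu r al)).sum = l.length := by
  induction l with
  | nil => rfl
  | cons D l ih =>
    rw [List.map_cons, List.sum_cons, List.length_cons,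
      path_nu_small r al (h D (List.mem_cons_self)), ih fun E hE => h E (List.mem_cons_of_mem _ hE)]
    omega

private theorem path_cb_sum {l : List BT} (h : ∀ D ∈ l, cb r al D = 0) :
    (l.map (cb r al)).sum = 0 := by
  induction l with
  | nil => rfl
  | cons D l ih =>
    rw [List.map_cons, List.sum_cons, h D (List.mem_cons_self),
      ih fun E hE => h E (List.mem_cons_of_mem _ hE)]

/-- the small siblings of a tree with small children -/
private theorem path_all_small {a b : BT} (ha : cb r al a = 0) (hb : cb r al b = 0) {l : List BT}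
    (hl : l ∈ paths (BT.node a b)) : ∀ D ∈ l, cb r al D = 0 := by
  intro D hD
  rcases path_mem_node hl with ⟨l', h, rfl⟩ | ⟨l', h, rfl⟩
  · rcases List.mem_cons.1 hD with rfl | hD'
    · exact hb
    · have := path_cb_le r al h D hD'
      omega
  · rcases List.mem_cons.1 hD with rfl | hD'
    · exact ha
    · have := path_cb_le r al h D hD'
      omega

private theorem path_cb_leaf (h : 0 < cb r al BT.leaf) : cb r al BT.leaf = 1 := by
  rw [cb] at h ⊢
  split_ifs at h ⊢ <;> omega

private theorem path_cb_node_one {a b : BT} (ha : cb r al a = 0) (hb : cb r al b = 0)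
    (h : 0 < cb r al (BT.node a b)) : cb r al (BT.node a b) = 1 := by
  rw [cb, ha, hb] at h ⊢
  split_ifs at h ⊢ <;> omega

/-- minimal big trees -/
theorem th_min {B : BT} (hB : 0 < cb r al B) (hm : ∀ a b, B = BT.node a b → cb r al a = 0 ∧ cb r al b = 0) :
    th r al B = LW.adc (ht B) ∧ nu r al B = ht B ∧ cb r al B = 1 := by
  cases B with
  | leaf =>
    have h0 : cb r al BT.leaf ≠ 0 := by omega
    refine ⟨?_, ?_, path_cb_leaf r al hB⟩
    · rw [th, if_neg h0]
      rfl
    · rw [nu, if_neg h0]
      rfl
  | node a b =>
    have h1 := hm a b rfl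
    have h0 : cb r al (BT.node a b) ≠ 0 := by omega
    refine ⟨?_, ?_, path_cb_node_one r al h1.1 h1.2 hB⟩
    · rw [th, if_pos h1, if_neg h0]
    · rw [nu, if_pos h1, if_neg h0]

theorem path_small {B : BT} (hm : ∀ a b, B = BT.node a b → cb r al a = 0 ∧ cb r al b = 0) {l : List BT}
    (hl : l ∈ paths B) : (∀ D ∈ l, cb r al D = 0) ∧ (l.map (nu r al)).sum ≤ ht B := by
  have h1 : ∀ D ∈ l, cb r al D = 0 := by
    cases B with
    | leaf =>
      rw [path_leaf hl]
      simp
    | node a b =>
      have h2 := hm a b rfl
      exact path_all_small r al h2.1 h2.2 hl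
  refine ⟨h1, ?_⟩
  rw [path_nu_sum r al h1]
  exact path_len hl

theorem nu_le {Y : BT} (hY : 0 < cb r al Y) {l : List BT} (hl : l ∈ paths Y)
    (h : (l.map (cb r al)).sum + 1 = cb r al Y) : (l.map (nu r al)).sum ≤ nu r al Y := by
  induction Y generalizing l with
  | leaf =>
    rw [path_leaf hl]
    exact Nat.zero_le _
  | node a b iha ihb =>
    by_cases hab : cb r al a = 0 ∧ cb r al b = 0
    · have h1 : ∀ a' b', BT.node a b = BT.node a' b' → cb r al a' = 0 ∧ cb r al b' = 0 := by
        intro a' b' he
        injection he with h2 h3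
        rw [← h2, ← h3]
        exact hab
      rw [(th_min r al hY h1).2.1]
      exact (path_small r al h1 hl).2
    · have h2 : 0 < cb r al a ∨ 0 < cb r al b := by omega
      have h3 := cb_node r al h2
      rw [h3] at h
      rw [nu, if_neg hab]
      rcases path_mem_node hl with ⟨l', h', rfl⟩ | ⟨l', h', rfl⟩
      · rw [List.map_cons, List.sum_cons] at h ⊢
        have := iha (by omega) h' (by omega)
        omega
      · rw [List.map_cons, List.sum_cons] at h ⊢
        have := ihb (by omega) h' (by omega)
        omega

theorem exists_nu {Y : BT} (hY : 0 < cb r al Y) : ∃ l ∈ paths Y, (l.map (cb r al)).sum + 1 = cb r al Y ∧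
    (l.map (nu r al)).sum = nu r al Y := by
  induction Y with
  | leaf =>
    refine ⟨[], by rw [paths]; simp, ?_, ?_⟩
    · rw [path_cb_leaf r al hY]
      rfl
    · rw [nu, if_neg (by omega)]
      rfl
  | node a b iha ihb =>
    by_cases hab : cb r al a = 0 ∧ cb r al b = 0
    · obtain ⟨l, hl, hlen⟩ := path_deep (BT.node a b)
      have h1 := path_all_small r al hab.1 hab.2 hl
      refine ⟨l, hl, ?_, ?_⟩
      · rw [path_cb_sum r al h1, path_cb_node_one r al hab.1 hab.2 hY]
      · rw [path_nu_sum r al h1, hlen, nu, if_pos hab, if_neg (by omega)]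
    · have h2 : 0 < cb r al a ∨ 0 < cb r al b := by omega
      have h3 := cb_node r al h2
      rcases h2 with ha | hb
      · obtain ⟨l, hl, h4, h5⟩ := iha ha
        refine ⟨b :: l, path_left b hl, ?_, ?_⟩
        · rw [List.map_cons, List.sum_cons, h3]
          omega
        · rw [List.map_cons, List.sum_cons, h5, nu, if_neg hab]
          omega
      · obtain ⟨l, hl, h4, h5⟩ := ihb hb
        refine ⟨a :: l, path_right a hl, ?_, ?_⟩
        · rw [List.map_cons, List.sum_cons, h3]
          omega
        · rw [List.map_cons, List.sum_cons, h5, nu, if_neg hab]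

private theorem path_vis_small {R : Type u} [Ring R] (F C : R) (hC : C ≠ 0) {D : BT}
    (h : cb r al D = 0) : Vis F C r al D := by
  unfold Vis
  rw [path_th_small r al h]
  exact hC

theorem vis_path {R : Type u} [Ring R] (F C : R) (hC : C ≠ 0) {Y : BT} (hV : Vis F C r al Y) {l : List BT}
    (hl : l ∈ paths Y) : ∀ D ∈ l, Vis F C r al D := by
  induction Y generalizing l with
  | leaf =>
    rw [path_leaf hl]
    simp
  | node a b iha ihb =>
    by_cases hab : cb r al a = 0 ∧ cb r al b = 0
    · intro D hD
      exact path_vis_small r al F C hC (path_all_small r al hab.1 hab.2 hl D hD)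
    · unfold Vis at hV
      rw [th, if_neg hab, LW.ev] at hV
      have ha : Vis F C r al a := by
        intro h
        rw [h] at hV
        simp at hV
      have hb : Vis F C r al b := by
        intro h
        rw [h] at hV
        simp at hV
      intro D hD
      rcases path_mem_node hl with ⟨l', h', rfl⟩ | ⟨l', h', rfl⟩
      · rcases List.mem_cons.1 hD with rfl | hD'
        · exact hb
        · exact iha ha h' D hD'
      · rcases List.mem_cons.1 hD with rfl | hD'
        · exact ha
        · exact ihb hb h' D hD'

theorem QQ_append {R : Type u} [Ring R] (F C : R) (l m : List BT) :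
    QQ F C r al (l ++ m) = QQ F C r al l + QQ F C r al m := by
  classical
  unfold QQ
  rw [List.filter_append, List.map_append, List.sum_append]

theorem gp_append {R : Type u} [Ring R] (F C : R) (l m : List BT) :
    gp F C r al (l ++ m) = gp F C r al l * gp F C r al m := by
  classical
  unfold gp
  rw [List.filter_append, List.map_append, List.prod_append]

private theorem path_QQ_vis {R : Type u} [Ring R] (F C : R) {l : List BT}
    (h : ∀ D ∈ l, Vis F C r al D) : QQ F C r al l = 0 := by
  classical
  unfold QQ
  rw [List.filter_eq_nil_iff.2 (fun D hD => by simpa using h D hD)]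
  rfl

private theorem path_QQ_le {R : Type u} [Ring R] (F C : R) (l : List BT) :
    QQ F C r al l ≤ (l.map BT.lv).sum ^ 2 := by
  classical
  induction l with
  | nil => simp [QQ]
  | cons D l ih =>
    have h1 : D :: l = [D] ++ l := rfl
    rw [h1, QQ_append, List.map_append, List.sum_append]
    have h2 : QQ F C r al [D] ≤ D.lv ^ 2 := by
      unfold QQ
      by_cases h : Vis F C r al D
      · rw [List.filter_cons_of_neg (by simpa using h)]
        simp
      · rw [List.filter_cons_of_pos (by simpa using h)]
        simp
    have h3 : (([D].map BT.lv).sum) = D.lv := by simp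
    rw [h3]
    nlinarith [Nat.zero_le (D.lv * (l.map BT.lv).sum)]

theorem QQ_path {R : Type u} [Ring R] (F C : R) (hC : C ≠ 0) {Y : BT} {l : List BT} (hl : l ∈ paths Y) :
    QQ F C r al l ≤ QQ F C r al [Y] := by
  classical
  by_cases hV : Vis F C r al Y
  · rw [path_QQ_vis r al F C (vis_path r al F C hC hV hl)]
    exact Nat.zero_le _
  · have h1 : QQ F C r al [Y] = Y.lv ^ 2 := by
      unfold QQ
      rw [List.filter_cons_of_pos (by simpa using hV)]
      simp
    rw [h1]
    refine (path_QQ_le r al F C l).trans (Nat.pow_le_pow_left ?_ 2)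
    have := paths_lv hl
    omega

theorem QQ_small {R : Type u} [Ring R] (F C : R) (hC : C ≠ 0) {l : List BT} (hl : ∀ D ∈ l, cb r al D = 0) :
    QQ F C r al l = 0 :=
  path_QQ_vis r al F C fun D hD => path_vis_small r al F C hC (hl D hD)

end Path

end Pool.Agent.Bht.BK.AQ
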