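import Pool.Agent.Bht.CZ.Sig

/-! Level tests over an arbitrary field: one letter `F` for all marks, one letter `C` for all pure clades. -/

namespace Pool.Agent.Bht.BK.AQ

open Pool.Agent.H25 Pool.Agent.Bht.BK.CZ

section
variable {α : Type} {R : Type*} [AddCommGroup R]

/-- the value of a function of words in a group on a labelled tree -/
def vl : LT α → (List α → R) → R
  | LT.leaf x, φ => φ [x]
  | LT.node a b, φ =>
    vl a (fun p => vl b (fun q => φ (p ++ q))) - vl b (fun q => vl a (fun p => φ (q ++ p)))

/-- the value on a product of labelled trees -/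
def pl : List (LT α) → (List α → R) → R
  | [], φ => φ []
  | L :: Ls, φ => vl L (fun w => pl Ls (fun u => φ (w ++ u)))

end

/-- Lie words in `f` and `c` -/
inductive LW where
  | f : LW
  | c : LW
  | br : LW → LW → LW

namespace LW

/-- degree in `f` -/
def fd : LW → ℕ
  | f => 1
  | c => 0
  | br a b => a.fd + b.fd

/-- evaluation by commutators -/
def ev {R : Type*} [Ring R] (F C : R) : LW → R
  | f => F
  | c => C
  | br a b => ev F C a * ev F C b - ev F C b * ev F C a

/-- `[c, [c, ... [c, f]]]` -/
def adc : ℕ → LW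
  | 0 => f
  | n + 1 => br c (adc n)

end LW

/-- height of a tree -/
def ht : BT → ℕ
  | BT.leaf => 0
  | BT.node a b => max (ht a) (ht b) + 1

section
open Classical
variable (r : ℕ) (al : BT → Prop)

/-- the Lie word of a tree -/
noncomputable def th : BT → LW
  | BT.leaf => if cb r al BT.leaf = 0 then LW.c else LW.f
  | BT.node a b =>
    if cb r al a = 0 ∧ cb r al b = 0 then
      (if cb r al (BT.node a b) = 0 then LW.c else LW.adc (ht (BT.node a b)))
    else LW.br (th a) (th b)

/-- the number of maximal pure clades in the best marking -/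
noncomputable def nu : BT → ℕ
  | BT.leaf => if cb r al BT.leaf = 0 then 1 else 0
  | BT.node a b =>
    if cb r al a = 0 ∧ cb r al b = 0 then
      (if cb r al (BT.node a b) = 0 then 1 else ht (BT.node a b))
    else nu a + nu b

end

/-- letters: `inl k` is mark `k`, `inr (j, k)` letter `k` of block `j` -/
abbrev L1 := ℕ ⊕ (ℕ × ℕ)

/-- the number of a letter of block `j` -/
def bl (j : ℕ) : L1 → Option ℕ
  | Sum.inl _ => none
  | Sum.inr (a, k) => if a = j then some k else none

/-- is in block `j` -/
def inb (j : ℕ) : L1 → Prop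
  | Sum.inl _ => False
  | Sum.inr (a, _) => a = j

/-- the data of a test function: marks, blocks with functionals, values of the marks and of the special letters -/
structure Dt (K R : Type*) where
  n : ℕ
  J : ℕ
  sz : ℕ → ℕ
  ψ : ℕ → List ℕ → K
  ρ : ℕ → R
  c : R

namespace Dt
variable {K R : Type*} [Field K] [Ring R] [Algebra K R]

/-- all letters -/
def all (D : Dt K R) : List L1 :=
  (List.range D.n).map Sum.inl ++
    (List.range D.J).flatMap (fun j => (List.range (D.sz j)).map (fun k => Sum.inr (j, k)))

/-- the values of the letters -/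
def vis (D : Dt K R) : L1 → R
  | Sum.inl k => D.ρ k
  | Sum.inr (_, k) => if k = 0 then D.c else 1

/-- block functionals times the product of the values of the letters -/
def F (D : Dt K R) (κ : ℕ → List ℕ → K) (w : List L1) : R :=
  (∏ j ∈ Finset.range D.J, κ j (w.filterMap (bl j))) • (w.map D.vis).prod

open Classical in
/-- the test function -/
noncomputable def Φ (D : Dt K R) (w : List L1) : R := if w.Perm D.all then D.F D.ψ w else 0

/-- the data fit the level `(r, al)` -/
def Ok (D : Dt K R) (r : ℕ) (al : BT → Prop) : Prop :=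
  ∀ j < D.J, 1 ≤ D.sz j ∧ D.sz j ≤ r ∧
    (D.sz j = r → ∀ S : LT ℕ, S.shape.lv = r → ¬ al S.shape → S.val (D.ψ j) = 0)

end Dt

/-- number of marks -/
def mk1 (L : LT L1) : ℕ := L.leaves.countP (fun x => x.isLeft)

/-- the maximal clades without marks -/
def mpc : LT L1 → List (LT L1)
  | LT.leaf x => if mk1 (LT.leaf x) = 0 then [LT.leaf x] else []
  | LT.node a b => if mk1 (LT.node a b) = 0 then [LT.node a b] else mpc a ++ mpc b

/-- the Lie word of a labelled tree -/
def tw : LT L1 → LW
  | LT.leaf x => if mk1 (LT.leaf x) = 0 then LW.c else LW.f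
  | LT.node a b => if mk1 (LT.node a b) = 0 then LW.c else LW.br (tw a) (tw b)

/-- exactly one mark in each minimal big clade -/
def Good (r : ℕ) (al : BT → Prop) (L : LT L1) : Prop :=
  mk1 L = cb r al L.shape ∧ ∀ C : LT L1, LT.Cl C L → 0 < cb r al C.shape → 1 ≤ mk1 C

/-- equal up to a sign -/
def pm {R : Type*} [Ring R] (x y : R) : Prop := x = y ∨ x = -y

/-- the value of a marked tree, marks numbered from `k` -/
def lam {R : Type*} [Ring R] (ρ : ℕ → R) (c : R) : MT2 → ℕ → R
  | MT2.mark, k => ρ k
  | MT2.node a b, k =>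
    lam ρ c a k * lam ρ c b (k + a.marks) - lam ρ c b (k + a.marks) * lam ρ c a k
  | MT2.hr a _, k => lam ρ c a k * c - c * lam ρ c a k
  | MT2.hl _ a, k => c * lam ρ c a k - lam ρ c a k * c

/-- items: a marked tree, or a tree without marks -/
abbrev I1 := MT2 ⊕ BT

namespace I1

/-- shape -/
def shape : I1 → BT
  | Sum.inl M => M.shape
  | Sum.inr s => s

/-- number of marks -/
def marks : I1 → ℕ
  | Sum.inl M => M.marks
  | Sum.inr _ => 0

/-- pure clades -/
def hangs : I1 → List BT
  | Sum.inl M => M.hangs
  | Sum.inr s => [s]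

end I1

/-- the value of a list of items, marks numbered from `k` -/
def lamL {R : Type*} [Ring R] (ρ : ℕ → R) (c : R) : List I1 → ℕ → R
  | [], _ => 1
  | Sum.inl M :: its, k => lam ρ c M k * lamL ρ c its (k + M.marks)
  | Sum.inr _ :: its, k => c * lamL ρ c its k

/-- the data of a list of items -/
def dtOf {K R : Type*} (ρ : ℕ → R) (c : R) (its : List I1) (ψ : ℕ → List ℕ → K) : Dt K R where
  n := (its.map I1.marks).sum
  J := (its.flatMap I1.hangs).length
  sz := fun j => ((its.flatMap I1.hangs).getD j BT.leaf).lv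
  ψ := ψ
  ρ := ρ
  c := c

/-- the deepest leaf marked -/
def dp : BT → MT2
  | BT.leaf => MT2.mark
  | BT.node a b => if ht b ≤ ht a then MT2.hr (dp a) b else MT2.hl a (dp b)

open Classical in
/-- the deepest leaf of every minimal big clade marked -/
noncomputable def dm (r : ℕ) (al : BT → Prop) : BT → MT2
  | BT.leaf => MT2.mark
  | BT.node a b =>
    if 0 < cb r al a ∧ 0 < cb r al b then MT2.node (dm r al a) (dm r al b)
    else if 0 < cb r al b then MT2.hl a (dm r al b)
    else if 0 < cb r al a then MT2.hr (dm r al a) b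
    else dp (BT.node a b)

open Classical in
/-- the item of a tree -/
noncomputable def itOf (r : ℕ) (al : BT → Prop) (D : BT) : I1 :=
  if 0 < cb r al D then Sum.inl (dm r al D) else Sum.inr D

/-- the algebra of class 0: truncated in `F`, a domain, and the root test -/
structure AlgOK (K : Type*) [Field K] (p : ℕ) (R : Type*) [Ring R] [Algebra K R] (F C : R) : Prop where
  dom : ∀ x y : R, x * y = 0 → x = 0 ∨ y = 0
  one : (1 : R) ≠ 0
  tok : C ≠ 0
  kill : ∀ t : LW, p ≤ t.fd → t.ev F C = 0
  adc : ∀ d, (LW.adc d).ev F C ≠ 0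
  root : ∀ (d : ℕ) (ts : List LW), (∀ t ∈ ts, t.ev F C ≠ 0) → (ts.map LW.fd).sum + 2 ≤ p →
    ∀ y : R, (LW.adc d).ev F C * (ts.map (LW.ev F C)).prod ≠ C * y

section
open Classical
variable {R : Type*} [Ring R] (F C : R) (r : ℕ) (al : BT → Prop)

/-- visible in class 0 -/
def Vis (D : BT) : Prop := (th r al D).ev F C ≠ 0

/-- the squares of the invisible factors -/
noncomputable def QQ (Ds : List BT) : ℕ := ((Ds.filter (fun D => ¬ Vis F C r al D)).map (fun D => D.lv ^ 2)).sum

/-- the product of the visible factors -/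
noncomputable def gp (Ds : List BT) : R :=
  ((Ds.filter (fun D => Vis F C r al D)).map (fun D => (th r al D).ev F C)).prod

end

end Pool.Agent.Bht.BK.AQ
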