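import Pool.Agent.Bht.AQ.Force
import Pool.Agent.Bht.AQ.Path
import Pool.Agent.Bht.AQ.Alg
import Pool.Agent.Bht.CZ.A2

namespace Pool.Agent.Bht.BK.AQ

open Pool.Agent.H25 Pool.Agent.Bht.BK.CZ

universe u

/-! ## T1q the level test -/

private lemma T1q_opt {X : Type*} (S : X → Prop) (a b : X → ℕ) (N : ℕ) (hN : ∀ x, S x → a x ≤ N)
    (hS : ∃ x, S x) : ∃ x, S x ∧ ∀ y, S y → a y ≤ a x ∧ (a y = a x → b x ≤ b y) := by
  classical
  have h1 : ∃ n, ∃ x, S x ∧ N - a x = n := by
    obtain ⟨x, hx⟩ := hS
    exact ⟨_, x, hx, rfl⟩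
  obtain ⟨x0, hx0, hx1⟩ := Nat.find_spec h1
  have hmin : ∀ y, S y → a y ≤ a x0 := by
    intro y hy
    have := Nat.find_min' h1 ⟨y, hy, rfl⟩
    have h2 := hN y hy
    have h3 := hN x0 hx0
    omega
  have h2 : ∃ n, ∃ x, S x ∧ a x = a x0 ∧ b x = n := ⟨_, x0, hx0, rfl, rfl⟩
  obtain ⟨x, hx, hx2, hx3⟩ := Nat.find_spec h2
  refine ⟨x, hx, fun y hy => ⟨by rw [hx2]; exact hmin y hy, fun e => ?_⟩⟩
  rw [hx3]
  exact Nat.find_min' h2 ⟨y, hy, by rw [e, hx2], rfl⟩

private lemma T1q_notAnn {α : Type} {K : Type*} [Field K] {l : List BT} {φ : List α → K} (h : ¬ Ann [l] φ) :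
    ∃ Ls : List (LT α), Ls.map LT.shape = l ∧ pv Ls φ ≠ 0 := by
  by_contra hcon
  push Not at hcon
  apply h
  intro l' hl' Ls hLs
  rw [List.mem_singleton] at hl'
  exact hcon Ls (by rw [hLs, hl'])

private lemma T1q_last {K : Type u} [Field K] {r : ℕ} {P : Submodule K (TT K)} {p : ℕ} {hs : List BT}
    {R : Type u} [Ring R] [Algebra K R] (F C : R) {A B A' B' : BT}
    (hcX : cb r (alN P) (BT.node A B) = p) (hcX' : cb r (alN P) (BT.node A' B') = p)
    {l : List BT} (hl : (l.map (cb r (alN P))).sum + 1 = p)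
    (hopt : ∀ y, ((y ∈ paths (BT.node A B) ∨ y ∈ paths (BT.node A' B')) ∧ (y.map (cb r (alN P))).sum + 1 = p) →
      (y.map (nu r (alN P))).sum ≤ (l.map (nu r (alN P))).sum ∧
      ((y.map (nu r (alN P))).sum = (l.map (nu r (alN P))).sum → QQ F C r (alN P) l ≤ QQ F C r (alN P) y))
    {τ : R →ₗ[K] K} {φ : List (ℕ × ℕ) → K}
    (hφ : ∀ Ls : List (LT (ℕ × ℕ)), pv Ls φ ≠ 0 →
        ((Ls.map LT.shape).map (cb r (alN P))).sum ≤ ((hs ++ l).map (cb r (alN P))).sum ∧
        (((Ls.map LT.shape).map (cb r (alN P))).sum = ((hs ++ l).map (cb r (alN P))).sum →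
          ((hs ++ l).map (nu r (alN P))).sum ≤ ((Ls.map LT.shape).map (nu r (alN P))).sum ∧
          (((Ls.map LT.shape).map (nu r (alN P))).sum = ((hs ++ l).map (nu r (alN P))).sum →
            QQ F C r (alN P) (hs ++ l) ≤ QQ F C r (alN P) (Ls.map LT.shape) →
            QQ F C r (alN P) (Ls.map LT.shape) = QQ F C r (alN P) (hs ++ l) ∧
              τ (gp F C r (alN P) (Ls.map LT.shape)) ≠ 0)))
    {l' : List BT} (hl' : l' ∈ paths (BT.node A B) ∨ l' ∈ paths (BT.node A' B')) (hne : ¬ Ann [hs ++ l'] φ) :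
    (l'.map (cb r (alN P))).sum + 1 = p ∧ (l'.map (nu r (alN P))).sum = (l.map (nu r (alN P))).sum ∧
      QQ F C r (alN P) l' = QQ F C r (alN P) l ∧ τ (gp F C r (alN P) (hs ++ l')) ≠ 0 := by
  obtain ⟨Ls, hLs, hLs2⟩ := T1q_notAnn hne
  obtain ⟨h1, h2⟩ := hφ Ls hLs2
  rw [hLs] at h1 h2
  rw [List.map_append, List.sum_append, List.map_append, List.sum_append] at h1 h2
  have h3 : p ≤ (l'.map (cb r (alN P))).sum + 1 := by
    rcases hl' with h | h
    · have := paths_sum r (alN P) h; omega
    · have := paths_sum r (alN P) h; omega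
  have h4 : (l'.map (cb r (alN P))).sum + 1 = p := by omega
  obtain ⟨h5, h6⟩ := h2 (by omega)
  rw [List.map_append, List.sum_append, List.map_append, List.sum_append] at h5 h6
  obtain ⟨h7, h8⟩ := hopt l' ⟨hl', h4⟩
  have h9 : (l'.map (nu r (alN P))).sum = (l.map (nu r (alN P))).sum := by omega
  have h10 := h8 h9
  rw [QQ_append, QQ_append] at h6
  obtain ⟨h11, h12⟩ := h6 (by omega) (by omega)
  exact ⟨h4, h9, by omega, h12⟩

open Classical in
theorem T1q {K : Type u} [Field K] (r : ℕ) (hr : 1 ≤ r) (P : Submodule K (TT K)) (p : ℕ) (hs : List BT)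
    (hhs : ∀ h ∈ hs, cb r (alN P) h < p) (A B A' B' : BT) (hA : 0 < cb r (alN P) A) (hB : 0 < cb r (alN P) B)
    (hBm : ∀ a b, B = BT.node a b → cb r (alN P) a = 0 ∧ cb r (alN P) b = 0)
    (hp : cb r (alN P) A + cb r (alN P) B = p) (hA' : cb r (alN P) A' = p) (hB' : cb r (alN P) B' = 0)
    (h1 : UA K (JL r (alN P) p) (PP hs (paths (BT.node A' B'))) ⊆ UA K (JL r (alN P) p) (PP hs (paths (BT.node A B))))
    (h2 : UA K (JL r (alN P) p) (PP hs (paths (BT.node A B))) ⊆ UA K (JL r (alN P) p) (PP hs (paths (BT.node A' B')))) :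
    False := by
  obtain ⟨R, iR, iA, F, C, hR⟩ := exists_alg K p (by omega)
  obtain ⟨hthB, hnuB, hcB⟩ := th_min r (alN P) hB hBm
  have hcX : cb r (alN P) (BT.node A B) = p := by rw [cb_node r (alN P) (Or.inl hA)]; omega
  have hcX' : cb r (alN P) (BT.node A' B') = p := by rw [cb_node r (alN P) (Or.inl (by omega))]; omega
  have hVB : Vis F C r (alN P) B := by
    rw [Vis, hthB]
    exact hR.adc _
  have hQB : QQ F C r (alN P) [B] = 0 := by
    rw [QQ, List.filter_cons, if_neg (by simpa using hVB)]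
    rfl
  obtain ⟨l0, hl0, hl0s, hl0n⟩ := exists_nu r (alN P) hA
  -- the maximal path through `B`
  have hB0 : B :: l0 ∈ paths (BT.node A B) := by
    rw [paths, List.mem_append, List.mem_map]
    exact Or.inl ⟨l0, hl0, rfl⟩
  have hB0s : ((B :: l0).map (cb r (alN P))).sum + 1 = p := by
    rw [List.map_cons, List.sum_cons]; omega
  have hdom : ∀ Ds : List BT, gp F C r (alN P) Ds ≠ 0 := by
    intro Ds
    rw [gp]
    have : ∀ xs : List R, (∀ x ∈ xs, x ≠ 0) → xs.prod ≠ 0 := by
      intro xs
      induction xs with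
      | nil => intro _; rw [List.prod_nil]; exact hR.one
      | cons x xs ih =>
        intro h h0
        rw [List.prod_cons] at h0
        rcases hR.dom _ _ h0 with h3 | h3
        · exact h x List.mem_cons_self h3
        · exact ih (fun y hy => h y (List.mem_cons_of_mem _ hy)) h3
    apply this
    intro x hx
    obtain ⟨D, hD, rfl⟩ := List.mem_map.1 hx
    rw [List.mem_filter] at hD
    have h9 : Vis F C r (alN P) D := by simpa using hD.2
    exact h9
  obtain ⟨l, ⟨hl, hls⟩, hopt⟩ := T1q_opt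
    (fun l => (l ∈ paths (BT.node A B) ∨ l ∈ paths (BT.node A' B')) ∧ (l.map (cb r (alN P))).sum + 1 = p)
    (fun l => (l.map (nu r (alN P))).sum) (fun l => QQ F C r (alN P) l)
    (nu r (alN P) (BT.node A B) + nu r (alN P) (BT.node A' B'))
    (by
      rintro x ⟨hx | hx, hx2⟩
      · have := nu_le r (alN P) (Y := BT.node A B) (by omega) hx (by omega)
        change (x.map (nu r (alN P))).sum ≤ _
        omega
      · have := nu_le r (alN P) (Y := BT.node A' B') (by omega) hx (by omega)
        change (x.map (nu r (alN P))).sum ≤ _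
        omega) ⟨B :: l0, Or.inl hB0, hB0s⟩
  change ∀ y, _ → (y.map (nu r (alN P))).sum ≤ (l.map (nu r (alN P))).sum ∧
      ((y.map (nu r (alN P))).sum = (l.map (nu r (alN P))).sum → QQ F C r (alN P) l ≤ QQ F C r (alN P) y) at hopt
  have hDs : ∀ l : List BT, (l.map (cb r (alN P))).sum + 1 = p → ∀ D ∈ hs ++ l, cb r (alN P) D < p := by
    intro l hl D hD
    rcases List.mem_append.1 hD with hD | hD
    · exact hhs D hD
    · have := List.single_le_sum (l := l.map (cb r (alN P))) (fun _ _ => Nat.zero_le _) _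
        (List.mem_map.2 ⟨D, hD, rfl⟩)
      omega
  by_cases hcase : ∃ l1 ∈ paths (BT.node A B), (l1.map (cb r (alN P))).sum + 1 = p ∧
      (l1.map (nu r (alN P))).sum = (l.map (nu r (alN P))).sum ∧ QQ F C r (alN P) l1 = QQ F C r (alN P) l
  · -- an optimum on the side of `X`, with root sibling `B`
    have h3 : ∃ l2 ∈ paths A, ((B :: l2).map (cb r (alN P))).sum + 1 = p ∧
        ((B :: l2).map (nu r (alN P))).sum = (l.map (nu r (alN P))).sum ∧
        QQ F C r (alN P) (B :: l2) = QQ F C r (alN P) l := by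
      obtain ⟨l1, hl1, hl1s, hl1n, hl1q⟩ := hcase
      rw [paths, List.mem_append, List.mem_map, List.mem_map] at hl1
      rcases hl1 with ⟨l2, h4, rfl⟩ | ⟨l2, h4, rfl⟩
      · exact ⟨l2, h4, hl1s, hl1n, hl1q⟩
      · refine ⟨l0, hl0, hB0s, ?_, ?_⟩
        · have h5 := (hopt (B :: l0) ⟨Or.inl hB0, hB0s⟩).1
          have h6 := (path_small r (alN P) hBm h4).2
          rw [List.map_cons, List.sum_cons] at h5 hl1n ⊢
          omega
        · have h5 := (hopt (B :: l0) ⟨Or.inl hB0, hB0s⟩).1
          have h6 := (path_small r (alN P) hBm h4).2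
          have h7 := (hopt (B :: l0) ⟨Or.inl hB0, hB0s⟩).2 (by
            rw [List.map_cons, List.sum_cons] at h5 hl1n ⊢
            omega)
          have h8 := QQ_append r (alN P) F C [B] l0
          have h9 := QQ_append r (alN P) F C [A] l2
          have h10 := QQ_path r (alN P) F C hR.tok hl0
          rw [List.singleton_append] at h8 h9
          omega
    obtain ⟨l2, hl2, hl2s, hl2n, hl2q⟩ := h3
    have hB2 : B :: l2 ∈ paths (BT.node A B) := by
      rw [paths, List.mem_append, List.mem_map]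
      exact Or.inl ⟨l2, hl2, rfl⟩
    -- the functional
    let g : R := gp F C r (alN P) hs
    let W : Submodule K R := LinearMap.range (LinearMap.mulLeft K (g * C))
    have hW : gp F C r (alN P) (hs ++ B :: l2) ∉ W := by
      rintro ⟨y, hy⟩
      rw [LinearMap.mulLeft_apply, gp_append, mul_assoc] at hy
      have hy2 : g * (gp F C r (alN P) (B :: l2) - C * y) = 0 := by
        rw [mul_sub, hy, sub_self]
      rcases hR.dom _ _ hy2 with h3 | h3
      · exact hdom hs h3
      · have h4 : gp F C r (alN P) (B :: l2) = C * y := sub_eq_zero.1 h3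
        have h5 : gp F C r (alN P) (B :: l2) = (LW.adc (ht B)).ev F C *
            (((l2.filter (fun D => decide (Vis F C r (alN P) D))).map (th r (alN P))).map (LW.ev F C)).prod := by
          rw [gp, List.filter_cons, if_pos (by simpa using hVB), List.map_cons, List.prod_cons, hthB, List.map_map]
          rfl
        rw [h5] at h4
        refine hR.root _ _ ?_ ?_ y h4
        · intro t ht
          obtain ⟨D, hD, rfl⟩ := List.mem_map.1 ht
          rw [List.mem_filter] at hD
          have h9 : Vis F C r (alN P) D := by simpa using hD.2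
          exact h9
        · have h6 : (((l2.filter (fun D => decide (Vis F C r (alN P) D))).map (th r (alN P))).map LW.fd).sum ≤
              (l2.map (cb r (alN P))).sum := by
            rw [List.map_map]
            have h7 : (LW.fd ∘ th r (alN P)) = cb r (alN P) := funext (fun D => fd_th r (alN P) D)
            rw [h7]
            exact List.Sublist.sum_le_sum ((List.filter_sublist).map _) (fun _ _ => Nat.zero_le _)
          rw [List.map_cons, List.sum_cons] at hl2s
          omega
    obtain ⟨τ, hτ1, hτ2⟩ := Submodule.exists_le_ker_of_notMem hW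
    obtain ⟨φ, hK, hG, hF⟩ := force r hr P p (by omega) R F C hR.kill (hs ++ B :: l2) (hDs _ hl2s) τ
    have hne := hG hτ1
    apply hne
    have hann : Ann (PP hs (paths (BT.node A' B'))) φ := by
      intro l' hl' Ls hLs
      obtain ⟨l3, hl3, rfl⟩ := List.mem_map.1 hl'
      by_contra hcon
      obtain ⟨h5, -, -, h8⟩ := T1q_last F C hcX hcX' hl2s (by
          intro y hy
          rw [hl2n, hl2q]
          exact hopt y hy) hF (Or.inr hl3) (fun hann => hcon (hann _ (List.mem_singleton.2 rfl) Ls hLs))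
      rw [paths, List.mem_append, List.mem_map, List.mem_map] at hl3
      rcases hl3 with ⟨l4, hl4, rfl⟩ | ⟨l4, hl4, rfl⟩
      · apply h8
        have hVB' : Vis F C r (alN P) B' := by
          rw [Vis, th_small r (alN P) hB']
          exact hR.tok
        have h9 : gp F C r (alN P) (hs ++ B' :: l4) = g * C * gp F C r (alN P) l4 := by
          rw [gp_append, mul_assoc]
          congr 1
          rw [gp, List.filter_cons, if_pos (by simpa using hVB'), List.map_cons, List.prod_cons,
            th_small r (alN P) hB']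
          rfl
        rw [h9]
        exact LinearMap.mem_ker.1 (hτ2 ⟨gp F C r (alN P) l4, rfl⟩)
      · rw [List.map_cons, List.sum_cons] at h5
        omega
    have hann2 := UA_transfer h1 hK hann
    intro l' hl'
    rw [List.mem_singleton] at hl'
    rw [hl']
    exact hann2 _ (List.mem_map.2 ⟨_, hB2, rfl⟩)
  · -- no optimum on the side of `X`
    have hlX' : l ∈ paths (BT.node A' B') := by
      rcases hl with hl | hl
      · exact absurd ⟨l, hl, hls, rfl, rfl⟩ hcase
      · exact hl
    obtain ⟨τ, hτ⟩ : ∃ τ : R →ₗ[K] K, τ (gp F C r (alN P) (hs ++ l)) ≠ 0 := by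
      by_contra hcon
      push Not at hcon
      exact hdom (hs ++ l) ((Module.forall_dual_apply_eq_zero_iff K _).1 hcon)
    obtain ⟨φ, hK, hG, hF⟩ := force r hr P p (by omega) R F C hR.kill (hs ++ l) (hDs _ hls) τ
    have hne := hG hτ
    apply hne
    have hann : Ann (PP hs (paths (BT.node A B))) φ := by
      intro l' hl' Ls hLs
      obtain ⟨l3, hl3, rfl⟩ := List.mem_map.1 hl'
      by_contra hcon
      obtain ⟨h5, h6, h7, -⟩ := T1q_last F C hcX hcX' hls hopt hF (Or.inl hl3)
        (fun hann => hcon (hann _ (List.mem_singleton.2 rfl) Ls hLs))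
      exact hcase ⟨l3, hl3, h5, h6, h7⟩
    have hann2 := UA_transfer h2 hK hann
    intro l' hl'
    rw [List.mem_singleton] at hl'
    rw [hl']
    exact hann2 _ (List.mem_map.2 ⟨_, hlX', rfl⟩)

end Pool.Agent.Bht.BK.AQ
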