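import Pool.Agent.Bht.AQ.Sig

namespace Pool.Agent.Bht.BK.AQ

open Pool.Agent.H25 Pool.Agent.Bht.BK.CZ

universe u

/-! ## V basic lemmas on values -/
section V
variable {α β : Type} {R S : Type*}

lemma vl_congr [AddCommGroup R] (L : LT α) {φ χ : List α → R} (h : ∀ w, w.Perm L.leaves → φ w = χ w) :
    vl L φ = vl L χ := by
  induction L generalizing φ χ with
  | leaf x => exact h [x] (List.Perm.refl _)
  | node a b iha ihb =>
    rw [vl, vl]
    congr 1
    · refine iha (fun p hp => ihb (fun q hq => h _ ?_))
      exact hp.append hq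
    · refine ihb (fun q hq => iha (fun p hp => h _ ?_))
      exact (List.perm_append_comm).trans (hp.append hq)

lemma vl_hom [AddCommGroup R] [AddCommGroup S] (f : R →+ S) (L : LT α) (φ : List α → R) :
    f (vl L φ) = vl L (fun w => f (φ w)) := by
  induction L generalizing φ with
  | leaf x => rfl
  | node a b iha ihb => rw [vl, vl, map_sub]; simp only [iha, ihb]

lemma vl_zero [AddCommGroup R] (L : LT α) : vl L (fun _ => (0 : R)) = 0 := by
  induction L with
  | leaf x => rfl
  | node a b iha ihb => rw [vl]; simp only [iha, ihb, sub_self]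

lemma vl_add [AddCommGroup R] (L : LT α) (φ χ : List α → R) : vl L (fun w => φ w + χ w) = vl L φ + vl L χ := by
  induction L generalizing φ χ with
  | leaf x => rfl
  | node a b iha ihb => rw [vl, vl, vl]; simp only [iha, ihb]; abel

lemma vl_sub [AddCommGroup R] (L : LT α) (φ χ : List α → R) : vl L (fun w => φ w - χ w) = vl L φ - vl L χ := by
  induction L generalizing φ χ with
  | leaf x => rfl
  | node a b iha ihb => rw [vl, vl, vl]; simp only [iha, ihb]; abel

lemma vl_smul {K : Type*} [Field K] [AddCommGroup R] [Module K R] (L : LT α) (c : K) (φ : List α → R) :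
    vl L (fun w => c • φ w) = c • vl L φ := by
  induction L generalizing φ with
  | leaf x => rfl
  | node a b iha ihb => rw [vl, vl]; simp only [iha, ihb, smul_sub]

lemma vl_vl [AddCommGroup R] (L : LT α) (M : LT β) (φ : List α → List β → R) :
    vl L (fun p => vl M (fun q => φ p q)) = vl M (fun q => vl L (fun p => φ p q)) := by
  induction L generalizing φ with
  | leaf x => rfl
  | node a b iha ihb =>
    simp only [vl]
    rw [vl_sub]
    congr 1
    · rw [← iha]
      simp only [ihb]
    · rw [← ihb]
      simp only [iha]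

lemma vl_mul_left [Ring R] (L : LT α) (c : R) (φ : List α → R) : vl L (fun w => c * φ w) = c * vl L φ :=
  (vl_hom (AddMonoidHom.mulLeft c) L φ).symm

lemma vl_mul_right [Ring R] (L : LT α) (c : R) (φ : List α → R) : vl L (fun w => φ w * c) = vl L φ * c :=
  (vl_hom (AddMonoidHom.mulRight c) L φ).symm

lemma vl_map [AddCommGroup R] (f : α → β) (L : LT α) (φ : List β → R) :
    vl (LT.map f L) φ = vl L (fun w => φ (w.map f)) := by
  induction L generalizing φ with
  | leaf x => rfl
  | node a b iha ihb => simp only [LT.map, vl, iha, ihb, List.map_append]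

lemma vl_val {K : Type*} [Field K] (L : LT α) (φ : List α → K) : vl L φ = L.val φ := by
  induction L generalizing φ with
  | leaf x => rfl
  | node a b iha ihb => rw [vl, LT.val]; simp only [iha, ihb]

private lemma V43_filt (s : α → Prop) [DecidablePred s] (p : List α) :
    ((∀ x ∈ p, s x) → p.filter (fun x => s x) = p ∧ p.filter (fun x => ¬ s x) = []) ∧
    ((∀ x ∈ p, ¬ s x) → p.filter (fun x => s x) = [] ∧ p.filter (fun x => ¬ s x) = p) := by
  constructor
  · intro h
    exact ⟨List.filter_eq_self.2 (by simpa using h), List.filter_eq_nil_iff.2 (by simpa using h)⟩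
  · intro h
    exact ⟨List.filter_eq_nil_iff.2 (by simpa using h), List.filter_eq_self.2 (by simpa using h)⟩

/-- two classes of letters -/
lemma vl_two [AddCommGroup R] (L : LT α) (s : α → Prop) [DecidablePred s] (χ : List α → List α → R)
    (h1 : ∃ x ∈ L.leaves, s x) (h2 : ∃ x ∈ L.leaves, ¬ s x) :
    vl L (fun w => χ (w.filter (fun x => s x)) (w.filter (fun x => ¬ s x))) = 0 := by
  induction L generalizing χ with
  | leaf x =>
    obtain ⟨y, hy, h1⟩ := h1
    obtain ⟨z, hz, h2⟩ := h2
    simp only [LT.leaves, List.mem_singleton] at hy hz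
    subst hy; subst hz
    exact absurd h1 h2
  | node a b iha ihb =>
    rw [vl]
    simp only [List.filter_append]
    by_cases ha : (∃ x ∈ a.leaves, s x) ∧ (∃ x ∈ a.leaves, ¬ s x)
    · have e1 : ∀ q : List α, vl a (fun p => χ (p.filter (fun x => s x) ++ q.filter (fun x => s x))
          (p.filter (fun x => ¬ s x) ++ q.filter (fun x => ¬ s x))) = 0 := fun q =>
        iha (fun u v => χ (u ++ q.filter (fun x => s x)) (v ++ q.filter (fun x => ¬ s x))) ha.1 ha.2
      have e2 : ∀ q : List α, vl a (fun p => χ (q.filter (fun x => s x) ++ p.filter (fun x => s x))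
          (q.filter (fun x => ¬ s x) ++ p.filter (fun x => ¬ s x))) = 0 := fun q =>
        iha (fun u v => χ (q.filter (fun x => s x) ++ u) (q.filter (fun x => ¬ s x) ++ v)) ha.1 ha.2
      rw [vl_vl a b]
      simp only [e1, e2, vl_zero, sub_self]
    · by_cases hb : (∃ x ∈ b.leaves, s x) ∧ (∃ x ∈ b.leaves, ¬ s x)
      · have e1 : ∀ p : List α, vl b (fun q => χ (p.filter (fun x => s x) ++ q.filter (fun x => s x))
            (p.filter (fun x => ¬ s x) ++ q.filter (fun x => ¬ s x))) = 0 := fun p =>
          ihb (fun u v => χ (p.filter (fun x => s x) ++ u) (p.filter (fun x => ¬ s x) ++ v)) hb.1 hb.2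
        have e2 : ∀ p : List α, vl b (fun q => χ (q.filter (fun x => s x) ++ p.filter (fun x => s x))
            (q.filter (fun x => ¬ s x) ++ p.filter (fun x => ¬ s x))) = 0 := fun p =>
          ihb (fun u v => χ (u ++ p.filter (fun x => s x)) (v ++ p.filter (fun x => ¬ s x))) hb.1 hb.2
        rw [vl_vl b a]
        simp only [e1, e2, vl_zero, sub_self]
      · -- both pure, of different kinds
        have hp : ∀ c : LT α, ¬ ((∃ x ∈ c.leaves, s x) ∧ (∃ x ∈ c.leaves, ¬ s x)) →
            (∀ x ∈ c.leaves, s x) ∨ (∀ x ∈ c.leaves, ¬ s x) := by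
          intro c hc
          by_cases h : ∃ x ∈ c.leaves, s x
          · left
            intro x hx
            by_contra h'
            exact hc ⟨h, x, hx, h'⟩
          · right
            intro x hx h'
            exact h ⟨x, hx, h'⟩
        have hab : ((∀ x ∈ a.leaves, s x) ∧ (∀ x ∈ b.leaves, ¬ s x)) ∨
            ((∀ x ∈ a.leaves, ¬ s x) ∧ (∀ x ∈ b.leaves, s x)) := by
          rcases hp a ha with h | h <;> rcases hp b hb with h' | h'
          · exfalso
            obtain ⟨x, hx, h2⟩ := h2
            rw [LT.leaves, List.mem_append] at hx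
            rcases hx with hx | hx
            · exact h2 (h x hx)
            · exact h2 (h' x hx)
          · exact Or.inl ⟨h, h'⟩
          · exact Or.inr ⟨h, h'⟩
          · exfalso
            obtain ⟨x, hx, h1⟩ := h1
            rw [LT.leaves, List.mem_append] at hx
            rcases hx with hx | hx
            · exact h x hx h1
            · exact h' x hx h1
        rw [vl_vl a b, sub_eq_zero]
        refine vl_congr b (fun q hq => vl_congr a (fun p hp => ?_))
        rcases hab with ⟨h, h'⟩ | ⟨h, h'⟩
        · obtain ⟨e1, e2⟩ := (V43_filt s p).1 (fun x hx => h x (hp.mem_iff.1 hx))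
          obtain ⟨e3, e4⟩ := (V43_filt s q).2 (fun x hx => h' x (hq.mem_iff.1 hx))
          rw [e1, e2, e3, e4]
          simp
        · obtain ⟨e1, e2⟩ := (V43_filt s p).2 (fun x hx => h x (hp.mem_iff.1 hx))
          obtain ⟨e3, e4⟩ := (V43_filt s q).1 (fun x hx => h' x (hq.mem_iff.1 hx))
          rw [e1, e2, e3, e4]
          simp

lemma vl_clade_zero [AddCommGroup R] {C L : LT α} (hC : LT.Cl C L) {φ : List α → R}
    (h : ∀ u v, vl C (fun w => φ (u ++ w ++ v)) = 0) : vl L φ = 0 := by
  induction hC generalizing φ with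
  | refl => simpa using h [] []
  | @left a b _ ih =>
    rw [vl]
    have h1 : ∀ q : List α, vl a (fun p => φ (p ++ q)) = 0 := fun q =>
      ih (fun u v => by simpa only [List.append_assoc] using h u (v ++ q))
    have h2 : ∀ q : List α, vl a (fun p => φ (q ++ p)) = 0 := fun q =>
      ih (fun u v => by simpa only [List.append_assoc] using h (q ++ u) v)
    rw [vl_vl]
    simp only [h1, h2, vl_zero, sub_self]
  | @right b a _ ih =>
    rw [vl]
    have h1 : ∀ p : List α, vl b (fun q => φ (p ++ q)) = 0 := fun p =>
      ih (fun u v => by simpa only [List.append_assoc] using h (p ++ u) v)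
    have h2 : ∀ p : List α, vl b (fun q => φ (q ++ p)) = 0 := fun p =>
      ih (fun u v => by simpa only [List.append_assoc] using h u (v ++ p))
    rw [vl_vl b a]
    simp only [h1, h2, vl_zero, sub_self]

lemma vl_mem {K : Type*} [Field K] [AddCommGroup R] [Module K R] (W : Submodule K R) (L : LT α) {φ : List α → R}
    (h : ∀ w, w.Perm L.leaves → φ w ∈ W) : vl L φ ∈ W := by
  induction L generalizing φ with
  | leaf x => exact h [x] (List.Perm.refl _)
  | node a b iha ihb =>
    rw [vl]
    refine W.sub_mem (iha (fun p hp => ihb (fun q hq => h _ ?_))) (ihb (fun q hq => iha (fun p hp => h _ ?_)))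
    · exact hp.append hq
    · exact (List.perm_append_comm).trans (hp.append hq)

lemma pl_congr [AddCommGroup R] (Ls : List (LT α)) {φ χ : List α → R}
    (h : ∀ w, w.Perm (Ls.flatMap LT.leaves) → φ w = χ w) : pl Ls φ = pl Ls χ := by
  induction Ls generalizing φ χ with
  | nil => exact h [] (List.Perm.refl _)
  | cons G Gs ih =>
    rw [pl, pl]
    refine vl_congr G (fun p hp => ih (fun q hq => h _ ?_))
    rw [List.flatMap_cons]
    exact hp.append hq

lemma pl_hom [AddCommGroup R] [AddCommGroup S] (f : R →+ S) (Ls : List (LT α)) (φ : List α → R) :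
    f (pl Ls φ) = pl Ls (fun w => f (φ w)) := by
  induction Ls generalizing φ with
  | nil => rfl
  | cons G Gs ih => rw [pl, pl, vl_hom]; simp only [ih]

lemma pl_zero [AddCommGroup R] (Ls : List (LT α)) : pl Ls (fun _ => (0 : R)) = 0 := by
  induction Ls with
  | nil => rfl
  | cons G Gs ih => rw [pl]; simp only [ih, vl_zero]

lemma pl_smul {K : Type*} [Field K] [AddCommGroup R] [Module K R] (Ls : List (LT α)) (c : K) (φ : List α → R) :
    pl Ls (fun w => c • φ w) = c • pl Ls φ := by
  induction Ls generalizing φ with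
  | nil => rfl
  | cons G Gs ih => rw [pl, pl, ← vl_smul]; simp only [ih]

lemma pl_mul_left [Ring R] (Ls : List (LT α)) (c : R) (φ : List α → R) : pl Ls (fun w => c * φ w) = c * pl Ls φ :=
  (pl_hom (AddMonoidHom.mulLeft c) Ls φ).symm

lemma pl_mul_right [Ring R] (Ls : List (LT α)) (c : R) (φ : List α → R) : pl Ls (fun w => φ w * c) = pl Ls φ * c :=
  (pl_hom (AddMonoidHom.mulRight c) Ls φ).symm

lemma pl_map [AddCommGroup R] (f : α → β) (Ls : List (LT α)) (φ : List β → R) :
    pl (Ls.map (LT.map f)) φ = pl Ls (fun w => φ (w.map f)) := by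
  induction Ls generalizing φ with
  | nil => rfl
  | cons G Gs ih =>
    rw [List.map_cons, pl, pl, vl_map]
    simp only [ih, List.map_append]

lemma pl_pv {K : Type*} [Field K] (Ls : List (LT α)) (φ : List α → K) : pl Ls φ = pv Ls φ := by
  induction Ls generalizing φ with
  | nil => rfl
  | cons G Gs ih => rw [pl, pv, vl_val]; simp only [ih]

private lemma V43_vl_pl [AddCommGroup R] (L : LT α) (Gs : List (LT β)) (φ : List α → List β → R) :
    vl L (fun p => pl Gs (fun q => φ p q)) = pl Gs (fun q => vl L (fun p => φ p q)) := by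
  induction Gs generalizing φ with
  | nil => rfl
  | cons G Gs ih =>
    simp only [pl]
    rw [vl_vl]
    simp only [ih]

lemma pl_clade_zero [AddCommGroup R] {C L : LT α} {Ls : List (LT α)} (hL : L ∈ Ls) (hC : LT.Cl C L) {φ : List α → R}
    (h : ∀ u v, vl C (fun w => φ (u ++ w ++ v)) = 0) : pl Ls φ = 0 := by
  induction Ls generalizing φ with
  | nil => simp at hL
  | cons G0 Gs ih =>
    rw [pl]
    rcases List.mem_cons.1 hL with rfl | hG'
    · rw [V43_vl_pl]
      have : ∀ q : List α, vl L (fun p => φ (p ++ q)) = 0 := fun q =>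
        vl_clade_zero hC (fun u v => by simpa only [List.append_assoc] using h u (v ++ q))
      simp only [this, pl_zero]
    · have : ∀ p : List α, pl Gs (fun q => φ (p ++ q)) = 0 := fun p =>
        ih hG' (fun u v => by simpa only [List.append_assoc] using h (p ++ u) v)
      simp only [this, vl_zero]

lemma exists_perm_of_pl_ne [AddCommGroup R] (Ls : List (LT α)) {φ : List α → R} (h : pl Ls φ ≠ 0) :
    ∃ w, w.Perm (Ls.flatMap LT.leaves) ∧ φ w ≠ 0 := by
  by_contra hcon
  push Not at hcon
  apply h
  rw [pl_congr Ls (χ := fun _ => 0) hcon, pl_zero]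

private lemma V43_map_surj {e : α → β} (he : Function.Surjective e) (L : LT β) :
    ∃ L' : LT α, LT.map e L' = L ∧ L'.shape = L.shape := by
  induction L with
  | leaf x =>
    obtain ⟨y, rfl⟩ := he x
    exact ⟨LT.leaf y, rfl, rfl⟩
  | node a b iha ihb =>
    obtain ⟨a', ha, ha'⟩ := iha
    obtain ⟨b', hb, hb'⟩ := ihb
    exact ⟨LT.node a' b', by rw [LT.map, ha, hb], by rw [LT.shape, LT.shape, ha', hb']⟩

lemma exists_map_eq' {e : α → β} (he : Function.Surjective e) (Ls : List (LT β)) :
    ∃ Ls' : List (LT α), Ls'.map (LT.map e) = Ls ∧ Ls'.map LT.shape = Ls.map LT.shape := by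
  induction Ls with
  | nil => exact ⟨[], rfl, rfl⟩
  | cons G Gs ih =>
    obtain ⟨Gs', h1, h2⟩ := ih
    obtain ⟨G', h3, h4⟩ := V43_map_surj he G
    exact ⟨G' :: Gs', by rw [List.map_cons, h1, h3], by rw [List.map_cons, List.map_cons, h2, h4]⟩
end V

end Pool.Agent.Bht.BK.AQ
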