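import Pool.Agent.Bht.AQ.V

namespace Pool.Agent.Bht.BK.AQ

open Pool.Agent.H25 Pool.Agent.Bht.BK.CZ

universe u

/-! ## W the function F -/
section W
variable {K R : Type*} [Field K] [Ring R] [Algebra K R]

lemma F_left (D : Dt K R) (κ : ℕ → List ℕ → K) (p q : List L1) :
    D.F κ (p ++ q) = (p.map D.vis).prod * D.F (fun j x => κ j (p.filterMap (bl j) ++ x)) q := by
  simp only [Dt.F, List.filterMap_append, List.map_append, List.prod_append, mul_smul_comm]

lemma F_right (D : Dt K R) (κ : ℕ → List ℕ → K) (p q : List L1) :
    D.F κ (p ++ q) = D.F (fun j x => κ j (x ++ q.filterMap (bl j))) p * (q.map D.vis).prod := by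
  simp only [Dt.F, List.filterMap_append, List.map_append, List.prod_append, smul_mul_assoc]

open Classical in
lemma F_split (D : Dt K R) (κ : ℕ → List ℕ → K) (p q : List L1) (A : ℕ → Prop)
    (hp : ∀ j < D.J, ¬ A j → p.filterMap (bl j) = []) (hq : ∀ j < D.J, A j → q.filterMap (bl j) = []) :
    D.F κ (p ++ q) = D.F (fun j => if A j then κ j else fun _ => 1) p *
      D.F (fun j => if A j then fun _ => 1 else κ j) q := by
  have h : (∏ j ∈ Finset.range D.J, κ j ((p ++ q).filterMap (bl j))) =
      (∏ j ∈ Finset.range D.J, (if A j then κ j else fun _ => (1 : K)) (p.filterMap (bl j))) *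
      (∏ j ∈ Finset.range D.J, (if A j then fun _ => (1 : K) else κ j) (q.filterMap (bl j))) := by
    rw [← Finset.prod_mul_distrib]
    refine Finset.prod_congr rfl fun j hj => ?_
    have hj' := Finset.mem_range.mp hj
    by_cases hA : A j
    · rw [if_pos hA, if_pos hA, List.filterMap_append, hq j hj' hA, List.append_nil, mul_one]
    · rw [if_neg hA, if_neg hA, List.filterMap_append, hp j hj' hA, List.nil_append, one_mul]
  simp only [Dt.F]
  rw [h, List.map_append, List.prod_append, smul_mul_smul_comm]

private lemma W_bl_none {j : ℕ} {x : L1} (h : ¬ inb j x) : bl j x = none := by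
  rcases x with k | ⟨a, k⟩
  · rfl
  · have : ¬ a = j := h
    simp [bl, this]

open Classical in
private lemma W_fm_in (j : ℕ) (w : List L1) :
    w.filterMap (bl j) = (w.filter (fun x => inb j x)).filterMap (bl j) := by
  induction w with
  | nil => rfl
  | cons x w ih =>
    by_cases hx : inb j x
    · rw [List.filter_cons_of_pos (by simpa using hx), List.filterMap_cons, List.filterMap_cons, ih]
    · rw [List.filter_cons_of_neg (by simpa using hx), List.filterMap_cons, W_bl_none hx, ih]

open Classical in
private lemma W_fm_out {i j : ℕ} (hij : i ≠ j) (w : List L1) :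
    w.filterMap (bl i) = (w.filter (fun x => ¬ inb j x)).filterMap (bl i) := by
  induction w with
  | nil => rfl
  | cons x w ih =>
    by_cases hx : inb j x
    · rw [List.filter_cons_of_neg (by simpa using hx), List.filterMap_cons]
      have hn : bl i x = none := by
        apply W_bl_none
        rcases x with k | ⟨a, k⟩
        · exact fun h => h
        · intro h
          have h1 : a = j := hx
          have h2 : a = i := h
          exact hij (h2.symm.trans h1)
      rw [hn, ih]
    · rw [List.filter_cons_of_pos (by simpa using hx), List.filterMap_cons, List.filterMap_cons, ih]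

/-- letters of block `j` but not the special one, and other letters -/
theorem zero_two (D : Dt K R) (κ : ℕ → List ℕ → K) (L : LT L1) (j : ℕ) (h1 : ∃ x ∈ L.leaves, inb j x)
    (h2 : ∃ x ∈ L.leaves, ¬ inb j x) (h0 : Sum.inr (j, 0) ∉ L.leaves) : vl L (D.F κ) = 0 := by
  classical
  have hvis : ∀ x : L1, x ∈ L.leaves → inb j x → D.vis x = 1 := by
    intro x hx hj
    rcases x with k | ⟨a, k⟩
    · exact absurd hj (fun h => h)
    · have ha : a = j := hj
      subst ha
      by_cases hk : k = 0
      · subst hk; exact absurd hx h0
      · simp [Dt.vis, hk]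
  refine Eq.trans (vl_congr L ?_) (vl_two (R := R) L (fun x => inb j x)
    (fun p q : List L1 => (∏ i ∈ Finset.range D.J,
      κ i (if i = j then p.filterMap (bl i) else q.filterMap (bl i))) • (q.map D.vis).prod) h1 h2)
  · intro w hw
    have hprod : ∀ w : List L1, (∀ x ∈ w, inb j x → D.vis x = 1) →
        (w.map D.vis).prod = ((w.filter (fun x => ¬ inb j x)).map D.vis).prod := by
      intro w
      induction w with
      | nil => intro _; rfl
      | cons x w ih =>
        intro hx
        have hih := ih (fun y hy => hx y (List.mem_cons_of_mem _ hy))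
        by_cases hj : inb j x
        · rw [List.filter_cons_of_neg (by simpa using hj), List.map_cons, List.prod_cons,
            hx x List.mem_cons_self hj, one_mul, hih]
        · rw [List.filter_cons_of_pos (by simpa using hj), List.map_cons, List.prod_cons,
            List.map_cons, List.prod_cons, hih]
    have hpw := hprod w (fun x hx hj => hvis x (hw.subset hx) hj)
    show D.F κ w = (∏ i ∈ Finset.range D.J, κ i (if i = j then
      (w.filter (fun x => inb j x)).filterMap (bl i) else
      (w.filter (fun x => ¬ inb j x)).filterMap (bl i))) •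
      ((w.filter (fun x => ¬ inb j x)).map D.vis).prod
    rw [← hpw]
    unfold Dt.F
    congr 1
    refine Finset.prod_congr rfl fun i _ => ?_
    by_cases hij : i = j
    · subst hij; rw [if_pos rfl, ← W_fm_in]
    · rw [if_neg hij, ← W_fm_out hij]

omit [Field K] [Algebra K R] in
open Classical in
private lemma W_pow (D : Dt K R) (w : List L1) (hw : ∀ x ∈ w, x.isLeft = false) :
    (w.map D.vis).prod = D.c ^ (w.countP (fun x => ∃ j, x = Sum.inr (j, 0))) := by
  induction w with
  | nil => simp
  | cons x w ih =>
    have hih := ih (fun y hy => hw y (List.mem_cons_of_mem _ hy))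
    have hx := hw x List.mem_cons_self
    rcases x with k | ⟨a, k⟩
    · simp at hx
    · rw [List.map_cons, List.prod_cons, hih]
      by_cases hk : k = 0
      · subst hk
        rw [List.countP_cons_of_pos (by simp), pow_succ']
        simp [Dt.vis]
      · rw [List.countP_cons_of_neg (by simp [hk])]
        simp [Dt.vis, hk]

private lemma W_nomark {L : LT L1} (hm : mk1 L = 0) : ∀ x ∈ L.leaves, x.isLeft = false := by
  intro x hx
  have h := List.countP_eq_zero.mp hm x hx
  simpa using h

/-- no marks, two blocks -/
theorem zero_pure (D : Dt K R) (κ : ℕ → List ℕ → K) (L : LT L1) (hm : mk1 L = 0) (j : ℕ)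
    (h1 : ∃ x ∈ L.leaves, inb j x) (h2 : ∃ x ∈ L.leaves, ¬ inb j x) : vl L (D.F κ) = 0 := by
  classical
  refine Eq.trans (vl_congr L ?_) (vl_two (R := R) L (fun x => inb j x)
    (fun p q : List L1 => (∏ i ∈ Finset.range D.J,
      κ i (if i = j then p.filterMap (bl i) else q.filterMap (bl i))) •
      (D.c ^ (p.countP (fun x : L1 => ∃ j, x = Sum.inr (j, 0)) +
        q.countP (fun x : L1 => ∃ j, x = Sum.inr (j, 0))))) h1 h2)
  · intro w hw
    have hpw := W_pow D w (fun x hx => W_nomark hm x (hw.subset hx))
    have hc : w.countP (fun x : L1 => ∃ j, x = Sum.inr (j, 0)) =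
        (w.filter (fun x => inb j x)).countP (fun x : L1 => ∃ j, x = Sum.inr (j, 0)) +
        (w.filter (fun x => ¬ inb j x)).countP (fun x : L1 => ∃ j, x = Sum.inr (j, 0)) := by
      have := List.countP_append (p := fun x : L1 => decide (∃ j, x = Sum.inr (j, 0)))
        (l₁ := w.filter (fun x => inb j x)) (l₂ := w.filter (fun x => ¬ inb j x))
      rw [← this]
      apply List.Perm.countP_eq
      have hp := (List.filter_append_perm (fun x => decide (inb j x)) w).symm
      simpa using hp
    show D.F κ w = (∏ i ∈ Finset.range D.J, κ i (if i = j then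
      (w.filter (fun x => inb j x)).filterMap (bl i) else
      (w.filter (fun x => ¬ inb j x)).filterMap (bl i))) •
      (D.c ^ ((w.filter (fun x => inb j x)).countP (fun x : L1 => ∃ j, x = Sum.inr (j, 0)) +
        (w.filter (fun x => ¬ inb j x)).countP (fun x : L1 => ∃ j, x = Sum.inr (j, 0))))
    rw [← hc, ← hpw]
    unfold Dt.F
    congr 1
    refine Finset.prod_congr rfl fun i _ => ?_
    by_cases hij : i = j
    · subst hij; rw [if_pos rfl, ← W_fm_in]
    · rw [if_neg hij, ← W_fm_out hij]

/-- one block with its special letter -/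
theorem pure_one (D : Dt K R) (κ : ℕ → List ℕ → K) (L : LT L1) (j : ℕ) (h1 : ∀ x ∈ L.leaves, inb j x)
    (h0 : Sum.inr (j, 0) ∈ L.leaves) (hn : L.leaves.Nodup) : ∃ s : K, vl L (D.F κ) = s • D.c := by
  classical
  have hmem : vl L (D.F κ) ∈ Submodule.span K {D.c} := by
    apply vl_mem
    intro w hw
    have hl : ∀ x ∈ w, x.isLeft = false := by
      intro x hx
      have := h1 x (hw.subset hx)
      rcases x with k | ⟨a, k⟩
      · exact absurd this (fun h => h)
      · rfl
    have hpw := W_pow D w hl
    have hnw : w.Nodup := hw.nodup_iff.mpr hn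
    have hc : w.countP (fun x : L1 => ∃ j, x = Sum.inr (j, 0)) = 1 := by
      rw [List.countP_eq_length_filter]
      have ha : ∀ x ∈ w.filter (fun x : L1 => ∃ j, x = Sum.inr (j, 0)), x = Sum.inr (j, 0) := by
        intro x hx
        have hx1 := List.mem_of_mem_filter hx
        have hx2 := List.of_mem_filter hx
        obtain ⟨i, hi⟩ : ∃ i, x = Sum.inr (i, 0) := by simpa using hx2
        subst hi
        have hb : i = j := h1 _ (hw.subset hx1)
        rw [hb]
      have hmem : (Sum.inr (j, 0) : L1) ∈ w.filter (fun x : L1 => ∃ j, x = Sum.inr (j, 0)) := by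
        rw [List.mem_filter]
        exact ⟨hw.symm.subset h0, by simp⟩
      have hnd := hnw.filter (fun x : L1 => decide (∃ j, x = Sum.inr (j, 0)))
      revert ha hmem hnd
      generalize w.filter (fun x : L1 => decide (∃ j, x = Sum.inr (j, 0))) = l
      intro ha hmem hnd
      match l, ha, hmem, hnd with
      | [], _, hmem, _ => exact absurd hmem (by simp)
      | [x], _, _, _ => rfl
      | x :: y :: l, ha, _, hnd =>
        exfalso
        have hx := ha x (by simp)
        have hy := ha y (by simp)
        rw [hx, hy] at hnd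
        simp at hnd
    unfold Dt.F
    rw [hpw, hc, pow_one]
    exact Submodule.smul_mem _ _ (Submodule.mem_span_singleton_self _)
  obtain ⟨s, hs⟩ := Submodule.mem_span_singleton.mp hmem
  exact ⟨s, hs.symm⟩

open Classical in
theorem vl_ctx (D : Dt K R) (L : LT L1) (u v : List L1) : vl L (fun w => D.Φ (u ++ w ++ v)) =
    if (u ++ L.leaves ++ v).Perm D.all then (u.map D.vis).prod *
      vl L (D.F (fun j x => D.ψ j (u.filterMap (bl j) ++ x ++ v.filterMap (bl j)))) * (v.map D.vis).prod
    else 0 := by
  have hperm : ∀ w : List L1, w.Perm L.leaves → ((u ++ w ++ v).Perm D.all ↔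
      (u ++ L.leaves ++ v).Perm D.all) := by
    intro w hw
    have h : (u ++ w ++ v).Perm (u ++ L.leaves ++ v) :=
      (List.Perm.append_left u hw).append_right v
    exact ⟨fun h' => h.symm.trans h', fun h' => h.trans h'⟩
  by_cases hp : (u ++ L.leaves ++ v).Perm D.all
  · rw [if_pos hp, ← vl_mul_left, ← vl_mul_right]
    apply vl_congr
    intro w hw
    unfold Dt.Φ
    rw [if_pos ((hperm w hw).mpr hp)]
    simp only [Dt.F, List.filterMap_append, List.map_append, List.prod_append, mul_smul_comm,
      smul_mul_assoc]
  · rw [if_neg hp, ← vl_zero L]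
    apply vl_congr
    intro w hw
    unfold Dt.Φ
    rw [if_neg (fun h => hp ((hperm w hw).mp h))]

open Classical in
theorem pl_F (D : Dt K R) (Ls : List (LT L1)) : pl Ls D.Φ =
    if (Ls.flatMap LT.leaves).Perm D.all then pl Ls (D.F D.ψ) else 0 := by
  by_cases hp : (Ls.flatMap LT.leaves).Perm D.all
  · rw [if_pos hp]
    apply pl_congr
    intro w hw
    unfold Dt.Φ
    rw [if_pos (hw.trans hp)]
  · rw [if_neg hp, ← pl_zero Ls]
    apply pl_congr
    intro w hw
    unfold Dt.Φ
    rw [if_neg (fun h => hp (hw.symm.trans h))]

theorem all_nodup (D : Dt K R) : D.all.Nodup := by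
  unfold Dt.all
  rw [List.nodup_append]
  refine ⟨?_, ?_, ?_⟩
  · exact (List.nodup_range).map Sum.inl_injective
  · rw [List.nodup_flatMap]
    refine ⟨?_, ?_⟩
    · intro j _
      refine (List.nodup_range).map ?_
      intro a b hab
      simpa using hab
    · refine List.Pairwise.imp ?_ (List.nodup_range (n := D.J))
      intro a b hab
      rw [Function.onFun, List.disjoint_left]
      intro x hx hx'
      simp only [List.mem_map] at hx hx'
      obtain ⟨k, _, rfl⟩ := hx
      obtain ⟨k', _, h'⟩ := hx'
      have := Sum.inr.inj h'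
      exact hab (Prod.mk.inj this).1.symm
  · intro a ha b hb hab
    subst hab
    simp only [List.mem_map, List.mem_flatMap] at ha hb
    obtain ⟨k, _, rfl⟩ := ha
    obtain ⟨j, _, k', _, h'⟩ := hb
    exact absurd h' (by simp)

theorem all_length (D : Dt K R) : D.all.length = D.n + ∑ j ∈ Finset.range D.J, D.sz j := by
  unfold Dt.all
  rw [List.length_append, List.length_map, List.length_range, List.length_flatMap]
  congr 1
  simp only [List.length_map, List.length_range]
  induction D.J with
  | zero => rfl
  | succ n ih =>
    rw [List.range_succ, List.map_append, List.sum_append, ih, Finset.sum_range_succ]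
    simp
end W

end Pool.Agent.Bht.BK.AQ
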